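import Pool.Agent.Lib.P325rm.PairA

/-!
Module PairC (1.5h; adapt P325sdp/PairC.lean; black boxes PairA, Ker, KSum, Rho, Sig, Loc). The exact law of a pair is
close to the local law, T = 4 j.
PROOF. x = x': both are avgL univ (pair_self, locK_single, {x, x} = {x}). x ≠ x': d0 = al x x', ρ_d = rho (x + x' + cd d),
A_d = avgL (eqs x x' d) F, U = avgL univ F in [-1, 1]. As in P325sdp/PairC.lean locL {x, x'} F = U + P (A_d0 - U) with
P = ((1+ρ_d0^2)/2)^(4j) if |ρ_d0| >= 7/8, else P = 0. By pair_apply the difference is (1 - κ) times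
P (A_d0 - U) - ∑_d ker_d (A_d - U), at most 2 |P - ker_d0| + 2 ∑_{d ≠ d0} ker_d. ∑_{d≠d0} ker_d <= sig (ker_rest; for
d ≠ d0 |ρ_d| < 3/4 by al_spec). If |ρ_d0| >= 7/8: |P - ker_d0| <= 2 (16/27)^j. Else P = 0 and ker_d0 <=
2 ((1 + 49/64)/2)^(4j) = 2 (113/128)^(4j) (ker_mono, ker_le_two). Both cases <= err.
-/

open scoped BigOperators

namespace Pool.Agent.Lib.P325rm

open Pool.Agent.Lib.P325x (Pt)
open Pool.Agent.Lib.P325sdp (IsPos avgL)

variable {n : ℕ} {A : Type} [Fintype A] [DecidableEq A] [Nonempty A] {β : ℝ}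

namespace PairCAux

open Pool.Agent.Lib.P325sdp (sol)

theorem avgL_apply' {Z : Type} (s : Finset Z) (F : Z → ℝ) :
    avgL s F = (s.card : ℝ)⁻¹ * ∑ c ∈ s, F c := by
  simp [avgL, LinearMap.smul_apply, LinearMap.sum_apply]

theorem abs_avgL_le {Z : Type} (s : Finset Z) (F : Z → ℝ) (h1 : ∀ c, |F c| ≤ 1) :
    |avgL s F| ≤ 1 := by
  rw [avgL_apply', abs_mul, abs_of_nonneg (by positivity : (0 : ℝ) ≤ (s.card : ℝ)⁻¹)]
  have h2 : |∑ c ∈ s, F c| ≤ s.card := by
    refine (Finset.abs_sum_le_sum_abs _ _).trans ?_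
    refine (Finset.sum_le_sum fun c _ => h1 c).trans ?_
    simp
  rcases Nat.eq_zero_or_pos s.card with h0 | h0
  · rw [h0]; simp
  · have h3 : (0 : ℝ) < s.card := by exact_mod_cast h0
    rw [inv_mul_le_iff₀ h3]
    linarith

theorem mem_sol_iff {B G : Type} [Fintype B] [Fintype G] [Add G] (R : B → B → Prop)
    (al : B → B → G) (X : Finset B) (c : B → G) :
    c ∈ sol R al X ↔ ∀ x ∈ X, ∀ x' ∈ X, R x x' → c x = c x' + al x x' := by
  classical
  simp [sol]

theorem mem_eqs_iff (x x' : A → ZMod 2) (d : Pt n) (c : (A → ZMod 2) → Pt n) :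
    c ∈ eqs x x' d ↔ c x = c x' + d := by
  classical
  simp [eqs]

theorem mem_pair_cases {x x' : A → ZMod 2} {P : (A → ZMod 2) → (A → ZMod 2) → Prop} :
    (∀ a ∈ ({x, x'} : Finset (A → ZMod 2)), ∀ b ∈ ({x, x'} : Finset (A → ZMod 2)), P a b) ↔
      P x x ∧ P x x' ∧ P x' x ∧ P x' x' := by
  simp only [Finset.mem_insert, Finset.mem_singleton, forall_eq_or_imp, forall_eq]
  tauto

theorem rel_self_big (K : Code n A β) (hβ : β < 1 / 2) (x : A → ZMod 2) :
    7 / 8 ≤ |rho (x + x + K.cd (al K x x))| := by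
  rw [LocAux.rel_zero K hβ, rho_zero, abs_one]
  norm_num

theorem add_eq_iff_pt (a b d : Pt n) : a = b + d ↔ b = a + d := by
  constructor
  · rintro rfl
    rw [add_assoc, P325x.pt_add_self, add_zero]
  · rintro rfl
    rw [add_assoc, P325x.pt_add_self, add_zero]

theorem sol_pair (K : Code n A β) (hβ : β < 1 / 2) (R : (A → ZMod 2) → (A → ZMod 2) → Prop)
    (x x' : A → ZMod 2) (hR : R x' x ↔ R x x') (c : (A → ZMod 2) → Pt n) :
    c ∈ sol R (al K) {x, x'} ↔ (R x x' → c x = c x' + al K x x') := by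
  rw [mem_sol_iff, mem_pair_cases, hR, al_self K hβ, al_self K hβ, al_symm K x x']
  simp only [add_zero, implies_true, true_and, and_true]
  constructor
  · intro h; exact h.1
  · intro h
    exact ⟨h, fun hr => (add_eq_iff_pt _ _ _).1 (h hr)⟩

theorem rel_comm (K : Code n A β) {T : ℕ} (ω : Fin T → A × A) (x x' : A → ZMod 2) :
    Rel K ω x' x ↔ Rel K ω x x' := by
  unfold Rel
  rw [al_symm K x x', add_comm x' x]

theorem good_pair (K : Code n A β) (hβ : β < 1 / 2) {T : ℕ} (ω : Fin T → A × A)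
    (x x' : A → ZMod 2) :
    Good K ω {x, x'} ↔ (Rel K ω x x' → 7 / 8 ≤ |rho (x + x' + K.cd (al K x x'))|) := by
  have hrel := rel_comm K ω x x'
  unfold Good
  rw [mem_pair_cases, hrel, al_symm K x x', add_comm x' x]
  constructor
  · intro h; exact h.2.1
  · intro h
    exact ⟨fun _ => rel_self_big K hβ x, h, h, fun _ => rel_self_big K hβ x'⟩

theorem solX_big (K : Code n A β) (hβ : β < 1 / 2) {T : ℕ} (ω : Fin T → A × A)
    (x x' : A → ZMod 2) (h : 7 / 8 ≤ |rho (x + x' + K.cd (al K x x'))|)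
    (ha : agr ω (x + x' + K.cd (al K x x'))) :
    solX K ω {x, x'} = eqs x x' (al K x x') := by
  have hr : Rel K ω x x' := ⟨by linarith, ha⟩
  have hrel := rel_comm K ω x x'
  rw [solX, if_pos ((good_pair K hβ ω x x').2 fun _ => h)]
  ext c
  rw [sol_pair K hβ _ _ _ hrel, mem_eqs_iff]
  simp [hr]

theorem solX_univ (K : Code n A β) (hβ : β < 1 / 2) {T : ℕ} (ω : Fin T → A × A)
    (x x' : A → ZMod 2) (h : 7 / 8 ≤ |rho (x + x' + K.cd (al K x x'))| →
      ¬ agr ω (x + x' + K.cd (al K x x'))) :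
    solX K ω {x, x'} = Finset.univ := by
  have hrel := rel_comm K ω x x'
  rw [solX]
  split_ifs with hg
  · rw [good_pair K hβ] at hg
    have hr : ¬ Rel K ω x x' := fun hr => h (hg hr) hr.2
    ext c
    rw [sol_pair K hβ _ _ _ hrel]
    simp [hr]
  · rfl

theorem loc_const (K : Code n A β) (T : ℕ) (X : Finset (A → ZMod 2))
    (F : ((A → ZMod 2) → Pt n) → ℝ)
    (h : ∀ ω : Fin T → A × A, solX K ω X = Finset.univ) :
    locL K T X F = avgL Finset.univ F := by
  have hN : (Fintype.card (Fin T → A × A) : ℝ) ≠ 0 := by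
    exact_mod_cast Fintype.card_ne_zero
  rw [LocAux.locL_apply, Finset.sum_congr rfl fun ω _ => by rw [h ω], Finset.sum_const,
    Finset.card_univ, nsmul_eq_mul, ← mul_assoc, inv_mul_cancel₀ hN, one_mul]

theorem loc_big (K : Code n A β) (hβ : β < 1 / 2) (T : ℕ) (x x' : A → ZMod 2)
    (F : ((A → ZMod 2) → Pt n) → ℝ)
    (h : 7 / 8 ≤ |rho (x + x' + K.cd (al K x x'))|) :
    locL K T {x, x'} F = avgL Finset.univ F +
      ((1 + rho (x + x' + K.cd (al K x x')) ^ 2) / 2) ^ T *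
      (avgL (eqs x x' (al K x x')) F - avgL Finset.univ F) := by
  classical
  have hN : (Fintype.card (Fin T → A × A) : ℝ) ≠ 0 := by
    exact_mod_cast Fintype.card_ne_zero
  set f : A → ZMod 2 := x + x' + K.cd (al K x x') with hf
  have e : ∀ ω : Fin T → A × A, avgL (solX K ω {x, x'}) F = avgL Finset.univ F +
      (if agr ω f then 1 else 0) * (avgL (eqs x x' (al K x x')) F - avgL Finset.univ F) := by
    intro ω
    by_cases ha : agr ω f
    · rw [solX_big K hβ ω x x' h ha, if_pos ha]; ring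
    · rw [solX_univ K hβ ω x x' fun _ => ha, if_neg ha]; ring
  have hc : (∑ ω : Fin T → A × A, (if agr ω f then (1 : ℝ) else 0)) =
      ((1 + rho f ^ 2) / 2) ^ T * (Fintype.card (Fin T → A × A) : ℝ) := by
    rw [← sig_prob T f, Finset.sum_boole, Nat.card_eq_fintype_card, Fintype.card_subtype]
  rw [LocAux.locL_apply, Finset.sum_congr rfl fun ω _ => e ω, Finset.sum_add_distrib,
    ← Finset.sum_mul, hc, Finset.sum_const, Finset.card_univ, nsmul_eq_mul]
  field_simp

theorem abs_dif_le (x x' : A → ZMod 2) (d : Pt n) (F : ((A → ZMod 2) → Pt n) → ℝ)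
    (h1 : ∀ c, |F c| ≤ 1) :
    |avgL (eqs x x' d) F - avgL Finset.univ F| ≤ 2 := by
  have e1 := abs_avgL_le (eqs x x' d) F h1
  have e2 := abs_avgL_le (Finset.univ : Finset ((A → ZMod 2) → Pt n)) F h1
  rw [abs_le] at e1 e2 ⊢
  constructor
  · linarith [e1.1, e2.2]
  · linarith [e1.2, e2.1]

theorem err_nonneg (j : ℕ) (hβ : 0 < β) : 0 ≤ err n j β := by
  have h := sig_nonneg n j β hβ
  unfold err
  have h2 : (0 : ℝ) ≤ (16 / 27) ^ j := by positivity
  have h3 : (0 : ℝ) ≤ (113 / 128) ^ (4 * j) := by positivity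
  linarith

end PairCAux

open PairCAux

theorem pair_close (K : Code n A β) (hβ : 0 < β) (hβ1 : β < 1 / 4) (κ : ℝ) (h0 : 0 ≤ κ)
    (h1 : κ ≤ 1) (j : ℕ) (hj : 2 ≤ j) (x x' : A → ZMod 2) (F : ((A → ZMod 2) → Pt n) → ℝ)
    (hF : ∀ c, |F c| ≤ 1) :
    |locK K κ (4 * j) {x, x'} F - pairK K κ j x x' F| ≤ err n j β := by
  classical
  have hβ2 : β < 1 / 2 := by linarith
  by_cases hxx : x = x'
  · subst hxx
    rw [Finset.pair_eq_singleton, locK_single K hβ2, pair_self, sub_self, abs_zero]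
    exact err_nonneg j hβ
  set U : ℝ := avgL (Finset.univ : Finset ((A → ZMod 2) → Pt n)) F with hU
  set f : A → ZMod 2 := x + x' with hf
  set d0 : Pt n := al K x x' with hd0
  have hker0 : ∀ d : Pt n, 0 ≤ ker j (rho (f + K.cd d) ^ 2) :=
    fun d => ker_nonneg j _ (sq_nonneg _)
  have hrest : ∑ d ∈ Finset.univ.erase d0, ker j (rho (f + K.cd d) ^ 2) ≤ sig n j β := by
    refine ker_rest K hβ hβ1 j hj f d0 (fun d hd => ?_)
    by_contra hcon
    push Not at hcon
    exact hd (al_spec K hβ2 x x' d hcon.le).symm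
  have hsum : |∑ d ∈ Finset.univ.erase d0, ker j (rho (f + K.cd d) ^ 2) *
      (avgL (eqs x x' d) F - U)| ≤ 2 * sig n j β := by
    refine (Finset.abs_sum_le_sum_abs _ _).trans ?_
    have h2 : ∀ d ∈ Finset.univ.erase d0, |ker j (rho (f + K.cd d) ^ 2) *
        (avgL (eqs x x' d) F - U)| ≤ ker j (rho (f + K.cd d) ^ 2) * 2 := by
      intro d _
      rw [abs_mul, abs_of_nonneg (hker0 d)]
      exact mul_le_mul_of_nonneg_left (abs_dif_le x x' d F hF) (hker0 d)
    refine (Finset.sum_le_sum h2).trans ?_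
    rw [← Finset.sum_mul]
    linarith
  -- the local law
  obtain ⟨P, hL, hP⟩ : ∃ P : ℝ, locL K (4 * j) {x, x'} F =
      U + P * (avgL (eqs x x' d0) F - U) ∧
      |P - ker j (rho (f + K.cd d0) ^ 2)| ≤ 2 * (16 / 27) ^ j + 2 * (113 / 128) ^ (4 * j) := by
    by_cases hbig : 7 / 8 ≤ |rho (f + K.cd d0)|
    · refine ⟨_, loc_big K hβ2 (4 * j) x x' F hbig, ?_⟩
      have h2 := ker_close j hj (rho (f + K.cd d0) ^ 2) (sq_nonneg _) (rho_sq_le _)
      rw [abs_sub_comm] at h2
      have h3 : (0 : ℝ) ≤ 2 * (113 / 128) ^ (4 * j) := by positivity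
      linarith
    · push Not at hbig
      refine ⟨0, ?_, ?_⟩
      · rw [zero_mul, add_zero]
        exact loc_const K (4 * j) _ F fun ω => solX_univ K hβ2 ω x x' fun h =>
          absurd h (not_le.2 hbig)
      · rw [zero_sub, abs_neg, abs_of_nonneg (hker0 d0)]
        have h2 := ker_le_two j hj (rho (f + K.cd d0) ^ 2) (sq_nonneg _)
        have h3 : rho (f + K.cd d0) ^ 2 ≤ 49 / 64 := by
          have h4 := pow_le_pow_left₀ (abs_nonneg _) hbig.le 2
          rw [sq_abs] at h4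
          norm_num at h4
          linarith
        have h4 : ((1 + rho (f + K.cd d0) ^ 2) / 2) ^ (4 * j) ≤ (113 / 128) ^ (4 * j) := by
          refine pow_le_pow_left₀ (by positivity) ?_ _
          linarith
        have h5 : (0 : ℝ) ≤ 2 * (16 / 27) ^ j := by positivity
        linarith
  rw [LocAux.locK_apply, pair_apply K κ j x x' hxx, hL,
    ← Finset.add_sum_erase _ _ (Finset.mem_univ d0)]
  have hkd : ∀ d, kd K κ j x x' d = (1 - κ) * ker j (rho (f + K.cd d) ^ 2) := fun d => rfl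
  simp only [hkd, mul_assoc]
  rw [← Finset.mul_sum]
  set D : ℝ := avgL (eqs x x' d0) F - U with hD
  set S : ℝ := ∑ d ∈ Finset.univ.erase d0, ker j (rho (f + K.cd d) ^ 2) *
      (avgL (eqs x x' d) F - U) with hS
  set k0 : ℝ := ker j (rho (f + K.cd d0) ^ 2) with hk0
  have hDle : |D| ≤ 2 := abs_dif_le x x' d0 F hF
  have e : κ * U + (1 - κ) * (U + P * D) - (U + ((1 - κ) * (k0 * D) + (1 - κ) * S)) =
      (1 - κ) * ((P - k0) * D - S) := by ring
  rw [e, abs_mul, abs_of_nonneg (by linarith : (0 : ℝ) ≤ 1 - κ)]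
  have h6 : |(P - k0) * D - S| ≤ err n j β := by
    refine (abs_sub _ _).trans ?_
    rw [abs_mul]
    have h7 : |P - k0| * |D| ≤ (2 * (16 / 27) ^ j + 2 * (113 / 128) ^ (4 * j)) * 2 :=
      mul_le_mul hP hDle (abs_nonneg _) (by positivity)
    unfold err
    linarith
  exact (mul_le_of_le_one_left (abs_nonneg _) (by linarith)).trans h6

end Pool.Agent.Lib.P325rm
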