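import Pool.Agent.Lib.P325rm.PairA

/-!
Module PairP (2h; adapt P325sdp/PairP.lean; black boxes PairA, Ker, KSum). The second moments of the exact pair laws
are positive semidefinite.
PROOF. N = 2^n = |Pt n|. gram_pow, gram_ker: as in P325sdp/PairP.lean (rho (f + g)^m |A|^m = ∑_{a : Fin m → A} ∏ sg (f a_i) ∏ sg
(g a_i)); ker_sum. Kern (x,g;x',g') = (1 - κ) ker j (rho ((x + cd g) + (x' + cd g'))^2) = kd (x,x') (g + g') (also for x = x').
m x = (∑_g H x g)/N, G x g = H x g - m x (∑_g G x g = 0). For x ≠ x' as in P325sdp (pair_centred): pairK (H x ⊗ H x') =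
N⁻¹ ∑_{g,g'} Kern G x g G x' g' + m x m x'. For x = x': avgL univ (H x (c x))^2 = N⁻¹ ∑_g (H x g)^2 = N⁻¹ ∑_g (G x g)^2 + m x^2
>= N⁻¹ ∑_{g,g'} Kern (x,g;x,g') G x g G x g' + m x^2, because ∑_{g,g'} Kern G G <= (1-κ) [∑_g G^2 + max_{d≠0} ker (rho (cd d)^2)
(∑_g |G|)^2] <= (1-κ) [1 + 2^n max ker] ∑ G^2 <= (1-κ)(1+κ) ∑ G^2 <= ∑ G^2 (ker_self_le, sig <= κ, Cauchy-Schwarz, ker at
rho 0 = 1 is 1). Summing over all x, x': total >= (c0 + ∑ m x)^2 + N⁻¹ gram_ker(...) >= 0.
-/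

open scoped BigOperators

namespace Pool.Agent.Lib.P325rm

open Pool.Agent.Lib.P325x (Pt)
open Pool.Agent.Lib.P325sdp (IsPos avgL)

variable {n : ℕ} {A : Type} [Fintype A] [DecidableEq A] [Nonempty A] {β : ℝ}

namespace PairPAux

open Pool.Agent.Lib.P325x (sg sg_add pt_add_self)

theorem avgL_apply {Z : Type} (s : Finset Z) (F : Z → ℝ) :
    avgL s F = (s.card : ℝ)⁻¹ * ∑ c ∈ s, F c := by
  simp [avgL]

theorem rho_add_eq (x y : A → ZMod 2) :
    rho (x + y) = (∑ a, sg (x a) * sg (y a)) / (Fintype.card A : ℝ) := by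
  rw [rho]
  congr 1
  exact Finset.sum_congr rfl fun a _ => by rw [Pi.add_apply, sg_add]

theorem gram_sq {I P : Type} [Fintype I] [Fintype P] (M : I → P → ℝ) :
    ∑ i, ∑ j, ∑ p, M i p * M j p = ∑ p, (∑ i, M i p) ^ 2 := by
  rw [Finset.sum_congr rfl fun i _ => Finset.sum_comm, Finset.sum_comm]
  refine Finset.sum_congr rfl fun p _ => ?_
  rw [sq, Finset.sum_mul_sum]

theorem card_pt : (Fintype.card (Pt n) : ℝ) = 2 ^ n := by
  rw [Fintype.card_fun, ZMod.card, Fintype.card_fin]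
  push_cast
  rfl

theorem sum_shift (v : Pt n) (φ : Pt n → ℝ) : ∑ g, φ (v + g) = ∑ g, φ g :=
  Equiv.sum_comp (Equiv.addLeft v) φ

theorem avg_univ (F : ((A → ZMod 2) → Pt n) → ℝ) :
    avgL Finset.univ F = (Fintype.card ((A → ZMod 2) → Pt n) : ℝ)⁻¹ * ∑ c, F c := by
  rw [avgL_apply, Finset.card_univ]

theorem card_ne : (Fintype.card ((A → ZMod 2) → Pt n) : ℝ) ≠ 0 := by
  exact_mod_cast Fintype.card_ne_zero

/-- the average of a function of one label -/
theorem avg_one (x : A → ZMod 2) (φ : Pt n → ℝ) :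
    avgL Finset.univ (fun c : (A → ZMod 2) → Pt n => φ (c x)) = (∑ g, φ g) / 2 ^ n := by
  have h1 : ∀ g : Pt n, ∑ c : (A → ZMod 2) → Pt n, φ (c x + g) =
      ∑ c : (A → ZMod 2) → Pt n, φ (c x) := by
    intro g
    exact Equiv.sum_comp (Equiv.addRight (fun _ => g : (A → ZMod 2) → Pt n)) (fun c => φ (c x))
  have h2 : (2 : ℝ) ^ n * ∑ c : (A → ZMod 2) → Pt n, φ (c x) =
      (Fintype.card ((A → ZMod 2) → Pt n) : ℝ) * ∑ g, φ g := by
    calc (2 : ℝ) ^ n * ∑ c : (A → ZMod 2) → Pt n, φ (c x)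
        = ∑ g : Pt n, ∑ c : (A → ZMod 2) → Pt n, φ (c x + g) := by
          rw [Finset.sum_congr rfl fun g _ => h1 g, Finset.sum_const, Finset.card_univ,
            nsmul_eq_mul, card_pt]
      _ = ∑ c : (A → ZMod 2) → Pt n, ∑ g : Pt n, φ (c x + g) := Finset.sum_comm
      _ = _ := by
          rw [Finset.sum_congr rfl fun c _ => sum_shift (c x) φ, Finset.sum_const,
            Finset.card_univ, nsmul_eq_mul]
  have h3 : (2 : ℝ) ^ n ≠ 0 := by positivity
  rw [avg_univ, eq_div_iff h3, inv_mul_eq_div, div_mul_eq_mul_div, div_eq_iff card_ne]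
  linarith

/-- the labels of two different points are independent -/
theorem avg_two (x x' : A → ZMod 2) (h : x ≠ x') (φ ψ : Pt n → ℝ) :
    avgL Finset.univ (fun c : (A → ZMod 2) → Pt n => φ (c x) * ψ (c x')) =
      (∑ g, φ g) / 2 ^ n * ((∑ g, ψ g) / 2 ^ n) := by
  classical
  have h1 : ∀ g g' : Pt n, ∑ c : (A → ZMod 2) → Pt n, φ (c x + g) * ψ (c x' + g') =
      ∑ c : (A → ZMod 2) → Pt n, φ (c x) * ψ (c x') := by
    intro g g'
    have h2 := Equiv.sum_comp (Equiv.addRight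
      (Function.update (fun _ => g') x g : (A → ZMod 2) → Pt n)) (fun c => φ (c x) * ψ (c x'))
    rw [← h2]
    refine Finset.sum_congr rfl fun c _ => ?_
    simp only [Equiv.coe_addRight, Pi.add_apply, Function.update_self,
      Function.update_of_ne h.symm]
  have h2 : (2 : ℝ) ^ n * ((2 : ℝ) ^ n *
      ∑ c : (A → ZMod 2) → Pt n, φ (c x) * ψ (c x')) =
      (Fintype.card ((A → ZMod 2) → Pt n) : ℝ) * ((∑ g, φ g) * ∑ g, ψ g) := by
    calc (2 : ℝ) ^ n * ((2 : ℝ) ^ n * ∑ c : (A → ZMod 2) → Pt n, φ (c x) * ψ (c x'))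
        = ∑ g : Pt n, ∑ g' : Pt n,
            ∑ c : (A → ZMod 2) → Pt n, φ (c x + g) * ψ (c x' + g') := by
          rw [Finset.sum_congr rfl fun g _ => Finset.sum_congr rfl fun g' _ => h1 g g']
          simp only [Finset.sum_const, Finset.card_univ, nsmul_eq_mul, card_pt]
      _ = ∑ c : (A → ZMod 2) → Pt n,
            ∑ g : Pt n, ∑ g' : Pt n, φ (c x + g) * ψ (c x' + g') := by
          rw [Finset.sum_congr rfl fun g _ => Finset.sum_comm, Finset.sum_comm]
      _ = ∑ c : (A → ZMod 2) → Pt n, (∑ g, φ g) * ∑ g, ψ g := by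
          refine Finset.sum_congr rfl fun c _ => ?_
          rw [← Finset.sum_mul_sum, sum_shift (c x) φ, sum_shift (c x') ψ]
      _ = _ := by
          rw [Finset.sum_const, Finset.card_univ, nsmul_eq_mul]
  have h3 : (2 : ℝ) ^ n ≠ 0 := by positivity
  rw [avg_univ, div_mul_div_comm, eq_div_iff (mul_ne_zero h3 h3), inv_mul_eq_div,
    div_mul_eq_mul_div, div_eq_iff card_ne]
  linarith

theorem pt_eq_add (a b d : Pt n) : a = b + d ↔ b = a + d := by
  constructor
  · rintro rfl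
    rw [add_assoc, pt_add_self, add_zero]
  · rintro rfl
    rw [add_assoc, pt_add_self, add_zero]

theorem eqs_symm (x x' : A → ZMod 2) (d : Pt n) : eqs x x' d = eqs x' x d := by
  classical
  ext c
  simp only [eqs, Finset.mem_filter, Finset.mem_univ, true_and]
  exact pt_eq_add _ _ _

/-- the kernel of the pair law -/
noncomputable def kk (K : Code n A β) (j : ℕ) (x x' : A → ZMod 2) (g g' : Pt n) : ℝ :=
  ker j (rho ((x + K.cd g) + (x' + K.cd g')) ^ 2)

/-- the total weight of the kernel -/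
noncomputable def tot (K : Code n A β) (j : ℕ) (x x' : A → ZMod 2) : ℝ :=
  ∑ d : Pt n, ker j (rho (x + x' + K.cd d) ^ 2)

theorem kk_eq (K : Code n A β) (j : ℕ) (x x' : A → ZMod 2) (g g' : Pt n) :
    kk K j x x' g g' = ker j (rho (x + x' + K.cd (g + g')) ^ 2) := by
  rw [kk, K.add]
  congr 3
  abel

theorem kk_nonneg (K : Code n A β) (j : ℕ) (x x' : A → ZMod 2) (g g' : Pt n) :
    0 ≤ kk K j x x' g g' := ker_nonneg j _ (sq_nonneg _)

theorem sum_kk_right (K : Code n A β) (j : ℕ) (x x' : A → ZMod 2) (g : Pt n) :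
    ∑ g', kk K j x x' g g' = tot K j x x' := by
  rw [tot, ← sum_shift g (fun d => ker j (rho (x + x' + K.cd d) ^ 2))]
  exact Finset.sum_congr rfl fun g' _ => kk_eq K j x x' g g'

theorem sum_kk_left (K : Code n A β) (j : ℕ) (x x' : A → ZMod 2) (g' : Pt n) :
    ∑ g, kk K j x x' g g' = tot K j x x' := by
  rw [tot, ← sum_shift g' (fun d => ker j (rho (x + x' + K.cd d) ^ 2))]
  exact Finset.sum_congr rfl fun g _ => by rw [kk_eq K j x x' g g', add_comm g g']

/-- the average of a product over the labelings with a given difference -/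
theorem avg_eqs (x x' : A → ZMod 2) (h : x ≠ x') (d : Pt n) (φ ψ : Pt n → ℝ) :
    avgL (eqs x x' d) (fun c => φ (c x) * ψ (c x')) = (∑ g', φ (g' + d) * ψ g') / 2 ^ n := by
  classical
  have h1 : avgL (eqs x x' d) (fun c => φ (c x) * ψ (c x')) =
      avgL (eqs x x' d) (fun c => φ (c x' + d) * ψ (c x')) := by
    rw [avgL_apply, avgL_apply]
    congr 1
    refine Finset.sum_congr rfl fun c hc => ?_
    have h2 : c x = c x' + d := by
      simpa only [eqs, Finset.mem_filter, Finset.mem_univ, true_and] using hc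
    rw [h2]
  rw [h1, eqs_symm, eqs_avg x' x h.symm d (fun c => φ (c x' + d) * ψ (c x'))]
  · exact avg_one x' (fun g => φ (g + d) * ψ g)
  · intro a b hab
    have h3 : a x' = b x' := hab x' rfl
    simp only [h3]

/-- the formula of the pair law -/
theorem pair_formula (K : Code n A β) (κ : ℝ) (j : ℕ) (x x' : A → ZMod 2) (h : x ≠ x')
    (H : (A → ZMod 2) → Pt n → ℝ) :
    pairK K κ j x x' (fun c : (A → ZMod 2) → Pt n => H x (c x) * H x' (c x')) =
      (1 - κ) * (∑ g, ∑ g', kk K j x x' g g' * (H x g * H x' g')) / 2 ^ n +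
        (1 - (1 - κ) * tot K j x x') *
          ((∑ g, H x g) / 2 ^ n * ((∑ g, H x' g) / 2 ^ n)) := by
  classical
  rw [pair_apply K κ j x x' h, avg_two x x' h (H x) (H x')]
  simp only [avg_eqs x x' h _ (H x) (H x')]
  have h1 : ∀ g' : Pt n, ∑ g, kk K j x x' g g' * (H x g * H x' g') =
      ∑ d, ker j (rho (x + x' + K.cd d) ^ 2) * (H x (g' + d) * H x' g') := by
    intro g'
    rw [← sum_shift g' (fun g => kk K j x x' g g' * (H x g * H x' g'))]
    refine Finset.sum_congr rfl fun d _ => ?_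
    have h2 : g' + d + g' = d := by
      rw [add_comm g' d, add_assoc, pt_add_self, add_zero]
    rw [kk_eq, h2]
  have h3 : ∑ g, ∑ g', kk K j x x' g g' * (H x g * H x' g') =
      ∑ d, ker j (rho (x + x' + K.cd d) ^ 2) * ∑ g', H x (g' + d) * H x' g' := by
    rw [Finset.sum_comm, Finset.sum_congr rfl fun g' _ => h1 g', Finset.sum_comm]
    exact Finset.sum_congr rfl fun d _ => (Finset.mul_sum _ _ _).symm
  rw [h3]
  have h4 : ∑ d : Pt n, kd K κ j x x' d * ((∑ g', H x (g' + d) * H x' g') / 2 ^ n -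
      (∑ g, H x g) / 2 ^ n * ((∑ g, H x' g) / 2 ^ n)) =
      (1 - κ) * (∑ d, ker j (rho (x + x' + K.cd d) ^ 2) * ∑ g', H x (g' + d) * H x' g') / 2 ^ n -
        (1 - κ) * tot K j x x' * ((∑ g, H x g) / 2 ^ n * ((∑ g, H x' g) / 2 ^ n)) := by
    set mm := (∑ g, H x g) / 2 ^ n * ((∑ g, H x' g) / 2 ^ n)
    have e1 : (1 - κ) * (∑ d, ker j (rho (x + x' + K.cd d) ^ 2) *
        ∑ g', H x (g' + d) * H x' g') / 2 ^ n = ∑ d : Pt n, (1 - κ) *
          (ker j (rho (x + x' + K.cd d) ^ 2) * ∑ g', H x (g' + d) * H x' g') / 2 ^ n := by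
      rw [Finset.mul_sum, Finset.sum_div]
    have e2 : (1 - κ) * tot K j x x' * mm =
        ∑ d : Pt n, (1 - κ) * ker j (rho (x + x' + K.cd d) ^ 2) * mm := by
      rw [tot, Finset.mul_sum, Finset.sum_mul]
    rw [e1, e2, ← Finset.sum_sub_distrib]
    refine Finset.sum_congr rfl fun d _ => ?_
    rw [kd]
    ring
  rw [h4]
  ring

/-- the centred formula of the pair law -/
theorem pair_centred (K : Code n A β) (κ : ℝ) (j : ℕ) (x x' : A → ZMod 2) (h : x ≠ x')
    (H : (A → ZMod 2) → Pt n → ℝ) :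
    pairK K κ j x x' (fun c : (A → ZMod 2) → Pt n => H x (c x) * H x' (c x')) =
      (1 - κ) * (∑ g, ∑ g', (H x g - (∑ a, H x a) / 2 ^ n) *
        (H x' g' - (∑ a, H x' a) / 2 ^ n) * kk K j x x' g g') / 2 ^ n +
        (∑ g, H x g) / 2 ^ n * ((∑ g, H x' g) / 2 ^ n) := by
  rw [pair_formula K κ j x x' h H]
  set m := (∑ a, H x a) / 2 ^ n with hm
  set m' := (∑ a, H x' a) / 2 ^ n with hm'
  have hK : (2 : ℝ) ^ n ≠ 0 := by positivity
  have e1 : ∑ a, H x a = m * 2 ^ n := by rw [hm, div_mul_cancel₀ _ hK]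
  have e2 : ∑ a, H x' a = m' * 2 ^ n := by rw [hm', div_mul_cancel₀ _ hK]
  have h1 : ∑ g, ∑ g', (H x g - m) * (H x' g' - m') * kk K j x x' g g' =
      ∑ g, ∑ g', kk K j x x' g g' * (H x g * H x' g') -
        m' * ∑ g, H x g * ∑ g', kk K j x x' g g' -
        m * ∑ g', H x' g' * ∑ g, kk K j x x' g g' +
        m * m' * ∑ g, ∑ g', kk K j x x' g g' := by
    have h2 : ∑ g', H x' g' * ∑ g, kk K j x x' g g' =
        ∑ g, ∑ g', H x' g' * kk K j x x' g g' := by
      rw [Finset.sum_comm]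
      exact Finset.sum_congr rfl fun g' _ => Finset.mul_sum _ _ _
    rw [h2]
    simp only [Finset.mul_sum, ← Finset.sum_sub_distrib, ← Finset.sum_add_distrib]
    refine Finset.sum_congr rfl fun g _ => Finset.sum_congr rfl fun g' _ => ?_
    ring
  rw [h1]
  simp only [sum_kk_right, sum_kk_left, ← Finset.sum_mul, Finset.sum_const, Finset.card_univ,
    nsmul_eq_mul, card_pt]
  rw [e1, e2]
  field_simp
  ring

/-- the quadratic form of the kernel of one point -/
theorem self_le (K : Code n A β) (hβ : 0 < β) (hβ1 : β < 1 / 4) (κ : ℝ) (h1 : κ ≤ 1) (j : ℕ)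
    (hj : 2 ≤ j) (hs : sig n j β ≤ κ) (x : A → ZMod 2) (G : Pt n → ℝ) :
    (1 - κ) * (∑ g, ∑ g', G g * G g' * kk K j x x g g') ≤ ∑ g, G g ^ 2 := by
  classical
  have hκ : 0 ≤ κ := (sig_nonneg n j β hβ).trans hs
  have hN : (0 : ℝ) < 2 ^ n := by positivity
  have hkk : ∀ g g' : Pt n, g ≠ g' → kk K j x x g g' ≤ κ / 2 ^ n := by
    intro g g' hne
    rw [kk_eq, fun_add_self, zero_add, le_div_iff₀ hN, mul_comm]
    refine (ker_self_le K hβ hβ1 j hj (g + g') ?_).trans hs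
    intro h5
    apply hne
    have h6 := (pt_eq_add 0 g g').1 h5.symm
    rw [zero_add] at h6
    exact h6
  have hone : ∀ g : Pt n, kk K j x x g g = 1 := by
    intro g
    rw [kk_eq, fun_add_self, zero_add, pt_add_self, cd_zero, rho_zero, one_pow, ker_one]
  have hterm : ∀ g g' : Pt n, G g * G g' * kk K j x x g g' ≤
      (if g = g' then G g ^ 2 else 0) + κ / 2 ^ n * (|G g| * |G g'|) := by
    intro g g'
    have ha : 0 ≤ |G g| * |G g'| := mul_nonneg (abs_nonneg _) (abs_nonneg _)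
    by_cases hg : g = g'
    · subst hg
      rw [if_pos rfl, hone, mul_one, ← sq]
      have : 0 ≤ κ / 2 ^ n * (|G g| * |G g|) := mul_nonneg (div_nonneg hκ hN.le) ha
      linarith
    · rw [if_neg hg, zero_add]
      calc G g * G g' * kk K j x x g g' ≤ |G g| * |G g'| * kk K j x x g g' := by
            refine mul_le_mul_of_nonneg_right ?_ (kk_nonneg K j x x g g')
            rw [← abs_mul]
            exact le_abs_self _
        _ ≤ |G g| * |G g'| * (κ / 2 ^ n) := mul_le_mul_of_nonneg_left (hkk g g' hg) ha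
        _ = _ := by ring
  have hsum : ∑ g, ∑ g', G g * G g' * kk K j x x g g' ≤ (1 + κ) * ∑ g, G g ^ 2 := by
    calc ∑ g, ∑ g', G g * G g' * kk K j x x g g'
        ≤ ∑ g, ∑ g', ((if g = g' then G g ^ 2 else 0) + κ / 2 ^ n * (|G g| * |G g'|)) :=
          Finset.sum_le_sum fun g _ => Finset.sum_le_sum fun g' _ => hterm g g'
      _ = ∑ g, G g ^ 2 + κ / 2 ^ n * (∑ g, |G g|) ^ 2 := by
          simp only [Finset.sum_add_distrib, Finset.sum_ite_eq, Finset.mem_univ, if_true]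
          congr 1
          rw [sq, Finset.sum_mul_sum, Finset.mul_sum]
          exact Finset.sum_congr rfl fun g _ => (Finset.mul_sum _ _ _).symm
      _ ≤ ∑ g, G g ^ 2 + κ / 2 ^ n * (2 ^ n * ∑ g, G g ^ 2) := by
          have hcs : (∑ g, |G g|) ^ 2 ≤ 2 ^ n * ∑ g, G g ^ 2 := by
            have := sq_sum_le_card_mul_sum_sq (s := (Finset.univ : Finset (Pt n)))
              (f := fun g => |G g|)
            rw [Finset.card_univ, card_pt] at this
            simpa only [sq_abs] using this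
          have := mul_le_mul_of_nonneg_left hcs (div_nonneg hκ hN.le)
          linarith
      _ = _ := by
          field_simp
  have hG : 0 ≤ ∑ g, G g ^ 2 := Finset.sum_nonneg fun g _ => sq_nonneg _
  have h2 : (1 - κ) * (∑ g, ∑ g', G g * G g' * kk K j x x g g') ≤
      (1 - κ) * ((1 + κ) * ∑ g, G g ^ 2) := mul_le_mul_of_nonneg_left hsum (by linarith)
  nlinarith [mul_nonneg (sq_nonneg κ) hG]

theorem self_ge (K : Code n A β) (hβ : 0 < β) (hβ1 : β < 1 / 4) (κ : ℝ) (h1 : κ ≤ 1) (j : ℕ)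
    (hj : 2 ≤ j) (hs : sig n j β ≤ κ) (x x' : A → ZMod 2) (H : (A → ZMod 2) → Pt n → ℝ) :
    (1 - κ) * (∑ g, ∑ g', (H x g - (∑ a, H x a) / 2 ^ n) *
        (H x' g' - (∑ a, H x' a) / 2 ^ n) * kk K j x x' g g') / 2 ^ n +
        (∑ g, H x g) / 2 ^ n * ((∑ g, H x' g) / 2 ^ n) ≤
      pairK K κ j x x' (fun c : (A → ZMod 2) → Pt n => H x (c x) * H x' (c x')) := by
  by_cases h : x = x'
  · subst h
    rw [pair_self, avg_one x (fun g => H x g * H x g)]
    have hN : (0 : ℝ) < 2 ^ n := by positivity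
    set m := (∑ a, H x a) / 2 ^ n with hm
    have e1 : ∑ a, H x a = m * 2 ^ n := by rw [hm, div_mul_cancel₀ _ hN.ne']
    have h2 := self_le K hβ hβ1 κ h1 j hj hs x (fun g => H x g - m)
    have h3 : ∑ g : Pt n, (H x g - m) ^ 2 = ∑ g, H x g * H x g - m ^ 2 * 2 ^ n := by
      have h4 : ∀ g : Pt n, (H x g - m) ^ 2 = H x g * H x g - 2 * m * H x g + m ^ 2 :=
        fun g => by ring
      rw [Finset.sum_congr rfl fun g _ => h4 g, Finset.sum_add_distrib, Finset.sum_sub_distrib,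
        ← Finset.mul_sum, e1, Finset.sum_const, Finset.card_univ, nsmul_eq_mul, card_pt]
      ring
    rw [h3] at h2
    have h5 := div_le_div_of_nonneg_right h2 hN.le
    have h6 : (∑ g : Pt n, H x g * H x g - m ^ 2 * 2 ^ n) / 2 ^ n =
        (∑ g : Pt n, H x g * H x g) / 2 ^ n - m * m := by
      field_simp
    rw [h6] at h5
    linarith
  · exact (pair_centred K κ j x x' h H).ge

end PairPAux

theorem PairPAux.gram_pow {I : Type} [Fintype I] (f : I → A → ZMod 2) (g : I → ℝ) (m : ℕ) :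
    0 ≤ ∑ i, ∑ j, g i * g j * rho (f i + f j) ^ m := by
  have h1 : ∀ i j, g i * g j * rho (f i + f j) ^ m = (((Fintype.card A : ℝ)) ^ m)⁻¹ *
      ∑ p : Fin m → A, (g i * ∏ k, Pool.Agent.Lib.P325x.sg (f i (p k))) *
        (g j * ∏ k, Pool.Agent.Lib.P325x.sg (f j (p k))) := by
    intro i j
    rw [PairPAux.rho_add_eq, div_pow, Fintype.sum_pow, div_eq_inv_mul, Finset.mul_sum,
      Finset.mul_sum, Finset.mul_sum]
    refine Finset.sum_congr rfl fun p _ => ?_
    rw [Finset.prod_mul_distrib]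
    ring
  rw [Finset.sum_congr rfl fun i _ => Finset.sum_congr rfl fun j _ => h1 i j]
  simp_rw [← Finset.mul_sum]
  rw [PairPAux.gram_sq (fun (i : I) (p : Fin m → A) =>
    g i * ∏ k, Pool.Agent.Lib.P325x.sg (f i (p k)))]
  exact mul_nonneg (by positivity) (Finset.sum_nonneg fun p _ => sq_nonneg _)

theorem gram_ker {I : Type} [Fintype I] (j : ℕ) (f : I → A → ZMod 2) (g : I → ℝ) :
    0 ≤ ∑ i, ∑ i', g i * g i' * ker j (rho (f i + f i') ^ 2) := by
  obtain ⟨w, hw, hs⟩ := ker_sum j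
  have h1 : ∑ i, ∑ i', g i * g i' * ker j (rho (f i + f i') ^ 2) =
      ∑ l ∈ Finset.range (4 * j + 1), w l *
        ∑ i, ∑ i', g i * g i' * rho (f i + f i') ^ (2 * l) := by
    symm
    simp only [Finset.mul_sum]
    rw [Finset.sum_comm]
    refine Finset.sum_congr rfl fun i _ => ?_
    rw [Finset.sum_comm]
    refine Finset.sum_congr rfl fun i' _ => ?_
    rw [hs, Finset.mul_sum]
    refine Finset.sum_congr rfl fun l _ => ?_
    rw [pow_mul]
    ring
  rw [h1]
  exact Finset.sum_nonneg fun l _ => mul_nonneg (hw l) (PairPAux.gram_pow f g _)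

theorem pair_psd (K : Code n A β) (hβ : 0 < β) (hβ1 : β < 1 / 4) (κ : ℝ) (h1 : κ ≤ 1) (j : ℕ)
    (hj : 2 ≤ j) (hs : sig n j β ≤ κ) (c0 : ℝ) (H : (A → ZMod 2) → Pt n → ℝ) :
    0 ≤ c0 ^ 2 + 2 * c0 * ∑ x, avgL Finset.univ (fun c : (A → ZMod 2) → Pt n => H x (c x)) +
      ∑ x, ∑ x', pairK K κ j x x' (fun c : (A → ZMod 2) → Pt n => H x (c x) * H x' (c x')) := by
  have e1 : ∑ x, avgL Finset.univ (fun c : (A → ZMod 2) → Pt n => H x (c x)) =
      ∑ x, (∑ g, H x g) / 2 ^ n :=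
    Finset.sum_congr rfl fun x _ => PairPAux.avg_one x (H x)
  have h2 : (1 - κ) * (∑ x, ∑ x', ∑ g, ∑ g', (H x g - (∑ a, H x a) / 2 ^ n) *
        (H x' g' - (∑ a, H x' a) / 2 ^ n) * PairPAux.kk K j x x' g g') / 2 ^ n +
        (∑ x, (∑ g, H x g) / 2 ^ n) ^ 2 ≤
      ∑ x, ∑ x', pairK K κ j x x'
        (fun c : (A → ZMod 2) → Pt n => H x (c x) * H x' (c x')) := by
    rw [sq, Finset.sum_mul_sum, Finset.mul_sum, Finset.sum_div, ← Finset.sum_add_distrib]
    refine Finset.sum_le_sum fun x _ => ?_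
    rw [Finset.mul_sum, Finset.sum_div, ← Finset.sum_add_distrib]
    exact Finset.sum_le_sum fun x' _ => PairPAux.self_ge K hβ hβ1 κ h1 j hj hs x x' H
  have h3 : ∑ x : A → ZMod 2, ∑ x', ∑ g, ∑ g', (H x g - (∑ a, H x a) / 2 ^ n) *
        (H x' g' - (∑ a, H x' a) / 2 ^ n) * PairPAux.kk K j x x' g g' =
      ∑ p : (A → ZMod 2) × Pt n, ∑ p' : (A → ZMod 2) × Pt n,
        (H p.1 p.2 - (∑ a, H p.1 a) / 2 ^ n) *
        (H p'.1 p'.2 - (∑ a, H p'.1 a) / 2 ^ n) *
          ker j (rho ((p.1 + K.cd p.2) + (p'.1 + K.cd p'.2)) ^ 2) := by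
    rw [Fintype.sum_prod_type]
    refine Finset.sum_congr rfl fun x _ => ?_
    rw [Finset.sum_comm]
    refine Finset.sum_congr rfl fun g _ => ?_
    rw [Fintype.sum_prod_type]
    rfl
  have h4 := gram_ker j (fun p : (A → ZMod 2) × Pt n => p.1 + K.cd p.2)
    (fun p => H p.1 p.2 - (∑ a, H p.1 a) / 2 ^ n)
  rw [e1]
  rw [h3] at h2
  have h5 : (0 : ℝ) < 2 ^ n := by positivity
  have h6 := div_nonneg (mul_nonneg (sub_nonneg.2 h1) h4) h5.le
  nlinarith [sq_nonneg (c0 + ∑ x, (∑ g, H x g) / 2 ^ n)]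

end Pool.Agent.Lib.P325rm
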