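import Pool.Agent.Lib.P325rm.Defs

/-!
Module Ker (1.5h). The kernel with the low order terms removed. T = 4 j.
PROOF. Write w_i = C(4j, i) / 2^(4j), u(s) = ((1+s)/2)^(4j) = ∑_{i <= 4j} w_i s^i (add_pow), p = ∑_{i < j} w_i,
r(s) = ∑_{i < j} w_i s^i, so ker j s = (u - r)/(1 - p) (split range (4j+1) into range j and Icc j (4j)).
tail: p <= (16/27)^j: for i <= j: 1 <= 3^(j-i), so ∑_{i<j} C(4j,i) <= 3^j ∑_i C(4j,i) (1/3)^i = 3^j (4/3)^(4j) = (256/27)^j,
divided by 16^j. p <= 1/2 (j >= 2: (16/27)^2 < 1/2). 0 <= r <= p, r <= u, 0 <= s <= 1, u <= 1.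
ker_close: |ker - u| = |u p - r|/(1-p) <= p/(1-p) <= 2p. ker_le_two: ker <= u/(1-p) <= 2u.
ker_le_pow: s^i <= s^j for i >= j. ker_lin: u = (1 - (1-s)/2)^(4j) >= 1 - 4j (1-s)/2 (one_add_mul_le_pow) and ker_close.
ker_sum: w'_i = the normalised binomials for i in Icc j (4j), 0 else.
-/

open scoped BigOperators

namespace Pool.Agent.Lib.P325rm

namespace KerAux

/-- The normalising constant. -/
noncomputable def Z (j : ℕ) : ℝ := ∑ i ∈ Finset.Icc j (4 * j), ((4 * j).choose i : ℝ)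

/-- The sum of the removed terms. -/
noncomputable def R (j : ℕ) (s : ℝ) : ℝ := ∑ i ∈ Finset.range j, ((4 * j).choose i : ℝ) * s ^ i

/-- The sum of the kept terms. -/
noncomputable def N (j : ℕ) (s : ℝ) : ℝ :=
  ∑ i ∈ Finset.Icc j (4 * j), ((4 * j).choose i : ℝ) * s ^ i

theorem ker_eq (j : ℕ) (s : ℝ) : ker j s = N j s / Z j := rfl

theorem N_one (j : ℕ) : N j 1 = Z j := by
  unfold N Z
  exact Finset.sum_congr rfl fun i _ => by rw [one_pow, mul_one]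

theorem add_eq (j : ℕ) (s : ℝ) : R j s + N j s = (1 + s) ^ (4 * j) := by
  have h1 : (1 + s) ^ (4 * j) = ∑ i ∈ Finset.range (4 * j + 1), ((4 * j).choose i : ℝ) * s ^ i := by
    rw [add_comm, add_pow]
    exact Finset.sum_congr rfl fun i _ => by rw [one_pow, mul_one, mul_comm]
  have h2 : Finset.Icc j (4 * j) = Finset.Ico j (4 * j + 1) := by
    ext i
    simp only [Finset.mem_Icc, Finset.mem_Ico]
    omega
  rw [h1, R, N, h2]
  exact Finset.sum_range_add_sum_Ico _ (by omega)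

theorem Z_pos (j : ℕ) : 0 < Z j := by
  unfold Z
  refine Finset.sum_pos' (fun i _ => Nat.cast_nonneg _) ⟨4 * j, ?_, ?_⟩
  · exact Finset.mem_Icc.2 ⟨by omega, le_rfl⟩
  · rw [Nat.choose_self]
    norm_num

theorem R_nonneg (j : ℕ) (s : ℝ) (hs : 0 ≤ s) : 0 ≤ R j s :=
  Finset.sum_nonneg fun _ _ => mul_nonneg (Nat.cast_nonneg _) (pow_nonneg hs _)

theorem N_nonneg (j : ℕ) (s : ℝ) (hs : 0 ≤ s) : 0 ≤ N j s :=
  Finset.sum_nonneg fun _ _ => mul_nonneg (Nat.cast_nonneg _) (pow_nonneg hs _)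

theorem R_le (j : ℕ) (s : ℝ) (hs : 0 ≤ s) (hs1 : s ≤ 1) : R j s ≤ R j 1 :=
  Finset.sum_le_sum fun i _ => mul_le_mul_of_nonneg_left
    (pow_le_pow_left₀ hs hs1 i) (Nat.cast_nonneg _)

theorem tail (j : ℕ) : R j 1 ≤ 2 ^ (4 * j) * (16 / 27) ^ j := by
  have h1 : R j 1 ≤ 3 ^ j * (R j (1 / 3) + N j (1 / 3)) := by
    have h2 : R j 1 ≤ 3 ^ j * R j (1 / 3) := by
      unfold R
      rw [Finset.mul_sum]
      refine Finset.sum_le_sum fun i hi => ?_
      have hi' : i ≤ j := (Finset.mem_range.1 hi).le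
      have h3 : (1 : ℝ) ≤ 3 ^ j * (1 / 3) ^ i := by
        obtain ⟨k, rfl⟩ := Nat.exists_eq_add_of_le hi'
        rw [pow_add, one_div, inv_pow]
        have h4 : (3 : ℝ) ^ i * 3 ^ k * ((3 : ℝ) ^ i)⁻¹ = 3 ^ k := by
          field_simp
        rw [h4]
        exact one_le_pow₀ (by norm_num)
      have h5 : (0 : ℝ) ≤ ((4 * j).choose i : ℝ) := Nat.cast_nonneg _
      calc ((4 * j).choose i : ℝ) * 1 ^ i = ((4 * j).choose i : ℝ) * 1 := by rw [one_pow]
        _ ≤ ((4 * j).choose i : ℝ) * (3 ^ j * (1 / 3) ^ i) := mul_le_mul_of_nonneg_left h3 h5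
        _ = 3 ^ j * (((4 * j).choose i : ℝ) * (1 / 3) ^ i) := by ring
    refine h2.trans (mul_le_mul_of_nonneg_left ?_ (by positivity))
    linarith [N_nonneg j (1 / 3) (by norm_num)]
  refine h1.trans (le_of_eq ?_)
  rw [add_eq, pow_mul, pow_mul, ← mul_pow, ← mul_pow]
  norm_num

theorem small (j : ℕ) (hj : 2 ≤ j) : ((16 : ℝ) / 27) ^ j ≤ 1 / 2 := by
  refine (pow_le_pow_of_le_one (by norm_num) (by norm_num) hj).trans ?_
  norm_num

theorem Z_eq (j : ℕ) : R j 1 + Z j = 2 ^ (4 * j) := by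
  rw [← N_one, add_eq]
  norm_num

theorem Z_ge (j : ℕ) (hj : 2 ≤ j) : 2 ^ (4 * j) / 2 ≤ Z j := by
  have h1 := Z_eq j
  have h2 := tail j
  have h3 := small j hj
  have h4 : (0 : ℝ) < 2 ^ (4 * j) := by positivity
  nlinarith

theorem u_eq (j : ℕ) (s : ℝ) : (1 + s) ^ (4 * j) = 2 ^ (4 * j) * ((1 + s) / 2) ^ (4 * j) := by
  rw [div_pow]
  field_simp

end KerAux

open KerAux

theorem ker_zero (j : ℕ) (hj : 1 ≤ j) : ker j 0 = 0 := by
  rw [ker_eq]
  have h : N j 0 = 0 := by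
    unfold N
    refine Finset.sum_eq_zero fun i hi => ?_
    have := (Finset.mem_Icc.1 hi).1
    rw [zero_pow (by omega), mul_zero]
  rw [h, zero_div]

theorem ker_one (j : ℕ) : ker j 1 = 1 := by
  rw [ker_eq, N_one]
  exact div_self (Z_pos j).ne'

theorem ker_nonneg (j : ℕ) (s : ℝ) (hs : 0 ≤ s) : 0 ≤ ker j s :=
  div_nonneg (N_nonneg j s hs) (Z_pos j).le

theorem ker_le_pow (j : ℕ) (s : ℝ) (hs : 0 ≤ s) (hs1 : s ≤ 1) : ker j s ≤ s ^ j := by
  rw [ker_eq, div_le_iff₀ (Z_pos j)]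
  unfold N Z
  rw [Finset.mul_sum]
  refine Finset.sum_le_sum fun i hi => ?_
  rw [mul_comm]
  exact mul_le_mul_of_nonneg_right (pow_le_pow_of_le_one hs hs1 (Finset.mem_Icc.1 hi).1)
    (Nat.cast_nonneg _)

theorem ker_mono (j : ℕ) (s s' : ℝ) (hs : 0 ≤ s) (h : s ≤ s') : ker j s ≤ ker j s' := by
  rw [ker_eq, ker_eq]
  refine div_le_div_of_nonneg_right ?_ (Z_pos j).le
  exact Finset.sum_le_sum fun i _ => mul_le_mul_of_nonneg_left
    (pow_le_pow_left₀ hs h i) (Nat.cast_nonneg _)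

theorem ker_le_two (j : ℕ) (hj : 2 ≤ j) (s : ℝ) (hs : 0 ≤ s) :
    ker j s ≤ 2 * ((1 + s) / 2) ^ (4 * j) := by
  rw [ker_eq, div_le_iff₀ (Z_pos j)]
  have h1 := add_eq j s
  have h2 := R_nonneg j s hs
  have h3 := Z_ge j hj
  have h4 := u_eq j s
  have h5 : 0 ≤ ((1 + s) / 2) ^ (4 * j) := by positivity
  nlinarith

theorem ker_close (j : ℕ) (hj : 2 ≤ j) (s : ℝ) (hs : 0 ≤ s) (hs1 : s ≤ 1) :
    |ker j s - ((1 + s) / 2) ^ (4 * j)| ≤ 2 * (16 / 27) ^ j := by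
  have hZ := Z_pos j
  set u : ℝ := ((1 + s) / 2) ^ (4 * j) with hu
  have hu0 : 0 ≤ u := by positivity
  have hu1 : u ≤ 1 := pow_le_one₀ (by linarith) (by linarith)
  have h1 := add_eq j s
  have h4 := u_eq j s
  rw [← hu] at h4
  have h5 := Z_eq j
  have h6 := R_nonneg j s hs
  have h7 := R_le j s hs hs1
  have h8 := tail j
  have h9 := Z_ge j hj
  have h10 : ker j s - u = (u * R j 1 - R j s) / Z j := by
    rw [ker_eq, eq_div_iff hZ.ne', sub_mul, div_mul_cancel₀ _ hZ.ne']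
    have e1 : N j s = 2 ^ (4 * j) * u - R j s := by linarith
    have e2 : Z j = 2 ^ (4 * j) - R j 1 := by linarith
    rw [e1, e2]
    ring
  rw [h10, abs_div, abs_of_pos hZ, div_le_iff₀ hZ]
  have hR1 : 0 ≤ R j 1 := R_nonneg j 1 zero_le_one
  have h11 : |u * R j 1 - R j s| ≤ R j 1 := by
    rw [abs_le]
    constructor <;> nlinarith
  refine h11.trans (h8.trans ?_)
  have h12 : (0 : ℝ) ≤ (16 / 27) ^ j := by positivity
  nlinarith

theorem ker_lin (j : ℕ) (hj : 2 ≤ j) (s : ℝ) (hs : 0 ≤ s) (hs1 : s ≤ 1) :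
    1 - 2 * j * (1 - s) - 2 * (16 / 27) ^ j ≤ ker j s := by
  have h1 := (abs_le.1 (ker_close j hj s hs hs1)).1
  have h2 := one_add_mul_le_pow (a := -((1 - s) / 2)) (by linarith) (4 * j)
  have h3 : 1 + -((1 - s) / 2) = (1 + s) / 2 := by ring
  rw [h3] at h2
  push_cast at h2
  linarith

theorem ker_sum (j : ℕ) : ∃ w : ℕ → ℝ, (∀ i, 0 ≤ w i) ∧
    ∀ s, ker j s = ∑ i ∈ Finset.range (4 * j + 1), w i * s ^ i := by
  classical
  refine ⟨fun i => if j ≤ i then ((4 * j).choose i : ℝ) / Z j else 0, fun i => ?_, fun s => ?_⟩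
  · beta_reduce
    split_ifs
    · exact div_nonneg (Nat.cast_nonneg _) (Z_pos j).le
    · exact le_rfl
  · rw [ker_eq, N, Finset.sum_div]
    have h2 : Finset.Icc j (4 * j) = (Finset.range (4 * j + 1)).filter (fun i => j ≤ i) := by
      ext i
      simp only [Finset.mem_Icc, Finset.mem_filter, Finset.mem_range]
      omega
    rw [h2, Finset.sum_filter]
    refine Finset.sum_congr rfl fun i _ => ?_
    beta_reduce
    split_ifs
    · ring
    · rw [zero_mul]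

end Pool.Agent.Lib.P325rm
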