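import Pool.Agent.Lib.P325rm.Rho
import Pool.Agent.Lib.P325rm.Ker

/-!
Module KSum (1h; black boxes Rho (sum_sq), Ker). The sum of the kernel over the labels that are not close.
PROOF. Let ρ_d = rho (f + cd d), ρ_d^2 <= 9/16 for d ≠ d0. D = the d ≠ d0 with ρ_d^2 >= 2 β: 2 β |D| <= ∑_D ρ_d^2 <=
1 + β |D|, so |D| <= 1/β; on D ker <= 2 ((1 + 9/16)/2)^(4j) = 2 (25/32)^(4j) (ker_mono, ker_le_two); sum <= (2/β)(25/32)^(4j).
For the other d ≠ d0, ker <= (ρ_d^2)^j <= (2β)^j (ker_le_pow), at most 2^n of them. ker_sum_le: if some d0 has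
|ρ_d0| >= 3/4 then the others are < 3/4 (rho_unique), else take any d0; ker (ρ_d0^2) <= ker 1 = 1.
ker_self: for d ≠ 0, ker j (rho (cd d)^2) <= (β^2)^j; sum <= 2^n β^(2j) <= 2^n (2β)^j <= sig.
-/

open scoped BigOperators

namespace Pool.Agent.Lib.P325rm

open Pool.Agent.Lib.P325x (Pt)

variable {n : ℕ} {A : Type} [Fintype A] [Nonempty A] {β : ℝ}

theorem sig_nonneg (n j : ℕ) (β : ℝ) (hβ : 0 < β) : 0 ≤ sig n j β := by
  unfold sig
  positivity

namespace KSumAux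

theorem card_pt (n : ℕ) : (Fintype.card (Pt n) : ℝ) = 2 ^ n := by
  have h : Fintype.card (Pt n) = 2 ^ n := by
    change Fintype.card (Fin n → ZMod 2) = 2 ^ n
    rw [Fintype.card_fun, ZMod.card, Fintype.card_fin]
  rw [h]
  push_cast
  rfl

end KSumAux

open KSumAux

theorem ker_rest (K : Code n A β) (hβ : 0 < β) (hβ1 : β < 1 / 4) (j : ℕ) (hj : 2 ≤ j)
    (f : A → ZMod 2) (d0 : Pt n) (h : ∀ d, d ≠ d0 → |rho (f + K.cd d)| ≤ 3 / 4) :
    ∑ d ∈ Finset.univ.erase d0, ker j (rho (f + K.cd d) ^ 2) ≤ sig n j β := by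
  classical
  have hs : ∀ d ∈ Finset.univ.erase d0, rho (f + K.cd d) ^ 2 ≤ 9 / 16 := by
    intro d hd
    have h1 := h d (Finset.ne_of_mem_erase hd)
    have h2 := abs_nonneg (rho (f + K.cd d))
    rw [← sq_abs]
    nlinarith
  rw [← Finset.sum_filter_add_sum_filter_not (Finset.univ.erase d0)
    (fun d => 2 * β ≤ rho (f + K.cd d) ^ 2)]
  unfold sig
  refine add_le_add ?_ ?_
  · set D := (Finset.univ.erase d0).filter (fun d => 2 * β ≤ rho (f + K.cd d) ^ 2) with hD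
    have h1 := sum_sq K hβ.le f D
    have h2 : (D.card : ℝ) * (2 * β) ≤ ∑ d ∈ D, rho (f + K.cd d) ^ 2 := by
      rw [← nsmul_eq_mul]
      exact Finset.card_nsmul_le_sum _ _ _ fun d hd => (Finset.mem_filter.1 hd).2
    have h3 : (D.card : ℝ) * β ≤ 1 := by nlinarith
    have h4 : (D.card : ℝ) ≤ 1 / β := by
      rw [le_div_iff₀ hβ]
      exact h3
    have h5 : ∑ d ∈ D, ker j (rho (f + K.cd d) ^ 2) ≤ D.card • (2 * (25 / 32 : ℝ) ^ (4 * j)) := by
      refine Finset.sum_le_card_nsmul _ _ _ fun d hd => ?_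
      have h6 := hs d (Finset.mem_filter.1 hd).1
      have h7 : ker j (rho (f + K.cd d) ^ 2) ≤ ker j (9 / 16) := ker_mono j _ _ (sq_nonneg _) h6
      refine h7.trans ((ker_le_two j hj (9 / 16) (by norm_num)).trans (le_of_eq ?_))
      norm_num
    refine h5.trans ?_
    rw [nsmul_eq_mul]
    have h8 : (0 : ℝ) ≤ 2 * (25 / 32 : ℝ) ^ (4 * j) := by positivity
    refine (mul_le_mul_of_nonneg_right h4 h8).trans (le_of_eq ?_)
    ring
  · set D := (Finset.univ.erase d0).filter (fun d => ¬ 2 * β ≤ rho (f + K.cd d) ^ 2) with hD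
    have h5 : ∑ d ∈ D, ker j (rho (f + K.cd d) ^ 2) ≤ D.card • ((2 * β) ^ j) := by
      refine Finset.sum_le_card_nsmul _ _ _ fun d hd => ?_
      have h6 := (Finset.mem_filter.1 hd).2
      refine (ker_le_pow j _ (sq_nonneg _) (rho_sq_le _)).trans ?_
      exact pow_le_pow_left₀ (sq_nonneg _) (not_le.1 h6).le j
    refine h5.trans ?_
    rw [nsmul_eq_mul, ← card_pt n]
    refine mul_le_mul_of_nonneg_right ?_ (by positivity)
    exact_mod_cast Finset.card_le_univ D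

theorem ker_sum_le (K : Code n A β) (hβ : 0 < β) (hβ1 : β < 1 / 4) (j : ℕ) (hj : 2 ≤ j)
    (f : A → ZMod 2) :
    ∑ d : Pt n, ker j (rho (f + K.cd d) ^ 2) ≤ 1 + sig n j β := by
  classical
  obtain ⟨d0, h⟩ : ∃ d0 : Pt n, ∀ d, d ≠ d0 → |rho (f + K.cd d)| ≤ 3 / 4 := by
    by_cases hex : ∃ d0 : Pt n, 3 / 4 ≤ |rho (f + K.cd d0)|
    · obtain ⟨d0, h0⟩ := hex
      refine ⟨d0, fun d hd => ?_⟩
      by_contra hlt
      exact hd (rho_unique K (by linarith) f d d0 (not_le.1 hlt).le h0)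
    · refine ⟨0, fun d _ => ?_⟩
      by_contra hlt
      exact hex ⟨d, (not_le.1 hlt).le⟩
  rw [← Finset.add_sum_erase Finset.univ _ (Finset.mem_univ d0)]
  refine add_le_add ?_ (ker_rest K hβ hβ1 j hj f d0 h)
  rw [← ker_one j]
  exact ker_mono j _ _ (sq_nonneg _) (rho_sq_le _)

theorem ker_self_le (K : Code n A β) (hβ : 0 < β) (hβ1 : β < 1 / 4) (j : ℕ) (hj : 2 ≤ j)
    (d : Pt n) (hd : d ≠ 0) : 2 ^ n * ker j (rho (K.cd d) ^ 2) ≤ sig n j β := by
  have h1 := K.bias d hd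
  have h2 : rho (K.cd d) ^ 2 ≤ 2 * β := by
    have h3 := abs_nonneg (rho (K.cd d))
    rw [← sq_abs]
    nlinarith
  have h4 : ker j (rho (K.cd d) ^ 2) ≤ (2 * β) ^ j :=
    (ker_le_pow j _ (sq_nonneg _) (rho_sq_le _)).trans (pow_le_pow_left₀ (sq_nonneg _) h2 j)
  unfold sig
  have h5 : (0 : ℝ) ≤ 2 / β * (25 / 32) ^ (4 * j) := by positivity
  have h6 : (2 : ℝ) ^ n * ker j (rho (K.cd d) ^ 2) ≤ 2 ^ n * (2 * β) ^ j :=
    mul_le_mul_of_nonneg_left h4 (by positivity)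
  linarith

end Pool.Agent.Lib.P325rm
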