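import Pool.Agent.Lib.P325rm.Loc
import Pool.Agent.Lib.P325rm.KSum

/-!
Module PairA (1.2h; adapt P325sdp/PairA.lean; black boxes unif_sol, Loc, KSum). The exact law of a pair.
PROOF. As in P325sdp/PairA.lean (eqs_avg from unif_sol; eqs is nonempty for x ≠ x'). kd_sum_le: (1 - κ)(1 + sig) <=
(1 - κ)(1 + κ) <= 1. pairK is by definition avgL univ for x = x'. pair_pos: for x ≠ x' a convex combination of averages over
nonempty sets. pair_symm: c x = c x' + d iff c x' = c x + d, x + x' = x' + x.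
pair_apply: for x ≠ x', pairK F = avgL univ F + ∑_d kd_d (avgL (eqs d) F - avgL univ F).
-/

open scoped BigOperators

namespace Pool.Agent.Lib.P325rm

open Pool.Agent.Lib.P325x (Pt)
open Pool.Agent.Lib.P325sdp (IsPos avgL)

variable {n : ℕ} {A : Type} [Fintype A] [DecidableEq A] [Nonempty A] {β : ℝ}

set_option linter.unusedSectionVars false

namespace PairAAux

open Pool.Agent.Lib.P325sdp (sol)

omit [Fintype A] [DecidableEq A] [Nonempty A] in
/-- a label plus itself -/
theorem pt_add_self (d : Pt n) : d + d = 0 := RhoAux.pt_self d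

/-- the relation pairing `x` and `x'` -/
def R (x x' a b : A → ZMod 2) : Prop := a = b ∨ (a = x ∧ b = x') ∨ (a = x' ∧ b = x)

open Classical in
/-- the alignment `d` off the diagonal -/
noncomputable def AA (d : Pt n) (a b : A → ZMod 2) : Pt n := if a = b then 0 else d

theorem A_self (d : Pt n) (a : A → ZMod 2) : AA d a a = 0 := by simp [AA]

theorem A_ne (d : Pt n) {a b : A → ZMod 2} (h : a ≠ b) : AA d a b = d := by simp [AA, h]

theorem mem_eqs (x x' : A → ZMod 2) (d : Pt n) (c : (A → ZMod 2) → Pt n) :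
    c ∈ eqs x x' d ↔ c x = c x' + d := by
  classical
  unfold eqs
  simp

theorem mem_sol (R' : (A → ZMod 2) → (A → ZMod 2) → Prop)
    (al' : (A → ZMod 2) → (A → ZMod 2) → Pt n) (X : Finset (A → ZMod 2))
    (c : (A → ZMod 2) → Pt n) :
    c ∈ sol R' al' X ↔ ∀ x ∈ X, ∀ x' ∈ X, R' x x' → c x = c x' + al' x x' := by
  classical
  unfold sol
  simp

theorem sol_pair (x x' : A → ZMod 2) (h : x ≠ x') (d : Pt n) :
    sol (R x x') (AA d) {x, x'} = eqs x x' d := by
  ext c
  rw [mem_sol, mem_eqs]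
  constructor
  · intro hc
    have := hc x (by simp) x' (by simp) (Or.inr (Or.inl ⟨rfl, rfl⟩))
    rwa [A_ne d h] at this
  · intro hc a ha b hb _
    rw [Finset.mem_insert, Finset.mem_singleton] at ha hb
    rcases ha with rfl | rfl <;> rcases hb with rfl | rfl
    · rw [A_self, add_zero]
    · rw [A_ne d h, hc]
    · rw [A_ne d h.symm, hc, add_assoc, pt_add_self, add_zero]
    · rw [A_self, add_zero]

theorem sol_single (x x' : A → ZMod 2) (d : Pt n) :
    sol (R x x') (AA d) {x} = Finset.univ := by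
  ext c
  rw [mem_sol]
  constructor
  · intro _
    exact Finset.mem_univ _
  · intro _ a ha b hb _
    rw [Finset.mem_singleton] at ha hb
    rw [ha, hb, A_self, add_zero]

theorem uni (x x' : A → ZMod 2) (h : x ≠ x') (d : Pt n) :
    (sol (R x x') (AA d) {x, x'}).Nonempty ∧ ∀ F : ((A → ZMod 2) → Pt n) → ℝ,
      DependsOn F (({x} : Finset (A → ZMod 2)) : Set (A → ZMod 2)) →
      avgL (sol (R x x') (AA d) {x, x'}) F = avgL (sol (R x x') (AA d) {x}) F := by
  refine Pool.Agent.Lib.P325sdp.unif_sol (R x x') (AA d) {x, x'} {x} (by simp) ?_ ?_ ?_ ?_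
  · intro a _
    exact Or.inl rfl
  · intro a _ b _ hab
    rcases hab with h1 | ⟨h1, h2⟩ | ⟨h1, h2⟩
    · exact Or.inl h1.symm
    · exact Or.inr (Or.inr ⟨h2, h1⟩)
    · exact Or.inr (Or.inl ⟨h2, h1⟩)
  · intro a _ b _ c _ hab hbc
    rcases hab with h1 | ⟨h1, h2⟩ | ⟨h1, h2⟩
    · subst h1
      exact hbc
    · rcases hbc with h3 | ⟨h3, h4⟩ | ⟨h3, h4⟩
      · subst h3
        exact Or.inr (Or.inl ⟨h1, h2⟩)
      · exact absurd (h3.symm.trans h2) h
      · exact Or.inl (h1.trans h4.symm)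
    · rcases hbc with h3 | ⟨h3, h4⟩ | ⟨h3, h4⟩
      · subst h3
        exact Or.inr (Or.inr ⟨h1, h2⟩)
      · exact Or.inl (h1.trans h4.symm)
      · exact absurd (h2.symm.trans h3) h
  · intro a ha b hb c hc _ _
    rw [Finset.mem_insert, Finset.mem_singleton] at ha hb hc
    have hd : d + d = 0 := pt_add_self d
    rcases ha with rfl | rfl <;> rcases hb with rfl | rfl <;> rcases hc with rfl | rfl <;>
      simp [A_self, A_ne d h, A_ne d h.symm, hd]

/-- the law of a pair of different points -/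
theorem pairK_ne (K : Code n A β) (κ : ℝ) (j : ℕ) (x x' : A → ZMod 2) (h : x ≠ x') :
    pairK K κ j x x' = (∑ d : Pt n, kd K κ j x x' d • avgL (eqs x x' d)) +
      (1 - ∑ d : Pt n, kd K κ j x x' d) • avgL Finset.univ := by
  unfold pairK
  rw [if_neg h]

/-- the law of a pair of different points, applied -/
theorem pairK_ne_apply (K : Code n A β) (κ : ℝ) (j : ℕ) (x x' : A → ZMod 2) (h : x ≠ x')
    (F : ((A → ZMod 2) → Pt n) → ℝ) :
    pairK K κ j x x' F = (∑ d : Pt n, kd K κ j x x' d * avgL (eqs x x' d) F) +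
      (1 - ∑ d : Pt n, kd K κ j x x' d) * avgL Finset.univ F := by
  rw [pairK_ne K κ j x x' h]
  simp only [LinearMap.add_apply, LinearMap.sum_apply, LinearMap.smul_apply, smul_eq_mul]

theorem univ_pos : IsPos (avgL (Finset.univ : Finset ((A → ZMod 2) → Pt n))) :=
  LocAux.avgL_pos _ ⟨fun _ => 0, Finset.mem_univ _⟩

end PairAAux

theorem eqs_nonempty (x x' : A → ZMod 2) (h : x ≠ x') (d : Pt n) : (eqs x x' d).Nonempty := by
  rw [← PairAAux.sol_pair x x' h d]
  exact (PairAAux.uni x x' h d).1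

theorem eqs_avg (x x' : A → ZMod 2) (h : x ≠ x') (d : Pt n) (F : ((A → ZMod 2) → Pt n) → ℝ)
    (hF : DependsOn F ({x} : Set (A → ZMod 2))) :
    avgL (eqs x x' d) F = avgL Finset.univ F := by
  rw [← PairAAux.sol_pair x x' h d, ← PairAAux.sol_single x x' d]
  exact (PairAAux.uni x x' h d).2 F (by rwa [Finset.coe_singleton])

theorem kd_nonneg (K : Code n A β) (κ : ℝ) (h1 : κ ≤ 1) (j : ℕ) (x x' : A → ZMod 2) (d : Pt n) :
    0 ≤ kd K κ j x x' d := by
  unfold kd
  exact mul_nonneg (by linarith) (ker_nonneg j _ (sq_nonneg _))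

theorem kd_sum_le (K : Code n A β) (hβ : 0 < β) (hβ1 : β < 1 / 4) (κ : ℝ) (h1 : κ ≤ 1) (j : ℕ)
    (hj : 2 ≤ j) (hs : sig n j β ≤ κ) (x x' : A → ZMod 2) :
    ∑ d : Pt n, kd K κ j x x' d ≤ 1 := by
  unfold kd
  rw [← Finset.mul_sum]
  have h2 := ker_sum_le K hβ hβ1 j hj (x + x')
  have h3 : (1 - κ) * ∑ d : Pt n, ker j (rho (x + x' + K.cd d) ^ 2) ≤ (1 - κ) * (1 + κ) :=
    mul_le_mul_of_nonneg_left (by linarith) (by linarith)
  refine h3.trans ?_
  nlinarith [sq_nonneg κ]

theorem pair_symm (K : Code n A β) (κ : ℝ) (j : ℕ) (x x' : A → ZMod 2) :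
    pairK K κ j x' x = pairK K κ j x x' := by
  have he : ∀ d : Pt n, eqs x' x d = eqs x x' d := by
    intro d
    have hd : d + d = 0 := PairAAux.pt_add_self d
    ext c
    rw [PairAAux.mem_eqs, PairAAux.mem_eqs]
    constructor
    · intro h
      rw [h, add_assoc, hd, add_zero]
    · intro h
      rw [h, add_assoc, hd, add_zero]
  by_cases h : x = x'
  · subst h
    rfl
  · rw [PairAAux.pairK_ne K κ j x x' h, PairAAux.pairK_ne K κ j x' x (Ne.symm h)]
    unfold kd
    simp only [he, add_comm x' x]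

theorem pair_self (K : Code n A β) (κ : ℝ) (j : ℕ) (x : A → ZMod 2) :
    pairK K κ j x x = avgL Finset.univ := by
  unfold pairK
  rw [if_pos rfl]

theorem pair_apply (K : Code n A β) (κ : ℝ) (j : ℕ) (x x' : A → ZMod 2) (h : x ≠ x')
    (F : ((A → ZMod 2) → Pt n) → ℝ) :
    pairK K κ j x x' F = avgL Finset.univ F +
      ∑ d : Pt n, kd K κ j x x' d * (avgL (eqs x x' d) F - avgL Finset.univ F) := by
  rw [PairAAux.pairK_ne_apply K κ j x x' h F]
  simp only [mul_sub, Finset.sum_sub_distrib]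
  rw [← Finset.sum_mul]
  ring

theorem pair_pos (K : Code n A β) (hβ : 0 < β) (hβ1 : β < 1 / 4) (κ : ℝ) (h1 : κ ≤ 1) (j : ℕ)
    (hj : 2 ≤ j) (hs : sig n j β ≤ κ) (x x' : A → ZMod 2) : IsPos (pairK K κ j x x') := by
  by_cases h : x = x'
  · subst h
    rw [pair_self]
    exact PairAAux.univ_pos
  · have he : ∀ d : Pt n, IsPos (avgL (eqs x x' d)) := fun d =>
      LocAux.avgL_pos _ (eqs_nonempty x x' h d)
    have hu : IsPos (avgL (Finset.univ : Finset ((A → ZMod 2) → Pt n))) := PairAAux.univ_pos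
    have hs' := kd_sum_le K hβ hβ1 κ h1 j hj hs x x'
    constructor
    · rw [PairAAux.pairK_ne_apply K κ j x x' h]
      simp only [(he _).one, hu.one, mul_one]
      ring
    · intro f hf
      rw [PairAAux.pairK_ne_apply K κ j x x' h]
      refine add_nonneg (Finset.sum_nonneg fun d _ => ?_) ?_
      · exact mul_nonneg (kd_nonneg K κ h1 j x x' d) ((he d).nonneg f hf)
      · exact mul_nonneg (by linarith) (hu.nonneg f hf)

theorem pair_marg (K : Code n A β) (κ : ℝ) (j : ℕ) (x x' : A → ZMod 2)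
    (F : ((A → ZMod 2) → Pt n) → ℝ)
    (hF : DependsOn F ({x} : Set (A → ZMod 2))) : pairK K κ j x x' F = avgL Finset.univ F := by
  by_cases h : x = x'
  · subst h
    rw [pair_self]
  · rw [pair_apply K κ j x x' h F]
    simp only [eqs_avg x x' h _ F hF, sub_self, mul_zero, Finset.sum_const_zero, add_zero]

/-- A lower bound from one alignment. -/
theorem pair_ge (K : Code n A β) (hβ : 0 < β) (hβ1 : β < 1 / 4) (κ : ℝ) (h1 : κ ≤ 1) (j : ℕ)
    (hj : 2 ≤ j) (hs : sig n j β ≤ κ) (x x' : A → ZMod 2) (h : x ≠ x') (d : Pt n)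
    (F : ((A → ZMod 2) → Pt n) → ℝ) (hF : ∀ c, 0 ≤ F c) :
    kd K κ j x x' d * avgL (eqs x x' d) F ≤ pairK K κ j x x' F := by
  have he : ∀ d : Pt n, IsPos (avgL (eqs x x' d)) := fun d =>
    LocAux.avgL_pos _ (eqs_nonempty x x' h d)
  have hu : IsPos (avgL (Finset.univ : Finset ((A → ZMod 2) → Pt n))) := PairAAux.univ_pos
  have hs' := kd_sum_le K hβ hβ1 κ h1 j hj hs x x'
  rw [PairAAux.pairK_ne_apply K κ j x x' h F]
  have h2 : kd K κ j x x' d * avgL (eqs x x' d) F ≤
      ∑ d : Pt n, kd K κ j x x' d * avgL (eqs x x' d) F :=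
    Finset.single_le_sum (f := fun d => kd K κ j x x' d * avgL (eqs x x' d) F)
      (fun d _ => mul_nonneg (kd_nonneg K κ h1 j x x' d) ((he d).nonneg F hF))
      (Finset.mem_univ d)
  have h3 : 0 ≤ (1 - ∑ d : Pt n, kd K κ j x x' d) * avgL Finset.univ F :=
    mul_nonneg (by linarith) (hu.nonneg F hF)
  linarith

end Pool.Agent.Lib.P325rm
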