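import Pool.Agent.Lib.P325rm.MeanR
import Pool.Agent.Lib.P325rm.PairA
import Pool.Agent.Lib.P325rc.Eig

/-!
Module ObjR (1.8h; compare P325sdp/Obj.lean; black boxes PairA, ker_lin, Rho, mean_rho_sq, P325rc.hit). The objective of the
pair laws on the code game over the noise game. An edge is ((x, d, r), a, y, ν): x' = x + cd d + nz 1 r; the labeling c
gives y (c x) to the source and (y + ν) (c x' + d) + a to the target.
PROOF. Write ρ = rho (nz 1 r), θ = 1 - m/2^D >= 0, low = 1 - 2 j (1 - ρ^2) - 2 (16/27)^j <= ker j (ρ^2). x + x' + cd d = nz 1 r.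
Claim: for fixed x, d, r, a, y the sum over ν of the pair law of [satisfied] is >= (1 - κ) θ low (number of ν).
On eqs x x' d (c x' = c x + d, c x' + d = c x) the edge is satisfied if nzt ν (c x) = 0; for every c the mean over ν of
[nzt ν (c x) = 0] is >= θ (hit). Case x ≠ x': pair_ge (F = the indicator) and averaging: >= kd θ = (1-κ) ker j (ρ^2) θ.
Case x = x', d = 0: pair_self, the edge is satisfied if nzt ν (c x) = 0: >= θ >= (1-κ) θ low (low <= ker <= 1; if θ low < 0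
trivial). Case x = x', d ≠ 0: nz 1 r = cd d, |ρ| <= β < 1/4, low <= 1 - 2 j (15/16) < 0, and the left side is >= 0.
Sum over x, d, r, a, y: the mean over r of low is >= 1 - 8 j/q - 2 (16/27)^j by mean_rho_sq.
-/

open scoped BigOperators

namespace Pool.Agent.Lib.P325rm

open Pool.Agent.Lib.P325x (Pt nz)
open Pool.Agent.Lib.P325rc (Tb Nz nzT shT)

namespace ObjRAux

open Pool.Agent.Lib.P325x (mean)
open Pool.Agent.Lib.P325rc (nzt Af hit)
open Pool.Agent.Lib.P325sdp (avgL IsPos)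

theorem avgL_apply {Z : Type} (s : Finset Z) (F : Z → ℝ) :
    avgL s F = (s.card : ℝ)⁻¹ * ∑ c ∈ s, F c := by
  simp [avgL, LinearMap.sum_apply]

theorem avgL_mono {Z : Type} (s : Finset Z) (F G : Z → ℝ) (h : ∀ c ∈ s, F c ≤ G c) :
    avgL s F ≤ avgL s G := by
  rw [avgL_apply, avgL_apply]
  exact mul_le_mul_of_nonneg_left (Finset.sum_le_sum h) (by positivity)

theorem avgL_nonneg {Z : Type} (s : Finset Z) (F : Z → ℝ) (h : ∀ c, 0 ≤ F c) : 0 ≤ avgL s F := by
  rw [avgL_apply]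
  exact mul_nonneg (by positivity) (Finset.sum_nonneg fun c _ => h c)

theorem avgL_const {Z : Type} (s : Finset Z) (hs : s.Nonempty) (b : ℝ) :
    avgL s (fun _ => b) = b := by
  have h : (s.card : ℝ) ≠ 0 := by exact_mod_cast (Finset.card_pos.2 hs).ne'
  rw [avgL_apply, Finset.sum_const, nsmul_eq_mul, ← mul_assoc, inv_mul_cancel₀ h, one_mul]

theorem sum_hit {n D s m : ℕ} (p : Pt n) :
    (1 - (m : ℝ) / 2 ^ D) * (Fintype.card (Nz n D s m) : ℝ) ≤
      ∑ ν : Nz n D s m, if nzt ν p = 0 then (1 : ℝ) else 0 := by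
  have hcard : (0 : ℝ) < (Fintype.card (Nz n D s m) : ℝ) := by
    exact_mod_cast Fintype.card_pos
  have h := hit (d := D) (s := s) (m := m) p
  rw [mean, div_le_iff₀ hcard] at h
  have h2 : ∀ ν : Nz n D s m, (if nzt ν p = 0 then (1 : ℝ) else 0) =
      1 - (if nzt ν p = 0 then (0 : ℝ) else 1) := by
    intro ν
    split_ifs <;> norm_num
  rw [Finset.sum_congr rfl fun ν _ => h2 ν, Finset.sum_sub_distrib, Finset.sum_const,
    Finset.card_univ, nsmul_eq_mul, mul_one]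
  linarith

theorem sum_avg {n D s m : ℕ} {X : Type} (E : Finset (X → Pt n)) (hE : E.Nonempty) (x : X) :
    (1 - (m : ℝ) / 2 ^ D) * (Fintype.card (Nz n D s m) : ℝ) ≤
      ∑ ν : Nz n D s m, avgL E (fun c => if nzt ν (c x) = 0 then (1 : ℝ) else 0) := by
  have h1 : ∑ ν : Nz n D s m, avgL E (fun c => if nzt ν (c x) = 0 then (1 : ℝ) else 0) =
      avgL E (fun c => ∑ ν : Nz n D s m, if nzt ν (c x) = 0 then (1 : ℝ) else 0) := by
    rw [avgL_apply, Finset.sum_comm, Finset.mul_sum]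
    exact Finset.sum_congr rfl fun ν _ => avgL_apply _ _
  rw [h1]
  calc _ = avgL E (fun _ => (1 - (m : ℝ) / 2 ^ D) * (Fintype.card (Nz n D s m) : ℝ)) :=
        (avgL_const E hE _).symm
    _ ≤ _ := avgL_mono _ _ _ fun c _ => sum_hit (c x)

theorem sat_ge {n D s m : ℕ} (y : Tb n D s) (a : Pt s) (ν : Nz n D s m) (d p p' : Pt n)
    (h : p' + d = p) : (if nzt ν p = 0 then (1 : ℝ) else 0) ≤
      if y.1 p + a = (shT d a (y + nzT ν)).1 p' then (1 : ℝ) else 0 := by
  by_cases h1 : nzt ν p = 0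
  · have h2 : y.1 p + a = (shT d a (y + nzT ν)).1 p' := by
      show y.1 p + a = (y.1 (p' + d) + nzt ν (p' + d)) + a
      rw [h, h1, add_zero]
    rw [if_pos h1, if_pos h2]
  · rw [if_neg h1]
    split_ifs
    · exact zero_le_one
    · exact le_refl _

theorem step {n : ℕ} {A : Type} [Fintype A] [DecidableEq A] [Nonempty A] {β : ℝ} (K : Code n A β)
    (hβ : 0 < β) (hβ1 : β < 1 / 4) (κ : ℝ) (h0 : 0 ≤ κ) (h1 : κ ≤ 1) (j : ℕ) (hj : 2 ≤ j)
    (hs : sig n j β ≤ κ) (q : ℕ) (D s m : ℕ) (hm : (m : ℝ) / 2 ^ D ≤ 1)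
    (x : A → ZMod 2) (d : Pt n) (r : A → Fin q) (a : Pt s) (y : Tb n D s) :
    (1 - κ) * (1 - (m : ℝ) / 2 ^ D) *
      (1 - 2 * j * (1 - rho (nz 1 r) ^ 2) - 2 * (16 / 27) ^ j) *
        (Fintype.card (Nz n D s m) : ℝ) ≤
      ∑ ν : Nz n D s m, pairK K κ j x (x + K.cd d + nz 1 r) (fun c =>
        if y.1 (c x) + a = (shT d a (y + nzT ν)).1 (c (x + K.cd d + nz 1 r))
          then (1 : ℝ) else 0) := by
  have hcard : (0 : ℝ) ≤ (Fintype.card (Nz n D s m) : ℝ) := Nat.cast_nonneg _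
  have hθ : 0 ≤ 1 - (m : ℝ) / 2 ^ D := by linarith
  have hκ : 0 ≤ 1 - κ := by linarith
  have hjr : (2 : ℝ) ≤ j := by exact_mod_cast hj
  have hpow : (0 : ℝ) ≤ 2 * (16 / 27) ^ j := by positivity
  have hr1 : rho (nz 1 r) ^ 2 ≤ 1 := rho_sq_le _
  obtain ⟨x', hx'⟩ : ∃ x', x' = x + K.cd d + nz 1 r := ⟨_, rfl⟩
  obtain ⟨low, hlow⟩ : ∃ low, low = 1 - 2 * j * (1 - rho (nz 1 r) ^ 2) - 2 * (16 / 27) ^ j :=
    ⟨_, rfl⟩
  have hlow1 : low ≤ 1 := by
    have h2 : 0 ≤ 2 * (j : ℝ) * (1 - rho (nz 1 r) ^ 2) := by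
      have h3 : 0 ≤ 1 - rho (nz 1 r) ^ 2 := by linarith
      positivity
    rw [hlow]
    linarith
  rw [← hx', ← hlow]
  by_cases hxx : x = x'
  · have hE : (Finset.univ : Finset ((A → ZMod 2) → Pt n)).Nonempty := Finset.univ_nonempty
    rw [← hxx, pair_self]
    by_cases hd : d = 0
    · have h2 : ∀ ν : Nz n D s m,
          avgL Finset.univ (fun c : (A → ZMod 2) → Pt n =>
            if nzt ν (c x) = 0 then (1 : ℝ) else 0) ≤
          avgL Finset.univ (fun c : (A → ZMod 2) → Pt n =>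
            if y.1 (c x) + a = (shT d a (y + nzT ν)).1 (c x) then (1 : ℝ) else 0) := by
        intro ν
        refine avgL_mono _ _ _ fun c _ => ?_
        exact sat_ge y a ν d (c x) (c x) (by rw [hd, add_zero])
      refine le_trans ?_ (Finset.sum_le_sum fun ν _ => h2 ν)
      refine le_trans ?_ (sum_avg Finset.univ hE x)
      refine mul_le_mul_of_nonneg_right ?_ hcard
      have h3 : (1 - κ) * low ≤ 1 := by
        have h4 : (1 - κ) * low ≤ (1 - κ) * 1 := mul_le_mul_of_nonneg_left hlow1 hκ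
        linarith
      have h5 := mul_le_mul_of_nonneg_left h3 hθ
      calc (1 - κ) * (1 - (m : ℝ) / 2 ^ D) * low = (1 - (m : ℝ) / 2 ^ D) * ((1 - κ) * low) := by
            ring
        _ ≤ (1 - (m : ℝ) / 2 ^ D) * 1 := h5
        _ = _ := mul_one _
    · have h2 : nz 1 r = K.cd d := by
        have h3 : x + K.cd d + nz 1 r = x := by rw [← hx', ← hxx]
        have h4 : K.cd d + nz 1 r = 0 := by
          have h5 : x + (K.cd d + nz 1 r) = x + 0 := by rw [← add_assoc, h3, add_zero]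
          exact add_left_cancel h5
        calc nz 1 r = (K.cd d + K.cd d) + nz 1 r := by rw [fun_add_self, zero_add]
          _ = K.cd d + (K.cd d + nz 1 r) := add_assoc _ _ _
          _ = K.cd d := by rw [h4, add_zero]
      have h3 : |rho (nz 1 r)| ≤ β := by
        rw [h2]
        exact K.bias d hd
      have h4 : rho (nz 1 r) ^ 2 ≤ 1 / 16 := by
        rw [← sq_abs]
        have h5 : |rho (nz 1 r)| ≤ 1 / 4 := by linarith
        have h6 := abs_nonneg (rho (nz 1 r))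
        nlinarith
      have h5 : low ≤ 0 := by
        rw [hlow]
        have h6 : 2 * (2 : ℝ) * (15 / 16) ≤ 2 * (j : ℝ) * (1 - rho (nz 1 r) ^ 2) :=
          mul_le_mul (by linarith) (by linarith) (by norm_num) (by linarith)
        linarith
      have h6 : 0 ≤ (1 - κ) * (1 - (m : ℝ) / 2 ^ D) * (Fintype.card (Nz n D s m) : ℝ) :=
        mul_nonneg (mul_nonneg hκ hθ) hcard
      have h7 : (1 - κ) * (1 - (m : ℝ) / 2 ^ D) * low * (Fintype.card (Nz n D s m) : ℝ) ≤ 0 := by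
        have h8 := mul_nonpos_of_nonneg_of_nonpos h6 h5
        calc (1 - κ) * (1 - (m : ℝ) / 2 ^ D) * low * (Fintype.card (Nz n D s m) : ℝ)
            = (1 - κ) * (1 - (m : ℝ) / 2 ^ D) * (Fintype.card (Nz n D s m) : ℝ) * low := by ring
          _ ≤ 0 := h8
      refine h7.trans (Finset.sum_nonneg fun ν _ => avgL_nonneg _ _ fun c => ?_)
      split_ifs
      · exact zero_le_one
      · exact le_refl _
  · have hE : (eqs x x' d).Nonempty := eqs_nonempty x x' hxx d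
    have hrho : x + x' + K.cd d = nz 1 r := by
      rw [hx']
      calc x + (x + K.cd d + nz 1 r) + K.cd d
          = (x + x) + ((K.cd d + K.cd d) + nz 1 r) := by abel
        _ = nz 1 r := by rw [fun_add_self, fun_add_self, zero_add, zero_add]
    have h2 : ∀ ν : Nz n D s m,
        kd K κ j x x' d * avgL (eqs x x' d) (fun c : (A → ZMod 2) → Pt n =>
            if nzt ν (c x) = 0 then (1 : ℝ) else 0) ≤
        pairK K κ j x x' (fun c =>
          if y.1 (c x) + a = (shT d a (y + nzT ν)).1 (c x') then (1 : ℝ) else 0) := by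
      intro ν
      refine le_trans ?_ (pair_ge K hβ hβ1 κ h1 j hj hs x x' hxx d _ ?_)
      · refine mul_le_mul_of_nonneg_left ?_ (kd_nonneg K κ h1 j x x' d)
        refine avgL_mono _ _ _ fun c hc => ?_
        rw [eqs, Finset.mem_filter] at hc
        exact sat_ge y a ν d (c x) (c x') hc.2.symm
      · intro c
        split_ifs
        · exact zero_le_one
        · exact le_refl _
    refine le_trans ?_ (Finset.sum_le_sum fun ν _ => h2 ν)
    rw [← Finset.mul_sum]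
    have h3 := mul_le_mul_of_nonneg_left (sum_avg (D := D) (s := s) (m := m) _ hE x)
      (kd_nonneg K κ h1 j x x' d)
    refine le_trans ?_ h3
    have h4 : low ≤ ker j (rho (x + x' + K.cd d) ^ 2) := by
      rw [hrho, hlow]
      exact ker_lin j hj _ (sq_nonneg _) hr1
    have h6 : 0 ≤ (1 - κ) * (1 - (m : ℝ) / 2 ^ D) * (Fintype.card (Nz n D s m) : ℝ) :=
      mul_nonneg (mul_nonneg hκ hθ) hcard
    have h5 := mul_le_mul_of_nonneg_left h4 h6
    calc (1 - κ) * (1 - (m : ℝ) / 2 ^ D) * low * (Fintype.card (Nz n D s m) : ℝ)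
        = (1 - κ) * (1 - (m : ℝ) / 2 ^ D) * (Fintype.card (Nz n D s m) : ℝ) * low := by ring
      _ ≤ _ := h5
      _ = _ := by
        rw [kd]
        ring

theorem sum_low {A : Type} [Fintype A] [DecidableEq A] [Nonempty A] (q j : ℕ) (hq : 2 ≤ q) :
    (1 - 8 * (j : ℝ) / q - 2 * (16 / 27) ^ j) * (Fintype.card (A → Fin q) : ℝ) ≤
      ∑ r : A → Fin q, (1 - 2 * (j : ℝ) * (1 - rho (nz 1 r) ^ 2) - 2 * (16 / 27) ^ j) := by
  have : NeZero q := ⟨by omega⟩
  have hcard : (0 : ℝ) < (Fintype.card (A → Fin q) : ℝ) := by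
    exact_mod_cast Fintype.card_pos
  have h := mean_rho_sq (A := A) hq
  rw [mean, le_div_iff₀ hcard] at h
  have e1 : ∀ r : A → Fin q, (1 - 2 * (j : ℝ) * (1 - rho (nz 1 r) ^ 2) - 2 * (16 / 27) ^ j) =
      (1 - 2 * (j : ℝ) - 2 * (16 / 27) ^ j) + 2 * (j : ℝ) * rho (nz 1 r) ^ 2 := by
    intro r
    ring
  rw [Finset.sum_congr rfl fun r _ => e1 r, Finset.sum_add_distrib, Finset.sum_const,
    Finset.card_univ, nsmul_eq_mul, ← Finset.mul_sum]
  have hj0 : (0 : ℝ) ≤ 2 * (j : ℝ) := by positivity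
  have h2 := mul_le_mul_of_nonneg_left h hj0
  calc (1 - 8 * (j : ℝ) / q - 2 * (16 / 27) ^ j) * (Fintype.card (A → Fin q) : ℝ)
      = (Fintype.card (A → Fin q) : ℝ) * (1 - 2 * (j : ℝ) - 2 * (16 / 27) ^ j) +
        2 * (j : ℝ) * ((1 - 4 / (q : ℝ)) * (Fintype.card (A → Fin q) : ℝ)) := by ring
    _ ≤ _ := by linarith

end ObjRAux

open ObjRAux in
theorem obj {n : ℕ} {A : Type} [Fintype A] [DecidableEq A] [Nonempty A] {β : ℝ} (K : Code n A β)
    (hβ : 0 < β) (hβ1 : β < 1 / 4) (κ : ℝ) (h0 : 0 ≤ κ) (h1 : κ ≤ 1) (j : ℕ) (hj : 2 ≤ j)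
    (hs : sig n j β ≤ κ) (q : ℕ) (hq : 2 ≤ q) (D s m : ℕ) (hm : (m : ℝ) / 2 ^ D ≤ 1) :
    (1 - κ) * (1 - (m : ℝ) / 2 ^ D) * (1 - 8 * j / q - 2 * (16 / 27) ^ j) *
      (Fintype.card (((A → ZMod 2) × Pt n × (A → Fin q)) × Pt s × Tb n D s × Nz n D s m) : ℝ) ≤
      ∑ e : ((A → ZMod 2) × Pt n × (A → Fin q)) × Pt s × Tb n D s × Nz n D s m,
        pairK K κ j e.1.1 (e.1.1 + K.cd e.1.2.1 + nz 1 e.1.2.2) (fun c =>
          if e.2.2.1.1 (c e.1.1) + e.2.1 =
            (shT e.1.2.1 e.2.1 (e.2.2.1 + nzT e.2.2.2)).1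
              (c (e.1.1 + K.cd e.1.2.1 + nz 1 e.1.2.2)) then (1 : ℝ) else 0) := by
  have hstep : (1 - κ) * (1 - (m : ℝ) / 2 ^ D) * (1 - 8 * j / q - 2 * (16 / 27) ^ j) *
      (Fintype.card (((A → ZMod 2) × Pt n × (A → Fin q)) × Pt s × Tb n D s × Nz n D s m) : ℝ) ≤
      ∑ _x : A → ZMod 2, ∑ _d : Pt n, ∑ r : A → Fin q, ∑ _a : Pt s, ∑ _y : Tb n D s,
        (1 - κ) * (1 - (m : ℝ) / 2 ^ D) *
          (1 - 2 * j * (1 - rho (nz 1 r) ^ 2) - 2 * (16 / 27) ^ j) *
          (Fintype.card (Nz n D s m) : ℝ) := by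
    have hθ : 0 ≤ 1 - (m : ℝ) / 2 ^ D := by linarith
    have hκ : 0 ≤ 1 - κ := by linarith
    have h1 := sum_low (A := A) q j hq
    simp only [Finset.sum_const, Finset.card_univ, nsmul_eq_mul]
    have h2 : ∑ r : A → Fin q, ((Fintype.card (Pt s) : ℝ) *
        ((Fintype.card (Tb n D s) : ℝ) * ((1 - κ) * (1 - (m : ℝ) / 2 ^ D) *
          (1 - 2 * j * (1 - rho (nz 1 r) ^ 2) - 2 * (16 / 27) ^ j) *
          (Fintype.card (Nz n D s m) : ℝ)))) =
        (∑ r : A → Fin q, (1 - 2 * (j : ℝ) * (1 - rho (nz 1 r) ^ 2) - 2 * (16 / 27) ^ j)) *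
          ((Fintype.card (Pt s) : ℝ) * ((Fintype.card (Tb n D s) : ℝ) *
            ((1 - κ) * (1 - (m : ℝ) / 2 ^ D) * (Fintype.card (Nz n D s m) : ℝ)))) := by
      rw [Finset.sum_mul]
      exact Finset.sum_congr rfl fun r _ => by ring
    rw [h2]
    have h3 : (0 : ℝ) ≤ (Fintype.card (A → ZMod 2) : ℝ) * ((Fintype.card (Pt n) : ℝ) *
          ((Fintype.card (Pt s) : ℝ) * ((Fintype.card (Tb n D s) : ℝ) *
            ((1 - κ) * (1 - (m : ℝ) / 2 ^ D) * (Fintype.card (Nz n D s m) : ℝ))))) := by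
      positivity
    have h4 := mul_le_mul_of_nonneg_right h1 h3
    rw [Fintype.card_prod, Fintype.card_prod, Fintype.card_prod, Fintype.card_prod,
      Fintype.card_prod]
    push_cast
    refine le_trans (le_of_eq ?_) (h4.trans (le_of_eq ?_))
    · ring
    · ring
  refine hstep.trans ?_
  rw [Fintype.sum_prod_type, Fintype.sum_prod_type]
  refine Finset.sum_le_sum fun x _ => ?_
  rw [Fintype.sum_prod_type]
  refine Finset.sum_le_sum fun d _ => Finset.sum_le_sum fun r _ => ?_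
  rw [Fintype.sum_prod_type]
  refine Finset.sum_le_sum fun a _ => ?_
  rw [Fintype.sum_prod_type]
  refine Finset.sum_le_sum fun y _ => ?_
  exact step K hβ hβ1 κ h0 h1 j hj hs q D s m hm x d r a y

end Pool.Agent.Lib.P325rm
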