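import Pool.Agent.Lib.P325x.Bonami

/-!
Module Small (1h; adapt level_weight and small_set of the finished file P325x/Bonami.lean; black boxes bonami, parseval,
mean_mul_sq_le). Small set expansion for functions with values in [0, 1].
PROOF. q = ∑ (1/3)^|S| hat f S^2 = mean (f P), P = ∑ (1/3)^|S| hat f S W_S, mean P^4 <= q^2 (bonami). q^2 <= mean f mean (f P^2)
(Cauchy-Schwarz for √f and √f P). (mean (f P^2))^2 <= mean f^2 mean P^4 <= mean f q^2 (f^2 <= f). So q^4 <= (mean f)^3 q^2.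
small01: weights w_S = hat f S^2 / mean f with ∑ w_S = mean f^2 / mean f <= 1 (if mean f = 0 then f = 0 and all hat f S = 0).
Jensen for weights of sum σ <= 1: (∑ w z)^k <= σ^(k-1) ∑ w z^k <= ∑ w z^k (divide by σ, Real.pow_arith_mean_le_arith_mean_pow;
σ = 0 trivial as k ≠ 0). Rest as in small_set.
-/

open scoped BigOperators

namespace Pool.Agent.Lib.P325rm

open Pool.Agent.Lib.P325x (mean hat)
open Pool.Agent.Lib.P325x (W bonami parseval mean_mul_sq_le mean_congr mean_nonneg mean_sum mean_smul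
  mean_mono)

theorem level01 {A : Type} [Fintype A] [DecidableEq A] {f : (A → ZMod 2) → ℝ}
    (h0 : ∀ x, 0 ≤ f x) (h1 : ∀ x, f x ≤ 1) :
    (∑ S, (1 / 3 : ℝ) ^ S.card * hat f S ^ 2) ^ 2 ≤ mean f ^ 3 := by
  set q : ℝ := ∑ S, (1 / 3 : ℝ) ^ S.card * hat f S ^ 2 with hq
  set P : (A → ZMod 2) → ℝ := fun x => ∑ S, ((1 / 3 : ℝ) ^ S.card * hat f S) * W S x with hP
  have hf0 : 0 ≤ mean f := mean_nonneg h0
  have e1 : mean (fun x => f x * P x) = q := by
    calc mean (fun x => f x * P x)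
        = mean (fun x => ∑ S, ((1 / 3 : ℝ) ^ S.card * hat f S) * (f x * W S x)) := by
          refine mean_congr fun x => ?_
          rw [hP]
          simp only
          rw [Finset.mul_sum]
          exact Finset.sum_congr rfl fun S _ => by ring
      _ = q := by
          rw [mean_sum]
          refine Finset.sum_congr rfl fun S _ => ?_
          rw [mean_smul, ← hat]
          ring
  have h2 : mean (fun x => P x ^ 4) ≤ q ^ 2 := by
    have := bonami Finset.univ (fun S => (1 / 3 : ℝ) ^ S.card * hat f S)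
    rw [Finset.powerset_univ] at this
    refine this.trans (le_of_eq ?_)
    rw [hq]
    congr 1
    refine Finset.sum_congr rfl fun S _ => ?_
    have h3 : (3 : ℝ) ^ S.card * (1 / 3) ^ S.card = 1 := by
      rw [← mul_pow]; norm_num
    calc (3 : ℝ) ^ S.card * ((1 / 3) ^ S.card * hat f S) ^ 2
        = ((3 : ℝ) ^ S.card * (1 / 3) ^ S.card) * ((1 / 3) ^ S.card * hat f S ^ 2) := by ring
      _ = _ := by rw [h3, one_mul]
  have h3 : q ^ 2 ≤ mean f * mean (fun x => f x * P x ^ 2) := by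
    have h4 := mean_mul_sq_le (fun x => Real.sqrt (f x)) (fun x => Real.sqrt (f x) * P x)
    have a1 : mean (fun x => Real.sqrt (f x) * (Real.sqrt (f x) * P x)) = q := by
      rw [← e1]
      exact mean_congr fun x => by rw [← mul_assoc, Real.mul_self_sqrt (h0 x)]
    have a2 : mean (fun x => Real.sqrt (f x) ^ 2) = mean f :=
      mean_congr fun x => Real.sq_sqrt (h0 x)
    have a3 : mean (fun x => (Real.sqrt (f x) * P x) ^ 2) = mean (fun x => f x * P x ^ 2) :=
      mean_congr fun x => by rw [mul_pow, Real.sq_sqrt (h0 x)]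
    rwa [a1, a2, a3] at h4
  have hff : mean (fun x => f x ^ 2) ≤ mean f := mean_mono fun x => by
    nlinarith [h0 x, h1 x]
  have hfp : 0 ≤ mean (fun x => f x ^ 2) := mean_nonneg fun x => by positivity
  have h5 : mean (fun x => f x * P x ^ 2) ^ 2 ≤ mean f * q ^ 2 := by
    have h4 := mean_mul_sq_le f (fun x => P x ^ 2)
    have a3 : mean (fun x => (P x ^ 2) ^ 2) = mean (fun x => P x ^ 4) :=
      mean_congr fun x => by ring
    rw [a3] at h4
    exact h4.trans (mul_le_mul hff h2 (mean_nonneg fun x => by positivity) hf0)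
  have hq0 : 0 ≤ q := Finset.sum_nonneg fun S _ => by positivity
  rcases hq0.eq_or_lt with hz | hz
  · rw [← hz, zero_pow two_ne_zero]
    positivity
  · have h6 : (q ^ 2) ^ 2 ≤ mean f ^ 3 * q ^ 2 := by
      calc (q ^ 2) ^ 2 ≤ (mean f * mean (fun x => f x * P x ^ 2)) ^ 2 :=
            pow_le_pow_left₀ (by positivity) h3 2
        _ = mean f ^ 2 * mean (fun x => f x * P x ^ 2) ^ 2 := by ring
        _ ≤ mean f ^ 2 * (mean f * q ^ 2) := mul_le_mul_of_nonneg_left h5 (by positivity)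
        _ = mean f ^ 3 * q ^ 2 := by ring
    have h7 : 0 < q ^ 2 := by positivity
    have h8 : q ^ 2 * q ^ 2 ≤ mean f ^ 3 * q ^ 2 := by rw [← sq]; exact h6
    exact le_of_mul_le_mul_right h8 h7

theorem small01 {A : Type} [Fintype A] [DecidableEq A] {f : (A → ZMod 2) → ℝ}
    (h0 : ∀ x, 0 ≤ f x) (h1 : ∀ x, f x ≤ 1) {ρ : ℝ} (hρ : 0 ≤ ρ) {k : ℕ} (hk : ρ ^ k ≤ 1 / 3) :
    (∑ S, ρ ^ S.card * hat f S ^ 2) ^ (2 * k) ≤ mean f ^ (2 * k) * mean f := by
  have hf0 : 0 ≤ mean f := mean_nonneg h0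
  have hff : mean (fun x => f x ^ 2) ≤ mean f := mean_mono fun x => by
    nlinarith [h0 x, h1 x]
  have hpars : ∑ S, hat f S ^ 2 = mean (fun x => f x ^ 2) := (parseval f).symm
  have hle : ∑ S, hat f S ^ 2 ≤ mean f := hpars.le.trans hff
  have hM0 : 0 ≤ ∑ S, hat f S ^ 2 := Finset.sum_nonneg fun S _ => sq_nonneg _
  have hk0 : k ≠ 0 := by
    rintro rfl
    norm_num at hk
  rcases hM0.eq_or_lt with hz | hz
  · have a1 : ∀ S, hat f S ^ 2 = 0 := fun S =>
      (Finset.sum_eq_zero_iff_of_nonneg (fun S _ => sq_nonneg _)).1 hz.symm S (Finset.mem_univ S)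
    rw [Finset.sum_eq_zero fun S _ => by rw [a1, mul_zero], zero_pow (by omega)]
    positivity
  · set M : ℝ := ∑ S, hat f S ^ 2 with hM
    have a1 := Real.pow_arith_mean_le_arith_mean_pow Finset.univ
      (fun S => hat f S ^ 2 / M) (fun S => ρ ^ S.card)
      (fun S _ => by positivity)
      (by rw [← Finset.sum_div, ← hM, div_self hz.ne']) (fun S _ => by positivity) k
    have a2 : ∑ S, hat f S ^ 2 / M * (ρ ^ S.card) ^ k ≤
        (∑ S, (1 / 3 : ℝ) ^ S.card * hat f S ^ 2) / M := by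
      rw [Finset.sum_div]
      refine Finset.sum_le_sum fun S _ => ?_
      have h3 : (ρ ^ S.card) ^ k ≤ (1 / 3 : ℝ) ^ S.card := by
        rw [← pow_mul, mul_comm, pow_mul]
        exact pow_le_pow_left₀ (by positivity) hk _
      calc hat f S ^ 2 / M * (ρ ^ S.card) ^ k ≤ hat f S ^ 2 / M * (1 / 3 : ℝ) ^ S.card :=
            mul_le_mul_of_nonneg_left h3 (by positivity)
        _ = _ := by ring
    have a3 : ∑ S, hat f S ^ 2 / M * ρ ^ S.card = (∑ S, ρ ^ S.card * hat f S ^ 2) / M := by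
      rw [Finset.sum_div]
      exact Finset.sum_congr rfl fun S _ => by ring
    rw [a3, div_pow] at a1
    have a4 := a1.trans a2
    obtain ⟨j, rfl⟩ := Nat.exists_eq_succ_of_ne_zero hk0
    set Q : ℝ := ∑ S, ρ ^ S.card * hat f S ^ 2 with hQ
    set R : ℝ := ∑ S, (1 / 3 : ℝ) ^ S.card * hat f S ^ 2 with hR
    have hQ0 : 0 ≤ Q := Finset.sum_nonneg fun S _ => by positivity
    have hR0 : 0 ≤ R := Finset.sum_nonneg fun S _ => by positivity
    have a5 : Q ^ (j + 1) ≤ M ^ j * R := by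
      rw [Nat.succ_eq_add_one, div_le_div_iff₀ (by positivity) hz, pow_succ M j] at a4
      have a6 : Q ^ (j + 1) * M ≤ (M ^ j * R) * M := a4.trans (le_of_eq (by ring))
      exact le_of_mul_le_mul_right a6 hz
    have a7 : R ^ 2 ≤ mean f ^ 3 := level01 h0 h1
    calc Q ^ (2 * (j + 1)) = (Q ^ (j + 1)) ^ 2 := by rw [← pow_mul, mul_comm]
      _ ≤ (M ^ j * R) ^ 2 := pow_le_pow_left₀ (by positivity) a5 2
      _ = M ^ (2 * j) * R ^ 2 := by rw [mul_pow, ← pow_mul, mul_comm j 2]
      _ ≤ mean f ^ (2 * j) * mean f ^ 3 :=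
          mul_le_mul (pow_le_pow_left₀ hM0 hle _) a7 (by positivity) (by positivity)
      _ = mean f ^ (2 * (j + 1)) * mean f := by ring

end Pool.Agent.Lib.P325rm
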