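import Pool.Agent.Lib.P325rm.Rho
import Pool.Agent.Lib.P325rm.Small
import Pool.Agent.Lib.P325x.Oper
import Pool.Agent.Lib.P325x.Round

/-!
Module Outer (1.5h; compare the proof of noiseGame_value in the finished file P325x/KV.lean; black boxes small01, noise (in
P325x/Cube.lean), mean_prod, mean_comm, mean_equiv, cd_zero). The value of the noise game on the cosets of a code.
PROOF. Let L, L' be labelings. satFrac = mean_{x, d, r} [L x + d = L' (x + cd d + nz 1 r)]. For every g replace x by
x + cd g and d by d + g (bijections; cd (d + g) + cd g = cd d): mean over g of this gives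
satFrac = mean_{x, r} mean_g mean_d [L (x + cd g) + g = L' (x + nz 1 r + cd d) + d] (characteristic 2)
= ∑_γ mean_{x, r} φ_γ (x) ψ_γ (x + nz 1 r), φ_γ x = mean_g [L (x + cd g) + g = γ], ψ_γ x = mean_d [L' (x + cd d) + d = γ].
φ_γ has values in [0, 1] and mean_x φ_γ = mean_g mean_x [L x + g = γ] = mean_x mean_g [..] = 2^-n, same for ψ_γ. With
ρ = 1 - 2/q (0 <= ρ as 2 <= q), by noise: satFrac = ∑_γ ∑_S ρ^|S| hat φ_γ S hat ψ_γ S <= ∑_γ (Stab φ_γ + Stab ψ_γ)/2 and
Stab u <= δ/2^n by small01: Stab^(2k) <= 2^(-2kn) 2^-n <= (δ/2^n)^(2k) (k ≠ 0 because ρ^0 = 1 > 1/3). So satFrac <= δ.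
-/

open scoped BigOperators

namespace Pool.Agent.Lib.P325rm

open Pool.Agent.Lib.P325x (Pt mean hat nz)

namespace OuterAux

open Pool.Agent.Lib.P325x (mean_prod mean_comm mean_equiv mean_congr mean_const mean_sum mean_nonneg
  mean_mono mean_smul mean_mul noise)

variable {n : ℕ} {A : Type} [Fintype A] {β : ℝ}

theorem pt_self (d : Pt n) : d + d = 0 := fun_add_self d

/-- the averaged indicator of the label `γ` on the coset of `v` -/
noncomputable def lev (K : Code n A β) (L : (A → ZMod 2) → Pt n) (γ : Pt n) (v : A → ZMod 2) : ℝ :=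
  mean (fun g : Pt n => if L (v + K.cd g) + g = γ then (1 : ℝ) else 0)

theorem lev_nonneg (K : Code n A β) (L : (A → ZMod 2) → Pt n) (γ : Pt n) (v : A → ZMod 2) :
    0 ≤ lev K L γ v := by
  unfold lev
  refine mean_nonneg fun g => ?_
  split_ifs
  · exact zero_le_one
  · exact le_rfl

theorem lev_le_one (K : Code n A β) (L : (A → ZMod 2) → Pt n) (γ : Pt n) (v : A → ZMod 2) :
    lev K L γ v ≤ 1 := by
  unfold lev
  refine le_trans (mean_mono (G := fun _ : Pt n => (1 : ℝ)) fun g => ?_) (mean_const (1 : ℝ)).le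
  split_ifs
  · exact le_rfl
  · exact zero_le_one

theorem mean_lev [DecidableEq A] (K : Code n A β) (L : (A → ZMod 2) → Pt n) (γ : Pt n) :
    mean (lev K L γ) = ((2 : ℝ) ^ n)⁻¹ := by
  have h1 : mean (lev K L γ) = mean (fun g : Pt n => mean (fun v : A → ZMod 2 =>
      if L (v + K.cd g) + g = γ then (1 : ℝ) else 0)) := by
    rw [← mean_comm]
    rfl
  have h2 : ∀ g : Pt n, mean (fun v : A → ZMod 2 =>
      if L (v + K.cd g) + g = γ then (1 : ℝ) else 0) =
      mean (fun v : A → ZMod 2 => if L v + g = γ then (1 : ℝ) else 0) := fun g =>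
    mean_equiv (Equiv.addRight (K.cd g)) (fun v => if L v + g = γ then (1 : ℝ) else 0)
  have h3 : ∀ v : A → ZMod 2, mean (fun g : Pt n => if L v + g = γ then (1 : ℝ) else 0) =
      ((2 : ℝ) ^ n)⁻¹ := by
    intro v
    have h4 : ∀ g : Pt n, (if L v + g = γ then (1 : ℝ) else 0) =
        if g = γ + L v then (1 : ℝ) else 0 := by
      intro g
      have h5 : L v + g = γ ↔ g = γ + L v := by
        constructor
        · intro h
          rw [← h]
          calc g = g + (L v + L v) := by rw [pt_self, add_zero]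
            _ = _ := by abel
        · intro h
          rw [h]
          calc L v + (γ + L v) = γ + (L v + L v) := by abel
            _ = _ := by rw [pt_self, add_zero]
      simp only [h5]
    rw [mean_congr h4, mean, Finset.sum_ite_eq', if_pos (Finset.mem_univ _), Fintype.card_fun,
      ZMod.card, Fintype.card_fin, one_div]
    push_cast
    rfl
  rw [h1, mean_congr h2, mean_comm, mean_congr h3, mean_const]

theorem indic_eq (L L' : (A → ZMod 2) → Pt n) (K : Code n A β) (g d : Pt n)
    (v w : A → ZMod 2) : (if L (v + K.cd g) + (d + g) = L' (w + K.cd d) then (1 : ℝ) else 0) =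
    ∑ γ : Pt n, (if L (v + K.cd g) + g = γ then (1 : ℝ) else 0) *
      (if L' (w + K.cd d) + d = γ then (1 : ℝ) else 0) := by
  have h1 : L (v + K.cd g) + (d + g) = L' (w + K.cd d) ↔
      L' (w + K.cd d) + d = L (v + K.cd g) + g := by
    constructor
    · intro h
      rw [← h]
      calc L (v + K.cd g) + (d + g) + d = L (v + K.cd g) + g + (d + d) := by abel
        _ = _ := by rw [pt_self, add_zero]
    · intro h
      calc L (v + K.cd g) + (d + g) = L (v + K.cd g) + g + d := by abel
        _ = L' (w + K.cd d) + (d + d) := by rw [← h, add_assoc]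
        _ = _ := by rw [pt_self, add_zero]
  simp only [h1]
  rw [Finset.sum_eq_single (L (v + K.cd g) + g)]
  · simp
  · intro γ _ hγ
    rw [if_neg (Ne.symm hγ), zero_mul]
  · intro h
    exact absurd (Finset.mem_univ _) h

theorem mean_mean_mul {E E' : Type} [Fintype E] [Fintype E'] (a : E → ℝ) (b : E' → ℝ) :
    mean (fun x => mean (fun y => a x * b y)) = mean a * mean b := by
  rw [← mean_mul (mean b) a]
  exact mean_congr fun x => mean_smul (a x) b

theorem satFrac_eq [DecidableEq A] (K : Code n A β) {q : ℕ} (hq : 2 ≤ q)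
    (L L' : (A → ZMod 2) → Pt n) : (outer K q).satFrac L L' =
      ∑ γ : Pt n, ∑ S : Finset A, (1 - 2 * ((1 : ℕ) : ℝ) / q) ^ S.card *
        (hat (lev K L γ) S * hat (lev K L' γ) S) := by
  classical
  have hq0 : 0 < q := by omega
  have : NeZero q := ⟨hq0.ne'⟩
  have e1 : (outer K q).satFrac L L' = mean (fun e : (A → ZMod 2) × Pt n × (A → Fin q) =>
      if L e.1 + e.2.1 = L' (e.1 + K.cd e.2.1 + nz 1 e.2.2) then (1 : ℝ) else 0) := by
    have e0 : (outer K q).satFrac L L' = mean (fun e : (A → ZMod 2) × Pt n × (A → Fin q) =>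
        if (outer K q).perm e (L ((outer K q).src e)) = L' ((outer K q).dst e) then (1 : ℝ)
        else 0) := by
      rw [Pool.Agent.Lib.P325x.Game.satFrac, mean, Finset.sum_boole]
      congr!
    rw [e0]
    refine mean_congr fun e => ?_
    have e9 : (outer K q).perm e (L ((outer K q).src e)) = L e.1 + e.2.1 := rfl
    have e8 : (outer K q).dst e = e.1 + K.cd e.2.1 + nz 1 e.2.2 := rfl
    simp only [e9, e8]
  have e2 : (outer K q).satFrac L L' = mean (fun v : A → ZMod 2 => mean (fun d : Pt n =>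
      mean (fun r : A → Fin q =>
        if L v + d = L' (v + K.cd d + nz 1 r) then (1 : ℝ) else 0))) := by
    rw [e1, mean_prod]
    refine mean_congr fun v => ?_
    exact mean_prod _
  have e3 : ∀ g : Pt n, (outer K q).satFrac L L' = mean (fun v : A → ZMod 2 =>
      mean (fun d : Pt n => mean (fun r : A → Fin q =>
        if L (v + K.cd g) + (d + g) = L' (v + nz 1 r + K.cd d) then (1 : ℝ) else 0))) := by
    intro g
    rw [e2, ← mean_equiv (Equiv.addRight (K.cd g))]
    refine mean_congr fun v => ?_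
    rw [← mean_equiv (Equiv.addRight g)]
    refine mean_congr fun d => ?_
    refine mean_congr fun r => ?_
    have h1 : v + K.cd g + K.cd (d + g) + nz 1 r = v + nz 1 r + K.cd d := by
      rw [K.add]
      calc v + K.cd g + (K.cd d + K.cd g) + nz 1 r
          = v + nz 1 r + K.cd d + (K.cd g + K.cd g) := by abel
        _ = _ := by rw [fun_add_self, add_zero]
    simp only [Equiv.coe_addRight, h1]
  have e4 : (outer K q).satFrac L L' = mean (fun g : Pt n => mean (fun v : A → ZMod 2 =>
      mean (fun d : Pt n => mean (fun r : A → Fin q =>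
        if L (v + K.cd g) + (d + g) = L' (v + nz 1 r + K.cd d) then (1 : ℝ) else 0)))) := by
    rw [← mean_congr e3, mean_const]
  rw [e4, mean_comm]
  have e5 : ∀ v : A → ZMod 2, mean (fun g : Pt n => mean (fun d : Pt n =>
      mean (fun r : A → Fin q =>
        if L (v + K.cd g) + (d + g) = L' (v + nz 1 r + K.cd d) then (1 : ℝ) else 0))) =
      mean (fun r : A → Fin q => ∑ γ : Pt n, lev K L γ v * lev K L' γ (v + nz 1 r)) := by
    intro v
    have h1 : ∀ g : Pt n, mean (fun d : Pt n => mean (fun r : A → Fin q =>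
        if L (v + K.cd g) + (d + g) = L' (v + nz 1 r + K.cd d) then (1 : ℝ) else 0)) =
        mean (fun r : A → Fin q => mean (fun d : Pt n =>
        if L (v + K.cd g) + (d + g) = L' (v + nz 1 r + K.cd d) then (1 : ℝ) else 0)) :=
      fun g => mean_comm _
    rw [mean_congr h1, mean_comm]
    refine mean_congr fun r => ?_
    have h2 : ∀ g d : Pt n,
        (if L (v + K.cd g) + (d + g) = L' (v + nz 1 r + K.cd d) then (1 : ℝ) else 0) =
        ∑ γ : Pt n, (if L (v + K.cd g) + g = γ then (1 : ℝ) else 0) *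
          (if L' (v + nz 1 r + K.cd d) + d = γ then (1 : ℝ) else 0) := fun g d =>
      indic_eq L L' K g d v (v + nz 1 r)
    rw [mean_congr fun g => mean_congr fun d => h2 g d]
    simp only [mean_sum]
    refine Finset.sum_congr rfl fun γ _ => ?_
    exact mean_mean_mul _ _
  rw [mean_congr e5]
  simp only [mean_sum]
  exact Finset.sum_congr rfl fun γ _ => noise hq0 (by omega) (lev K L γ) (lev K L' γ)

end OuterAux

theorem outer_value {n : ℕ} {A : Type} [Fintype A] [DecidableEq A] {β : ℝ} (K : Code n A β)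
    {q : ℕ} (hq : 2 ≤ q) {k : ℕ} (hk : (1 - 2 * ((1 : ℕ) : ℝ) / q) ^ k ≤ 1 / 3) {δ : ℝ}
    (hδ : 0 ≤ δ) (hn : ((2 : ℝ) ^ n)⁻¹ ≤ δ ^ (2 * k)) : (outer K q).value ≤ δ := by
  classical
  set ρ : ℝ := 1 - 2 * ((1 : ℕ) : ℝ) / q with hρ
  have hq' : (2 : ℝ) ≤ q := by exact_mod_cast hq
  have hρ0 : 0 ≤ ρ := by
    rw [hρ, sub_nonneg, div_le_one (by linarith)]
    push_cast
    linarith
  have hk0 : k ≠ 0 := by
    rintro rfl
    norm_num at hk
  refine Pool.Agent.Lib.P325x.value_le _ fun L L' => ?_
  have hN : (0 : ℝ) < 2 ^ n := by positivity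
  have hstab : ∀ (L : (A → ZMod 2) → Pt n) (γ : Pt n),
      ∑ S, ρ ^ S.card * hat (OuterAux.lev K L γ) S ^ 2 ≤ δ / 2 ^ n := by
    intro L γ
    have h1 := small01 (OuterAux.lev_nonneg K L γ) (OuterAux.lev_le_one K L γ) hρ0 hk
    rw [OuterAux.mean_lev] at h1
    have h2 : (∑ S, ρ ^ S.card * hat (OuterAux.lev K L γ) S ^ 2) ^ (2 * k) ≤
        (δ / 2 ^ n) ^ (2 * k) := by
      refine h1.trans ?_
      rw [div_pow, div_eq_inv_mul, inv_pow]
      exact mul_le_mul_of_nonneg_left hn (by positivity)
    exact le_of_pow_le_pow_left₀ (by omega) (by positivity) h2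
  rw [OuterAux.satFrac_eq K hq L L', ← hρ]
  calc ∑ γ : Pt n, ∑ S, ρ ^ S.card *
        (hat (OuterAux.lev K L γ) S * hat (OuterAux.lev K L' γ) S)
      ≤ ∑ γ : Pt n, (∑ S, ρ ^ S.card * hat (OuterAux.lev K L γ) S ^ 2 +
          ∑ S, ρ ^ S.card * hat (OuterAux.lev K L' γ) S ^ 2) / 2 := by
        refine Finset.sum_le_sum fun γ _ => ?_
        rw [← Finset.sum_add_distrib, Finset.sum_div]
        refine Finset.sum_le_sum fun S _ => ?_
        have h3 : 0 ≤ ρ ^ S.card := by positivity
        have h4 : hat (OuterAux.lev K L γ) S * hat (OuterAux.lev K L' γ) S ≤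
            (hat (OuterAux.lev K L γ) S ^ 2 + hat (OuterAux.lev K L' γ) S ^ 2) / 2 := by
          nlinarith [sq_nonneg (hat (OuterAux.lev K L γ) S - hat (OuterAux.lev K L' γ) S)]
        calc ρ ^ S.card * (hat (OuterAux.lev K L γ) S * hat (OuterAux.lev K L' γ) S)
            ≤ ρ ^ S.card * ((hat (OuterAux.lev K L γ) S ^ 2 +
                hat (OuterAux.lev K L' γ) S ^ 2) / 2) := mul_le_mul_of_nonneg_left h4 h3
          _ = _ := by ring
    _ ≤ ∑ _γ : Pt n, δ / 2 ^ n := by
        refine Finset.sum_le_sum fun γ _ => ?_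
        have h5 := hstab L γ
        have h6 := hstab L' γ
        linarith
    _ = δ := by
        rw [Finset.sum_const, Finset.card_univ, Fintype.card_fun, ZMod.card, Fintype.card_fin,
          nsmul_eq_mul]
        push_cast
        field_simp

theorem outer_value_nonneg {n : ℕ} {A : Type} [Fintype A] [DecidableEq A] {β : ℝ}
    (K : Code n A β) (q : ℕ) : 0 ≤ (outer K q).value := by
  exact Pool.Agent.Lib.P325x.value_nonneg _

end Pool.Agent.Lib.P325rm
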