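import Pool.Agent.Lib.P325rm.Defs

/-!
Module Par (1.5h). The parameters.
PROOF. L : ℕ with (1/2)^L <= δ1, L >= 1. For j >= 2: q = ⌈64 j/ε⌉₊ + 2, n = 2 q L; q <= 64 j/ε + 3 <= (64/ε + 2) j, so n <= C2 j with
C2 = ⌈2 L (64/ε + 2)⌉₊ (a natural number). (1 - 2/q)^q <= exp (-2) <= 1/3 (one_sub_div_pow_le_exp_neg or add_one_le_exp).
(2^n)⁻¹ = ((1/2)^L)^(2q) <= δ1^(2q). 8 j/q <= ε/8. β = (1/2)^(C2 + 3) < 1/4: 2^n (2β)^j <= (2^C2 2 β)^j = (1/4)^j.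
sig n j β <= (2/β) (25/32)^(4j) + (1/4)^j <= (2/β + 1) (5/8)^j, as (25/32)^4 <= 5/8. err <= (4 + 4 + 2 (2/β + 1)) (5/8)^j, as
16/27 <= 5/8 and (113/128)^4 <= 5/8. With R = max r 2 <= r + 2 the smoothing condition is: (4 2^s)^R (2 R^2 + C3) (5/8)^j <= ε/8,
C3 = 10 + 4/β. R <= 2^R, so the left side is <= (16 2^s)^R (2 + C3) (5/8)^j. Take j = c (r + 2), c >= 1 with
16 2^s (5/8)^c <= 1/2 <= 1 and (2 + C3) 16 2^s (5/8)^c <= ε/8 (the geometric sequence tends to 0): as R <= r + 2 and 16 2^s >= 1,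
the left side is <= (2 + C3) (16 2^s (5/8)^c)^(r+2) <= (2 + C3) 16 2^s (5/8)^c <= ε/8. The conditions sig <= ε/8 and 2 (16/27)^j <= ε/8
follow from the same bound ((2/β + 1)(5/8)^j, 2 (5/8)^j <= (2 + C3) (5/8)^j). n <= C2 j = C2 c (r + 2) <= 2 C2 c (r + 1).
-/

open scoped BigOperators

namespace Pool.Agent.Lib.P325rm

namespace ParAux

theorem exp_bound (q : ℕ) (hq : 2 ≤ q) : (1 - 2 * ((1 : ℕ) : ℝ) / q) ^ q ≤ 1 / 3 := by
  have hq0 : (0 : ℝ) < q := by positivity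
  have hq2 : (2 : ℝ) ≤ q := by exact_mod_cast hq
  have h0 : 0 ≤ 1 - 2 * ((1 : ℕ) : ℝ) / q := by
    rw [sub_nonneg, div_le_one hq0]
    push_cast
    linarith
  have h1 : 1 - 2 * ((1 : ℕ) : ℝ) / q ≤ Real.exp (-(2 / q)) := by
    have := Real.add_one_le_exp (-(2 / (q : ℝ)))
    push_cast
    have e : 1 - 2 * (1 : ℝ) / q = -(2 / (q : ℝ)) + 1 := by ring
    rw [e]
    exact this
  have h2 : (1 - 2 * ((1 : ℕ) : ℝ) / q) ^ q ≤ Real.exp (-(2 / q)) ^ q := pow_le_pow_left₀ h0 h1 q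
  have h3 : Real.exp (-(2 / (q : ℝ))) ^ q = Real.exp (-2) := by
    rw [← Real.exp_nat_mul]
    congr 1
    field_simp
  have h4 : Real.exp (-2) ≤ 1 / 3 := by
    rw [Real.exp_neg, inv_eq_one_div]
    have := Real.add_one_le_exp (2 : ℝ)
    apply one_div_le_one_div_of_le (by norm_num)
    linarith
  rw [h3] at h2
  exact h2.trans h4

theorem R_le (R : ℕ) : ((R : ℕ) : ℝ) ^ 2 ≤ 4 ^ R := by
  have h : (R : ℝ) ≤ 2 ^ R := by
    have := (Nat.lt_two_pow_self (n := R)).le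
    exact_mod_cast this
  calc (R : ℝ) ^ 2 ≤ (2 ^ R) ^ 2 := pow_le_pow_left₀ (by positivity) h 2
    _ = 4 ^ R := by rw [← pow_mul, mul_comm, pow_mul]; norm_num

theorem sig_le (n j C2 : ℕ) (β : ℝ) (hβ : β = (1 / 2) ^ (C2 + 3)) (hn : n ≤ C2 * j) :
    sig n j β ≤ (2 / β + 1) * (5 / 8) ^ j := by
  have hβ0 : 0 < β := by rw [hβ]; positivity
  unfold sig
  have h1 : (25 / 32 : ℝ) ^ (4 * j) ≤ (5 / 8) ^ j := by
    rw [pow_mul]
    exact pow_le_pow_left₀ (by norm_num) (by norm_num) j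
  have h2 : (2 : ℝ) ^ n * (2 * β) ^ j ≤ (1 / 4) ^ j := by
    have h3 : (2 : ℝ) ^ n ≤ (2 ^ C2) ^ j := by
      rw [← pow_mul]
      exact pow_le_pow_right₀ (by norm_num) hn
    calc (2 : ℝ) ^ n * (2 * β) ^ j ≤ (2 ^ C2) ^ j * (2 * β) ^ j :=
          mul_le_mul_of_nonneg_right h3 (by positivity)
      _ = (2 ^ C2 * (2 * β)) ^ j := (mul_pow _ _ _).symm
      _ = (1 / 4) ^ j := by
        congr 1
        rw [hβ, pow_add, one_div, inv_pow]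
        have : (2 : ℝ) ^ C2 ≠ 0 := by positivity
        field_simp
        norm_num
  have h4 : (1 / 4 : ℝ) ^ j ≤ (5 / 8) ^ j := pow_le_pow_left₀ (by norm_num) (by norm_num) j
  have h5 : 2 / β * (25 / 32) ^ (4 * j) ≤ 2 / β * (5 / 8) ^ j :=
    mul_le_mul_of_nonneg_left h1 (by positivity)
  calc 2 / β * (25 / 32) ^ (4 * j) + 2 ^ n * (2 * β) ^ j ≤ 2 / β * (5 / 8) ^ j + (5 / 8) ^ j := by
        linarith
    _ = _ := by ring

theorem err_le (n j C2 : ℕ) (β : ℝ) (hβ : β = (1 / 2) ^ (C2 + 3)) (hn : n ≤ C2 * j) :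
    err n j β ≤ (10 + 4 / β) * (5 / 8) ^ j := by
  have h := sig_le n j C2 β hβ hn
  unfold err
  have h1 : (16 / 27 : ℝ) ^ j ≤ (5 / 8) ^ j := pow_le_pow_left₀ (by norm_num) (by norm_num) j
  have h2 : (113 / 128 : ℝ) ^ (4 * j) ≤ (5 / 8) ^ j := by
    rw [pow_mul]
    exact pow_le_pow_left₀ (by norm_num) (by norm_num) j
  have e : (10 + 4 / β) * (5 / 8) ^ j =
      4 * (5 / 8) ^ j + 4 * (5 / 8) ^ j + 2 * ((2 / β + 1) * (5 / 8 : ℝ) ^ j) := by ring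
  rw [e]
  linarith

theorem exists_pow_small (a b : ℝ) (ha : 0 < a) (hb : 0 < b) :
    ∃ c : ℕ, 1 ≤ c ∧ a * (5 / 8) ^ c ≤ b := by
  obtain ⟨c, hc⟩ := exists_pow_lt_of_lt_one (div_pos hb ha) (by norm_num : (5 / 8 : ℝ) < 1)
  refine ⟨c + 1, by omega, ?_⟩
  have h1 : (5 / 8 : ℝ) ^ (c + 1) ≤ (5 / 8) ^ c :=
    pow_le_pow_of_le_one (by norm_num) (by norm_num) (by omega)
  have h2 : (5 / 8 : ℝ) ^ (c + 1) < b / a := lt_of_le_of_lt h1 hc
  rw [lt_div_iff₀ ha] at h2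
  linarith

end ParAux

open ParAux in
theorem params (ε : ℝ) (hε : 0 < ε) (hε1 : ε ≤ 1) (δ1 : ℝ) (hδ1 : 0 < δ1) (s : ℕ) :
    ∃ β C1 : ℝ, 0 < β ∧ β < 1 / 4 ∧ 0 ≤ C1 ∧ ∀ r : ℕ, ∃ j q n : ℕ, 2 ≤ j ∧ 2 ≤ q ∧ 1 ≤ n ∧
      (1 - 2 * ((1 : ℕ) : ℝ) / q) ^ q ≤ 1 / 3 ∧ ((2 : ℝ) ^ n)⁻¹ ≤ δ1 ^ (2 * q) ∧
      sig n j β ≤ ε / 8 ∧
      4 ^ (max r 2) * ((2 : ℝ) ^ s) ^ (max r 2) *
        (2 * ((max r 2 : ℕ) : ℝ) ^ 2 * (113 / 128) ^ (4 * j) + err n j β) ≤ ε / 8 ∧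
      8 * (j : ℝ) / q ≤ ε / 8 ∧ 2 * (16 / 27 : ℝ) ^ j ≤ ε / 8 ∧ (n : ℝ) ≤ C1 * ((r : ℝ) + 1) := by
  obtain ⟨L0, hL0⟩ := exists_pow_lt_of_lt_one hδ1 (by norm_num : (1 / 2 : ℝ) < 1)
  set L : ℕ := L0 + 1 with hL
  have hLδ : (1 / 2 : ℝ) ^ L ≤ δ1 :=
    (pow_le_pow_of_le_one (by norm_num) (by norm_num) (by omega)).trans hL0.le
  set C2 : ℕ := ⌈2 * (L : ℝ) * (64 / ε + 2)⌉₊ with hC2
  set β : ℝ := (1 / 2) ^ (C2 + 3) with hβ
  have hβ0 : 0 < β := by positivity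
  have hβ1 : β < 1 / 4 := by
    have : β ≤ (1 / 2) ^ 3 := pow_le_pow_of_le_one (by norm_num) (by norm_num) (by omega)
    have e : ((1 : ℝ) / 2) ^ 3 = 1 / 8 := by norm_num
    rw [e] at this
    linarith
  clear_value β
  set C3 : ℝ := 10 + 4 / β with hC3
  have hC3' : 10 ≤ C3 := by
    have : 0 < 4 / β := by positivity
    linarith
  clear_value C3
  set G : ℝ := 16 * 2 ^ s with hG
  have hG1 : 1 ≤ G := by
    have : (1 : ℝ) ≤ 2 ^ s := one_le_pow₀ (by norm_num)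
    linarith
  clear_value G
  obtain ⟨c, hc1, hc⟩ := exists_pow_small ((2 + C3) * G) (ε / 8) (by positivity) (by positivity)
  have hx0 : 0 ≤ G * (5 / 8) ^ c := by positivity
  have hx1 : G * (5 / 8) ^ c ≤ 1 := by
    have h1 : 1 * (G * (5 / 8) ^ c) ≤ (2 + C3) * (G * (5 / 8) ^ c) :=
      mul_le_mul_of_nonneg_right (by linarith) hx0
    have h2 : (2 + C3) * (G * (5 / 8) ^ c) = (2 + C3) * G * (5 / 8) ^ c := by ring
    linarith
  refine ⟨β, 2 * (C2 : ℝ) * c, hβ0, hβ1, by positivity, ?_⟩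
  intro r
  set j : ℕ := c * (r + 2) with hj
  set q : ℕ := ⌈64 * (j : ℝ) / ε⌉₊ + 2 with hq
  set n : ℕ := 2 * q * L with hn
  have hj2 : 2 ≤ j := by
    calc 2 = 1 * 2 := by norm_num
      _ ≤ c * (r + 2) := Nat.mul_le_mul hc1 (by omega)
  have hjr : (2 : ℝ) ≤ j := by exact_mod_cast hj2
  have hq2 : 2 ≤ q := by omega
  have hqr : (0 : ℝ) < q := by positivity
  have hqlow : 64 * (j : ℝ) / ε ≤ q := by
    rw [hq]
    push_cast
    have := Nat.le_ceil (64 * (j : ℝ) / ε)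
    linarith
  have hqup : (q : ℝ) ≤ (64 / ε + 2) * j := by
    rw [hq]
    push_cast
    have := Nat.ceil_lt_add_one (show 0 ≤ 64 * (j : ℝ) / ε by positivity)
    have e : (64 / ε + 2) * (j : ℝ) = 64 * (j : ℝ) / ε + 2 * j := by ring
    rw [e]
    linarith
  have hnr : (n : ℝ) ≤ (C2 : ℝ) * j := by
    rw [hn]
    push_cast
    have h1 : 2 * (L : ℝ) * (64 / ε + 2) ≤ C2 := Nat.le_ceil _
    have h2 : 2 * (q : ℝ) * L ≤ 2 * (L : ℝ) * ((64 / ε + 2) * j) := by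
      have : (0 : ℝ) ≤ 2 * (L : ℝ) := by positivity
      nlinarith
    have h3 : 2 * (L : ℝ) * ((64 / ε + 2) * j) = (2 * (L : ℝ) * (64 / ε + 2)) * j := by ring
    have h4 : (2 * (L : ℝ) * (64 / ε + 2)) * j ≤ (C2 : ℝ) * j :=
      mul_le_mul_of_nonneg_right h1 (by positivity)
    linarith
  have hnn : n ≤ C2 * j := by exact_mod_cast hnr
  have hsig := sig_le n j C2 β hβ hnn
  have herr := err_le n j C2 β hβ hnn
  rw [← hC3] at herr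
  clear_value n q j
  have hpow : (5 / 8 : ℝ) ^ j = ((5 / 8) ^ c) ^ (r + 2) := by rw [hj, pow_mul]
  have hmain : (2 + C3) * (G * (5 / 8) ^ c) ^ (r + 2) ≤ ε / 8 := by
    have h1 : (G * (5 / 8) ^ c) ^ (r + 2) ≤ G * (5 / 8) ^ c := by
      calc (G * (5 / 8) ^ c) ^ (r + 2) ≤ (G * (5 / 8) ^ c) ^ 1 :=
            pow_le_pow_of_le_one hx0 hx1 (by omega)
        _ = _ := pow_one _
    calc (2 + C3) * (G * (5 / 8) ^ c) ^ (r + 2) ≤ (2 + C3) * (G * (5 / 8) ^ c) :=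
          mul_le_mul_of_nonneg_left h1 (by linarith)
      _ = (2 + C3) * G * (5 / 8) ^ c := by ring
      _ ≤ ε / 8 := hc
  have hmain2 : (2 + C3) * (5 / 8) ^ j ≤ ε / 8 := by
    refine le_trans ?_ hmain
    apply mul_le_mul_of_nonneg_left _ (by linarith)
    rw [mul_pow, hpow]
    have : 1 ≤ G ^ (r + 2) := one_le_pow₀ hG1
    have h0 : (0 : ℝ) ≤ ((5 / 8) ^ c) ^ (r + 2) := by positivity
    nlinarith
  have hp0 : (0 : ℝ) ≤ (5 / 8) ^ j := by positivity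
  refine ⟨j, q, n, hj2, hq2, ?_, exp_bound q hq2, ?_, ?_, ?_, ?_, ?_, ?_⟩
  · rw [hn]
    have : 1 ≤ L := by omega
    nlinarith
  · rw [hn, mul_comm, pow_mul, ← inv_pow, ← inv_pow, inv_eq_one_div]
    exact pow_le_pow_left₀ (by positivity) hLδ _
  · refine hsig.trans (le_trans ?_ hmain2)
    apply mul_le_mul_of_nonneg_right _ hp0
    have e : 4 / β = 2 * (2 / β) := by ring
    have : 0 < 2 / β := by positivity
    rw [hC3, e]
    linarith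
  · set R : ℕ := max r 2 with hR
    have hRr : R ≤ r + 2 := by omega
    have h2 : (113 / 128 : ℝ) ^ (4 * j) ≤ (5 / 8) ^ j := by
      rw [pow_mul]
      exact pow_le_pow_left₀ (by norm_num) (by norm_num) j
    have hRR := R_le R
    have h4R : (1 : ℝ) ≤ 4 ^ R := one_le_pow₀ (by norm_num)
    have h3 : 2 * ((R : ℕ) : ℝ) ^ 2 * (113 / 128) ^ (4 * j) + err n j β ≤
        (2 + C3) * 4 ^ R * (5 / 8) ^ j := by
      have h5 : 2 * ((R : ℕ) : ℝ) ^ 2 * (113 / 128) ^ (4 * j) ≤ 2 * 4 ^ R * (5 / 8) ^ j :=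
        mul_le_mul (by linarith) h2 (by positivity) (by positivity)
      have h6 : err n j β ≤ C3 * 4 ^ R * (5 / 8) ^ j := by
        refine herr.trans ?_
        apply mul_le_mul_of_nonneg_right _ hp0
        exact le_mul_of_one_le_right (by linarith) h4R
      calc _ ≤ 2 * 4 ^ R * (5 / 8) ^ j + C3 * 4 ^ R * (5 / 8) ^ j := add_le_add h5 h6
        _ = _ := by ring
    have h7 : (0 : ℝ) ≤ 4 ^ R * ((2 : ℝ) ^ s) ^ R := by positivity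
    refine (mul_le_mul_of_nonneg_left h3 h7).trans (le_trans ?_ hmain)
    have e1 : 4 ^ R * ((2 : ℝ) ^ s) ^ R * ((2 + C3) * 4 ^ R * (5 / 8) ^ j) =
        (2 + C3) * (G ^ R * (5 / 8) ^ j) := by
      have : G ^ R = 4 ^ R * 4 ^ R * ((2 : ℝ) ^ s) ^ R := by
        rw [hG, ← mul_pow, ← mul_pow]
        norm_num
      rw [this]
      ring
    rw [e1]
    apply mul_le_mul_of_nonneg_left _ (by linarith)
    have e2 : (G * (5 / 8) ^ c) ^ (r + 2) = G ^ (r + 2) * ((5 / 8) ^ c) ^ (r + 2) := mul_pow _ _ _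
    rw [e2, hpow]
    exact mul_le_mul_of_nonneg_right (pow_le_pow_right₀ hG1 hRr) (by positivity)
  · have h1 : 64 * (j : ℝ) ≤ q * ε := (div_le_iff₀ hε).1 hqlow
    have h2 : 8 * (j : ℝ) ≤ ε / 8 * q := by linarith
    exact (div_le_iff₀ hqr).2 h2
  · refine le_trans ?_ hmain2
    have h1 : (16 / 27 : ℝ) ^ j ≤ (5 / 8) ^ j := pow_le_pow_left₀ (by norm_num) (by norm_num) j
    exact mul_le_mul (by linarith) h1 (by positivity) (by linarith)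
  · refine hnr.trans ?_
    rw [hj]
    push_cast
    have h1 : (0 : ℝ) ≤ (C2 : ℝ) * c := by positivity
    have h2 : (0 : ℝ) ≤ (r : ℝ) := by positivity
    calc (C2 : ℝ) * ((c : ℝ) * ((r : ℝ) + 2)) = ((C2 : ℝ) * c) * ((r : ℝ) + 2) := by ring
      _ ≤ ((C2 : ℝ) * c) * (2 * ((r : ℝ) + 1)) := mul_le_mul_of_nonneg_left (by linarith) h1
      _ = _ := by ring

end Pool.Agent.Lib.P325rm
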