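import Pool.Agent.Lib.P325sdp.Defs

/-!
Module Tr (0.5h; the finished file P325sdp/Tr.lean with general labels and constraints, and the number of vertices).
Transfer of a game and a functional along an equivalence of the vertex sets. PROOF. See P325sdp/Tr.lean.
-/

open scoped BigOperators

namespace Pool.Agent.Lib.P325rm

open Pool.Agent.Lib.P325x (Game)
open Pool.Agent.Lib.P325h (IsLocalExpectation)
open Pool.Agent.Lib.P325sdp (MomentPSD)

theorem transfer {U ι Ω : Type} [Fintype U] [DecidableEq U] [Fintype ι] [Fintype Ω] [Nonempty Ω]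
    (r : ℕ) (src dst : ι → U) (perm : ι → Equiv.Perm Ω) (δ s : ℝ)
    (hval : (Game.mk src dst perm).value ≤ δ)
    (E : ((U ⊕ U → Ω) → ℝ) →ₗ[ℝ] ℝ) (hE : IsLocalExpectation r E) (hP : MomentPSD E)
    (hs : s ≤ E (fun z => (Game.mk src dst perm).satFrac
      (fun u => z (Sum.inl u)) (fun w => z (Sum.inr w)))) :
    ∃ (src' dst' : ι → Fin (Fintype.card U))
      (E' : ((Fin (Fintype.card U) ⊕ Fin (Fintype.card U) → Ω) → ℝ) →ₗ[ℝ] ℝ),
      (Game.mk src' dst' perm).value ≤ δ ∧
      IsLocalExpectation r E' ∧ MomentPSD E' ∧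
      s ≤ E' (fun z => (Game.mk src' dst' perm).satFrac
        (fun u => z (Sum.inl u)) (fun w => z (Sum.inr w))) := by
  classical
  obtain ⟨e⟩ : Nonempty (U ≃ Fin (Fintype.card U)) := ⟨Fintype.equivFin U⟩
  set N := Fintype.card U with hN
  have hsat : ∀ (x y : Fin N → Ω),
      (Game.mk (fun i => e (src i)) (fun i => e (dst i)) perm).satFrac x y =
        (Game.mk src dst perm).satFrac (fun u => x (e u)) (fun u => y (e u)) :=
    fun x y => rfl
  refine ⟨fun i => e (src i), fun i => e (dst i),
    E.comp (LinearMap.funLeft ℝ ℝ (fun (z : U ⊕ U → Ω) (p : Fin N ⊕ Fin N) =>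
      z (Sum.map e.symm e.symm p))), ?_, ⟨?_, ?_⟩, ?_, ?_⟩
  · refine le_trans ?_ hval
    unfold Game.value
    refine ciSup_le fun p => ?_
    rw [hsat]
    exact le_ciSup (f := fun p : (U → Ω) × (U → Ω) =>
      (Game.mk src dst perm).satFrac p.1 p.2)
      (Set.finite_range _).bddAbove (fun u => p.1 (e u), fun u => p.2 (e u))
  · exact hE.one
  · intro f D hD hf hf0
    refine hE.nonneg _ (D.image (Sum.map e.symm e.symm)) (Finset.card_image_le.trans hD) ?_
      (fun z => hf0 _)
    intro x y hxy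
    exact hf fun p hp => hxy _ (Finset.mem_coe.2 (Finset.mem_image_of_mem _ (Finset.mem_coe.1 hp)))
  · intro c h
    have h1 := hP c (fun q => h (Sum.map e e q))
    have h2 : (fun z : U ⊕ U → Ω => (c + ∑ q, h (Sum.map e e q) (z q)) ^ 2) =
        fun z : U ⊕ U → Ω => (c + ∑ p, h p (z (Sum.map e.symm e.symm p))) ^ 2 := by
      funext z
      congr 2
      refine Fintype.sum_equiv (Equiv.sumCongr e e) _ _ fun q => ?_
      rcases q with q | q <;> simp
    rw [h2] at h1
    exact h1
  · refine hs.trans (le_of_eq ?_)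
    show E _ = E _
    congr 1
    funext z
    show _ = (Game.mk (fun i => e (src i)) (fun i => e (dst i)) perm).satFrac
      (fun u => z (Sum.inl (e.symm u))) (fun w => z (Sum.inr (e.symm w)))
    rw [hsat]
    simp only [Equiv.symm_apply_apply]

end Pool.Agent.Lib.P325rm
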