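import Pool.Agent.Lib.P325rm.CodeEx
import Pool.Agent.Lib.P325rm.Fam
import Pool.Agent.Lib.P325rm.ObjR
import Pool.Agent.Lib.P325rm.Outer
import Pool.Agent.Lib.P325rm.Par
import Pool.Agent.Lib.P325rm.Tr
import Pool.Agent.Lib.P325rc.Card
import Pool.Agent.Lib.P325rc.Sound

/-!
P325rm: the base family of quasi-polynomial quality. For all positive `ε` and `δ` there are a number
`m`, an exponent `a` and a constant `C` such that for every `r` some unique game with constraints in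
`(ZMod 2)^m`, on `n ≤ exp (C (r + 1) ^ a)` vertices on each side, has value at most `δ` and a
Sherali-Adams solution of degree `r` with positive semidefinite second moments of value at least
`1 - ε`.
-/

open scoped BigOperators

namespace Pool.Agent.Lib.P325rm

open Pool.Agent.Lib.P325x (Game Pt nz)
open Pool.Agent.Lib.P325h (IsLocalExpectation)
open Pool.Agent.Lib.P325sdp (MomentPSD)
open Pool.Agent.Lib.P325rc (Tb Nz nzT shT codeGame sndR card_tb)

namespace BaseQAux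

/-- Satisfied fractions as averages of indicators, under a linear functional. -/
theorem E_satFrac {U W Ω ι Z : Type} [Fintype ι] [DecidableEq Ω] (I : Game U W Ω ι)
    (E : (Z → ℝ) →ₗ[ℝ] ℝ) (x : Z → U → Ω) (y : Z → W → Ω) :
    E (fun z => I.satFrac (x z) (y z)) =
      (∑ e, E (fun z => if I.perm e (x z (I.src e)) = y z (I.dst e) then (1 : ℝ) else 0)) /
        (Fintype.card ι : ℝ) := by
  have h1 : (fun z => I.satFrac (x z) (y z)) = ((Fintype.card ι : ℝ)⁻¹) •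
      ∑ e, (fun z => if I.perm e (x z (I.src e)) = y z (I.dst e) then (1 : ℝ) else 0) := by
    funext z
    rw [Pi.smul_apply, Finset.sum_apply, smul_eq_mul, Finset.sum_boole, Game.satFrac,
      div_eq_inv_mul]
    congr!
  rw [h1, map_smul, map_sum, smul_eq_mul, div_eq_inv_mul]

theorem final_ineq (ε κ a b c : ℝ) (hε0 : 0 ≤ ε) (hε1 : ε ≤ 1) (hκ : κ = ε / 8) (ha : a ≤ ε / 8)
    (hb : b ≤ ε / 8) (hc : c ≤ ε / 8) :
    1 - ε ≤ (1 - κ) * ((1 - κ) * (1 - a) * (1 - b - c)) := by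
  have h1 : 1 - ε / 4 ≤ 1 - b - c := by linarith
  have h2 : 1 - ε / 8 ≤ 1 - a := by linarith
  have hp : 0 ≤ 1 - ε / 8 := by linarith
  have hp4 : 0 ≤ 1 - ε / 4 := by linarith
  have h3 : (1 - ε / 8) * (1 - ε / 4) ≤ (1 - a) * (1 - b - c) :=
    mul_le_mul h2 h1 hp4 (by linarith)
  have h4 : 1 - ε / 8 - ε / 4 ≤ (1 - ε / 8) * (1 - ε / 4) := by nlinarith [mul_nonneg hε0 hε0]
  have h5 : 1 - ε / 4 ≤ (1 - ε / 8) * (1 - ε / 8) := by nlinarith [mul_nonneg hε0 hε0]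
  have h6 : (1 - ε / 4) * (1 - ε / 8 - ε / 4) ≤
      ((1 - ε / 8) * (1 - ε / 8)) * ((1 - a) * (1 - b - c)) :=
    mul_le_mul h5 (h4.trans h3) (by linarith) (by positivity)
  have h7 : 1 - ε ≤ (1 - ε / 4) * (1 - ε / 8 - ε / 4) := by nlinarith [mul_nonneg hε0 hε0]
  calc 1 - ε ≤ ((1 - ε / 8) * (1 - ε / 8)) * ((1 - a) * (1 - b - c)) := h7.trans h6
    _ = _ := by rw [hκ]; ring

/-- The number of vertices. -/
theorem size_le (n d s : ℕ) {A : Type} [Fintype A] [DecidableEq A] (C C1 : ℝ) (r : ℕ) (hC : 0 ≤ C)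
    (hC1 : 0 ≤ C1) (hA : (Fintype.card A : ℝ) ≤ C * (n : ℝ) ^ 2)
    (hn : (n : ℝ) ≤ C1 * ((r : ℝ) + 1)) :
    ((Fintype.card ((A → ZMod 2) × Tb n d s) : ℕ) : ℝ) ≤
      Real.exp ((C * C1 ^ 2 + s * (C1 + 1) ^ d) * ((r : ℝ) + 1) ^ (d + 2)) := by
  have hr : (1 : ℝ) ≤ (r : ℝ) + 1 := by
    have : (0 : ℝ) ≤ r := Nat.cast_nonneg _
    linarith
  have h1 : Fintype.card ((A → ZMod 2) × Tb n d s) ≤ 2 ^ (Fintype.card A + s * (n + 1) ^ d) := by
    rw [Fintype.card_prod, Fintype.card_fun, ZMod.card, pow_add]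
    exact Nat.mul_le_mul_left _ (card_tb n d s)
  have h2 : ((Fintype.card ((A → ZMod 2) × Tb n d s) : ℕ) : ℝ) ≤
      (2 : ℝ) ^ (Fintype.card A + s * (n + 1) ^ d) := by exact_mod_cast h1
  have h3 : (2 : ℝ) ^ (Fintype.card A + s * (n + 1) ^ d) ≤
      Real.exp 1 ^ (Fintype.card A + s * (n + 1) ^ d) := by
    refine pow_le_pow_left₀ (by norm_num) ?_ _
    have := Real.add_one_le_exp (1 : ℝ)
    linarith
  have h4 : ((Fintype.card A + s * (n + 1) ^ d : ℕ) : ℝ) ≤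
      (C * C1 ^ 2 + s * (C1 + 1) ^ d) * ((r : ℝ) + 1) ^ (d + 2) := by
    push_cast
    have h5 : (Fintype.card A : ℝ) ≤ C * C1 ^ 2 * ((r : ℝ) + 1) ^ (d + 2) := by
      calc (Fintype.card A : ℝ) ≤ C * (n : ℝ) ^ 2 := hA
        _ ≤ C * (C1 * ((r : ℝ) + 1)) ^ 2 := by gcongr
        _ = C * C1 ^ 2 * ((r : ℝ) + 1) ^ 2 := by ring
        _ ≤ C * C1 ^ 2 * ((r : ℝ) + 1) ^ (d + 2) := by
          refine mul_le_mul_of_nonneg_left ?_ (by positivity)
          exact pow_le_pow_right₀ hr (by omega)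
    have h6 : (s : ℝ) * ((n : ℝ) + 1) ^ d ≤ s * (C1 + 1) ^ d * ((r : ℝ) + 1) ^ (d + 2) := by
      have h7 : (n : ℝ) + 1 ≤ (C1 + 1) * ((r : ℝ) + 1) := by nlinarith
      calc (s : ℝ) * ((n : ℝ) + 1) ^ d ≤ s * ((C1 + 1) * ((r : ℝ) + 1)) ^ d := by gcongr
        _ = s * (C1 + 1) ^ d * ((r : ℝ) + 1) ^ d := by rw [mul_pow]; ring
        _ ≤ s * (C1 + 1) ^ d * ((r : ℝ) + 1) ^ (d + 2) := by
          refine mul_le_mul_of_nonneg_left ?_ (by positivity)
          exact pow_le_pow_right₀ hr (by omega)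
    calc (Fintype.card A : ℝ) + s * ((n : ℝ) + 1) ^ d ≤ _ := add_le_add h5 h6
      _ = _ := by ring
  calc ((Fintype.card ((A → ZMod 2) × Tb n d s) : ℕ) : ℝ) ≤ _ := h2.trans h3
    _ = Real.exp ((Fintype.card A + s * (n + 1) ^ d : ℕ) : ℝ) := by
      rw [← Real.exp_nat_mul, mul_one]
    _ ≤ _ := Real.exp_le_exp.2 h4

end BaseQAux

open BaseQAux

theorem baseQ (ε δ : ℝ) (hε : 0 < ε) (hδ : 0 < δ) : ∃ (s a : ℕ) (C : ℝ), ∀ r : ℕ,
    ∃ (n : ℕ) (ι : Type) (_ : Fintype ι) (src dst : ι → Fin n) (b : ι → Pt s)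
      (E : ((Fin n ⊕ Fin n → Pt s) → ℝ) →ₗ[ℝ] ℝ), Nonempty ι ∧
      (n : ℝ) ≤ Real.exp (C * ((r : ℝ) + 1) ^ a) ∧
      (Game.mk src dst (fun e => Equiv.addRight (b e))).value ≤ δ ∧
      IsLocalExpectation r E ∧ MomentPSD E ∧
      1 - ε ≤ E (fun z => (Game.mk src dst (fun e => Equiv.addRight (b e))).satFrac
        (fun u => z (Sum.inl u)) (fun w => z (Sum.inr w))) := by
  classical
  set ε' : ℝ := min ε 1 with hε'
  have hε0 : 0 < ε' := lt_min hε one_pos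
  have hε1 : ε' ≤ 1 := min_le_right _ _
  have hεε : 1 - ε ≤ 1 - ε' := by linarith [min_le_left ε 1]
  set t : ℕ := ⌈8 / ε'⌉₊ with ht
  have ht4 : 8 / ε' ≤ (t : ℝ) := Nat.le_ceil _
  have ht0 : (0 : ℝ) < t := lt_of_lt_of_le (by positivity) ht4
  have ht1 : 1 ≤ t := by exact_mod_cast ht0
  have hta : 1 / (t : ℝ) ≤ ε' / 8 := by
    rw [div_le_iff₀ ht0]
    rw [div_le_iff₀ hε0] at ht4
    linarith
  obtain ⟨s, d, m, Mb, hs1, hm1, hmd, hM⟩ := sndR t ht1 δ hδ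
  have hM0 : 0 ≤ |Mb| := abs_nonneg Mb
  set δ1 : ℝ := δ / (2 * (|Mb| + 1)) with hδ1
  have hδ10 : 0 < δ1 := by positivity
  obtain ⟨β, C1, hβ0, hβ1, hC1, hpar⟩ := params ε' hε0 hε1 δ1 hδ10 s
  obtain ⟨C, hC0, hcode⟩ := code_ex β hβ0
  refine ⟨s, d + 2, C * C1 ^ 2 + s * (C1 + 1) ^ d, fun r => ?_⟩
  obtain ⟨j, q, n, hj, hq, hn1, hk, hn, hsig, hsm, hjq, h16, hnr⟩ := hpar r
  obtain ⟨A, _, _, hAne, hA, ⟨K⟩⟩ := hcode n hn1
  have hval1 : (outer K q).value ≤ δ1 := outer_value K hq hk hδ10.le hn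
  have hval2 : 0 ≤ (outer K q).value := outer_value_nonneg K q
  have hq0 : NeZero q := ⟨by omega⟩
  have hE : Nonempty ((A → ZMod 2) × Pt n × (A → Fin q)) := inferInstance
  have hJ : (codeGame n d s m (outer K q).src (outer K q).dst
      (fun e : (A → ZMod 2) × Pt n × (A → Fin q) => e.2.1)).value ≤ δ := by
    refine (hM n _ _ _ (outer K q).src (outer K q).dst
      (fun e : (A → ZMod 2) × Pt n × (A → Fin q) => e.2.1)).trans ?_
    have e1 : (Game.mk (outer K q).src (outer K q).dst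
      (fun e : (A → ZMod 2) × Pt n × (A → Fin q) => Equiv.addRight e.2.1)) = outer K q := rfl
    rw [e1]
    have h1 : Mb * (outer K q).value ≤ |Mb| * δ1 := mul_le_mul (le_abs_self Mb) hval1 hval2 hM0
    have h2 : |Mb| * δ1 ≤ δ / 2 := by
      rw [hδ1, mul_div_assoc', div_le_div_iff₀ (by positivity) (by norm_num)]
      nlinarith
    linarith
  set κ : ℝ := ε' / 8 with hκ
  have hκ0 : 0 ≤ κ := by positivity
  have hκ1 : κ ≤ 1 := by rw [hκ]; linarith
  have hcard : (Fintype.card (Pt s) : ℝ) = 2 ^ s := by simp [Pt, ZMod.card]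
  obtain ⟨E, hE1, hE2, hE3⟩ := fam K hβ0 hβ1
    (V := ((A → ZMod 2) × Tb n d s) ⊕ ((A → ZMod 2) × Tb n d s)) (Ω := Pt s)
    (Sum.elim Prod.fst Prod.fst) (Sum.elim (fun u => u.2.1) (fun u => u.2.1)) (max r 2) j
    (le_max_right _ _) hj κ κ hκ0 hκ1 hsig hκ1 (by rw [hcard]; exact hsm)
  have hmd1 : (m : ℝ) / 2 ^ d ≤ 1 := hmd.trans (hta.trans (by linarith))
  have hobj := obj K hβ0 hβ1 κ hκ0 hκ1 j hj hsig q hq d s m hmd1
  set J := codeGame n d s m (outer K q).src (outer K q).dst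
      (fun e : (A → ZMod 2) × Pt n × (A → Fin q) => e.2.1) with hJdef
  have hne : Nonempty (((A → ZMod 2) × Pt n × (A → Fin q)) × Pt s × Tb n d s × Nz n d s m) := by
    infer_instance
  have hsat : 1 - ε ≤ E (fun z => (Game.mk J.src J.dst
      (fun e => Equiv.addRight e.2.1)).satFrac (fun u => z (Sum.inl u)) (fun w => z (Sum.inr w))) := by
    rw [E_satFrac]
    have hcp : (0 : ℝ) < (Fintype.card (((A → ZMod 2) × Pt n × (A → Fin q)) × Pt s × Tb n d s ×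
        Nz n d s m) : ℝ) := by
      exact_mod_cast Fintype.card_pos
    rw [le_div_iff₀ hcp]
    refine le_trans ?_ (Finset.sum_le_sum fun e _ => hE3 (Sum.inl (J.src e)) (Sum.inr (J.dst e))
      (fun z => if (Equiv.addRight e.2.1) (z (Sum.inl (J.src e))) = z (Sum.inr (J.dst e))
        then (1 : ℝ) else 0) ?_ ?_)
    · rw [← Finset.mul_sum]
      refine le_trans ?_ (mul_le_mul_of_nonneg_left hobj (by rw [hκ]; linarith))
      rw [← mul_assoc]
      refine mul_le_mul_of_nonneg_right ?_ hcp.le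
      exact hεε.trans (final_ineq ε' κ _ _ _ hε0.le hε1 hκ (hmd.trans hta) hjq h16)
    · intro z z' hzz'
      have h1 : z (Sum.inl (J.src e)) = z' (Sum.inl (J.src e)) := hzz' _ (by simp)
      have h2 : z (Sum.inr (J.dst e)) = z' (Sum.inr (J.dst e)) := hzz' _ (by simp)
      simp only [h1, h2]
    · intro z
      split_ifs
      · exact zero_le_one
      · exact le_rfl
  obtain ⟨src', dst', E', g1, g2, g3, g4⟩ := transfer (Ω := Pt s) r J.src J.dst
    (fun e => Equiv.addRight e.2.1) δ (1 - ε) hJ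
    E ⟨hE1.one, fun f D hD => hE1.nonneg f D (hD.trans (le_max_left _ _))⟩ hE2 hsat
  exact ⟨_, _, inferInstance, src', dst', (fun e => e.2.1), E', hne,
    size_le n d s C C1 r hC0 hC1 hA hnr, g1, g2, g3, g4⟩

end Pool.Agent.Lib.P325rm
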