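import Pool.Agent.Lib.P325rm.Defs

/-!
Module CodeEx (1.5h). Codes with small bias and few coordinates (Alon, Goldreich, Hastad, Peralta).
PROOF. Given n >= 1 let u >= 1 be minimal with n/β <= 2^u, so 2^u <= 2 n/β + 2 <= (2/β + 2) n. F = GaloisField 2 u, a finite
field with q' = 2^u elements and characteristic 2 (Algebra (ZMod 2) F), λ : F →ₗ[ZMod 2] ZMod 2 with λ 1 ≠ 0
(Module.forall_dual_apply_eq_zero_iff or the separating dual). A = F × F. For d : Pt n let P_d = ∑_i C (d i) X^i : F[X]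
(algebraMap (ZMod 2) F (d i)), additive in d. cd d (a, c) = λ (c * P_d.eval a). add: linearity.
bias: let d ≠ 0, then P_d ≠ 0 of degree < n (coefficients algebraMap (d i), injective). ∑_{(a,c)} sg (λ (c P_d(a))) =
∑_a [P_d(a) = 0] q' + ∑_{a, P_d(a) ≠ 0} ∑_c sg (λ c) (c ↦ c P_d(a) is a bijection) and ∑_c sg (λ c) = 0 (translate by an
element e with λ e = 1: the sum is minus itself; e = 1 works as λ 1 ≠ 0). So 0 <= rho = #roots/q' <= n/q' <= β
(Polynomial.card_roots'). Size: |A| = q'^2 <= (2/β + 2)^2 n^2.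
-/

open scoped BigOperators

namespace Pool.Agent.Lib.P325rm

open Pool.Agent.Lib.P325x (Pt sg)

namespace CodeExAux

open Polynomial Pool.Agent.Lib.P325x

section field

variable {F : Type} [Field F] [Algebra (ZMod 2) F]

/-- The polynomial with the coefficients `d`. -/
noncomputable def pol (F : Type) [Field F] [Algebra (ZMod 2) F] {n : ℕ} (d : Pt n) : F[X] :=
  ∑ i : Fin n, C (algebraMap (ZMod 2) F (d i)) * X ^ (i : ℕ)

theorem pol_add {n : ℕ} (d d' : Pt n) : pol F (d + d') = pol F d + pol F d' := by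
  unfold pol
  rw [← Finset.sum_add_distrib]
  refine Finset.sum_congr rfl fun i _ => ?_
  rw [Pi.add_apply, map_add, map_add, add_mul]

theorem pol_ne {n : ℕ} {d : Pt n} (hd : d ≠ 0) : pol F d ≠ 0 := by
  obtain ⟨i, hi⟩ := Function.ne_iff.1 hd
  intro h
  have h1 : (pol F d).coeff (i : ℕ) = algebraMap (ZMod 2) F (d i) := by
    unfold pol
    rw [finsetSum_coeff]
    simp only [coeff_C_mul, coeff_X_pow]
    rw [Finset.sum_eq_single i]
    · simp
    · intro j _ hj
      have : ¬ ((i : ℕ) = (j : ℕ)) := fun h => hj (Fin.ext h.symm)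
      simp [this]
    · intro h
      exact absurd (Finset.mem_univ i) h
  rw [h, coeff_zero] at h1
  apply hi
  have h2 : algebraMap (ZMod 2) F (d i) = 0 := h1.symm
  exact (map_eq_zero (algebraMap (ZMod 2) F)).1 h2

theorem roots_le [Fintype F] {n : ℕ} {d : Pt n} (hd : d ≠ 0) [DecidableEq F] :
    (Finset.univ.filter (fun a : F => (pol F d).eval a = 0)).card ≤ n := by
  have h0 := pol_ne (F := F) hd
  have h1 : (Finset.univ.filter (fun a : F => (pol F d).eval a = 0)) ⊆ (pol F d).roots.toFinset := by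
    intro a ha
    rw [Finset.mem_filter] at ha
    rw [Multiset.mem_toFinset, mem_roots h0]
    exact ha.2
  have h2 : (pol F d).natDegree < n := by
    rw [Polynomial.natDegree_lt_iff_degree_lt h0]
    exact Polynomial.degree_sum_fin_lt (fun i => algebraMap (ZMod 2) F (d i))
  calc (Finset.univ.filter (fun a : F => (pol F d).eval a = 0)).card
      ≤ (pol F d).roots.toFinset.card := Finset.card_le_card h1
    _ ≤ Multiset.card (pol F d).roots := Multiset.toFinset_card_le _
    _ ≤ (pol F d).natDegree := (pol F d).card_roots'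
    _ ≤ n := h2.le

theorem sum_sg_zero [Fintype F] (l : F →ₗ[ZMod 2] ZMod 2) (hl : l 1 = 1) : ∑ c : F, sg (l c) = 0 := by
  have h1 : ∑ c : F, sg (l (c + 1)) = ∑ c : F, sg (l c) :=
    Equiv.sum_comp (Equiv.addRight (1 : F)) (fun c => sg (l c))
  have h2 : ∑ c : F, sg (l (c + 1)) = - ∑ c : F, sg (l c) := by
    rw [← Finset.sum_neg_distrib]
    refine Finset.sum_congr rfl fun c _ => ?_
    rw [map_add, hl, sg_add, sg_one]
    ring
  linarith

theorem sum_inner [Fintype F] (l : F →ₗ[ZMod 2] ZMod 2) (hl : l 1 = 1) (b : F) [DecidableEq F] :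
    ∑ c : F, sg (l (c * b)) = if b = 0 then (Fintype.card F : ℝ) else 0 := by
  by_cases hb : b = 0
  · rw [if_pos hb, hb]
    simp [sg_zero]
  · rw [if_neg hb, ← sum_sg_zero l hl]
    exact Equiv.sum_comp (Equiv.mulRight₀ b hb) (fun c => sg (l c))

theorem rho_eq [Fintype F] {n : ℕ} (l : F →ₗ[ZMod 2] ZMod 2) (hl : l 1 = 1) (d : Pt n) [DecidableEq F] :
    rho (fun p : F × F => l (p.2 * (pol F d).eval p.1)) =
      ((Finset.univ.filter (fun a : F => (pol F d).eval a = 0)).card : ℝ) / (Fintype.card F : ℝ) := by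
  unfold rho
  rw [Fintype.sum_prod_type]
  simp only [sum_inner l hl]
  rw [← Finset.sum_filter, Finset.sum_const, nsmul_eq_mul, Fintype.card_prod]
  have h0 : (Fintype.card F : ℝ) ≠ 0 := by
    have : 0 < Fintype.card F := Fintype.card_pos
    positivity
  push_cast
  field_simp

end field

end CodeExAux

open CodeExAux

theorem code_ex (β : ℝ) (hβ : 0 < β) : ∃ C : ℝ, 0 ≤ C ∧ ∀ n : ℕ, 1 ≤ n →
    ∃ (A : Type) (_ : Fintype A) (_ : DecidableEq A), Nonempty A ∧
      (Fintype.card A : ℝ) ≤ C * (n : ℝ) ^ 2 ∧ Nonempty (Code n A β) := by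
  classical
  refine ⟨4 * (1 / β + 1) ^ 2, by positivity, ?_⟩
  intro n hn
  have hn1 : (1 : ℝ) ≤ n := by exact_mod_cast hn
  obtain ⟨N, hN⟩ : ∃ N : ℕ, N = ⌈(n : ℝ) / β⌉₊ := ⟨_, rfl⟩
  have hN1 : (n : ℝ) / β ≤ N := by
    rw [hN]
    exact Nat.le_ceil _
  have hNp : 0 < (n : ℝ) / β := by positivity
  have hN0 : N ≠ 0 := by
    rintro rfl
    simp at hN1
    linarith
  have hN2 : (N : ℝ) ≤ (1 / β + 1) * n := by
    have h1 : (N : ℝ) < (n : ℝ) / β + 1 := by
      rw [hN]
      exact Nat.ceil_lt_add_one hNp.le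
    have h2 : (n : ℝ) / β + 1 ≤ (1 / β + 1) * n := by
      have : (1 / β + 1) * n = (n : ℝ) / β + n := by ring
      rw [this]
      linarith
    linarith
  obtain ⟨u, hu⟩ : ∃ u : ℕ, u = Nat.log 2 N + 1 := ⟨_, rfl⟩
  have hu0 : u ≠ 0 := by omega
  have hu1 : N < 2 ^ u := by
    rw [hu]
    exact Nat.lt_pow_succ_log_self (by norm_num) N
  have hu2 : 2 ^ u ≤ 2 * N := by
    rw [hu, pow_succ]
    have := Nat.pow_log_le_self 2 hN0
    omega
  let F := GaloisField 2 u
  have : Fintype F := Fintype.ofFinite F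
  have hcard : Fintype.card F = 2 ^ u := by
    rw [← Nat.card_eq_fintype_card]
    exact GaloisField.card 2 u hu0
  have hq0 : (0 : ℝ) < Fintype.card F := by
    rw [hcard]
    positivity
  have hq1 : (N : ℝ) ≤ Fintype.card F := by
    rw [hcard]
    exact_mod_cast hu1.le
  have hq2 : (Fintype.card F : ℝ) ≤ 2 * (1 / β + 1) * n := by
    rw [hcard]
    have : ((2 ^ u : ℕ) : ℝ) ≤ ((2 * N : ℕ) : ℝ) := by exact_mod_cast hu2
    push_cast at this ⊢
    linarith
  obtain ⟨l, hl⟩ : ∃ l : F →ₗ[ZMod 2] ZMod 2, l 1 = 1 := by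
    by_contra hcon
    push Not at hcon
    have h1 : (1 : F) = 0 := by
      rw [← Module.forall_dual_apply_eq_zero_iff (ZMod 2)]
      intro φ
      rcases Pool.Agent.Lib.P325x.zmod_two_cases (φ 1) with h | h
      · exact h
      · exact absurd h (hcon φ)
    exact one_ne_zero h1
  refine ⟨F × F, inferInstance, inferInstance, inferInstance, ?_, ⟨⟨fun d p => l (p.2 * (pol F d).eval p.1), ?_, ?_⟩⟩⟩
  · rw [Fintype.card_prod]
    push_cast
    calc (Fintype.card F : ℝ) * Fintype.card F ≤ (2 * (1 / β + 1) * n) * (2 * (1 / β + 1) * n) :=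
          mul_le_mul hq2 hq2 hq0.le (by positivity)
      _ = 4 * (1 / β + 1) ^ 2 * (n : ℝ) ^ 2 := by ring
  · intro d d'
    ext p
    rw [pol_add, Polynomial.eval_add, mul_add, map_add]
    rfl
  · intro d hd
    rw [rho_eq l hl d, abs_of_nonneg (by positivity), div_le_iff₀ hq0]
    have h1 := roots_le (F := F) hd
    have h2 : ((Finset.univ.filter (fun a : F => (pol F d).eval a = 0)).card : ℝ) ≤ n := by
      exact_mod_cast h1
    have h3 : (n : ℝ) ≤ β * N := by
      rw [div_le_iff₀ hβ] at hN1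
      linarith
    have h4 : β * (N : ℝ) ≤ β * Fintype.card F := mul_le_mul_of_nonneg_left hq1 hβ.le
    linarith

end Pool.Agent.Lib.P325rm
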