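import Pool.Agent.Lib.P325sdp.Defs

/-!
P325rm: Sherali-Adams solutions with positive semidefinite second moments for unique games with
few vertices: the outer part (codes with small bias in place of the affine functions). Definitions.
-/

open scoped BigOperators

namespace Pool.Agent.Lib.P325rm

open Pool.Agent.Lib.P325x (Pt sg nz Game)
open Pool.Agent.Lib.P325sdp (avgL sol)

/-! ### Codes with small bias -/

/-- The normalised sum of the signs of `f`. -/
noncomputable def rho {A : Type} [Fintype A] (f : A → ZMod 2) : ℝ :=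
  (∑ a, sg (f a)) / (Fintype.card A : ℝ)

/-- A linear code with message space `Pt n`, coordinates `A` and bias at most `β`. -/
structure Code (n : ℕ) (A : Type) [Fintype A] (β : ℝ) where
  /-- the encoding -/
  cd : Pt n → A → ZMod 2
  add : ∀ d d', cd (d + d') = cd d + cd d'
  bias : ∀ d, d ≠ 0 → |rho (cd d)| ≤ β

/-- The kernel `∑_{j ≤ i ≤ 4 j} C(4 j, i) s ^ i`, normalised. -/
noncomputable def ker (j : ℕ) (s : ℝ) : ℝ :=
  (∑ i ∈ Finset.Icc j (4 * j), ((4 * j).choose i : ℝ) * s ^ i) /
    ∑ i ∈ Finset.Icc j (4 * j), ((4 * j).choose i : ℝ)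

section code

variable {n : ℕ} {A : Type} [Fintype A] {β : ℝ}

/-- The function `f` agrees on all the pairs of `ω`. -/
def agr {T : ℕ} (ω : Fin T → A × A) (f : A → ZMod 2) : Prop := ∀ i, f (ω i).1 = f (ω i).2

/-- The alignment of `x` and `x'`: the label `d` with `|rho (x + x' + cd d)| ≥ 3 / 4`, if there is
one. -/
noncomputable def al (K : Code n A β) (x x' : A → ZMod 2) : Pt n := by
  classical
  exact if h : ∃ d : Pt n, 3 / 4 ≤ |rho (x + x' + K.cd d)| then h.choose else 0

/-- `x` and `x'` are close and agree on `ω`. -/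
def Rel (K : Code n A β) {T : ℕ} (ω : Fin T → A × A) (x x' : A → ZMod 2) : Prop :=
  3 / 4 ≤ |rho (x + x' + K.cd (al K x x'))| ∧ agr ω (x + x' + K.cd (al K x x'))

/-- All related points of `X` are very close. -/
def Good (K : Code n A β) {T : ℕ} (ω : Fin T → A × A) (X : Finset (A → ZMod 2)) : Prop :=
  ∀ x ∈ X, ∀ x' ∈ X, Rel K ω x x' → 7 / 8 ≤ |rho (x + x' + K.cd (al K x x'))|

variable [DecidableEq A]

/-- The local labelings of `X` given `ω`. -/
noncomputable def solX (K : Code n A β) {T : ℕ} (ω : Fin T → A × A) (X : Finset (A → ZMod 2)) :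
    Finset ((A → ZMod 2) → Pt n) := by
  classical
  exact if Good K ω X then sol (Rel K ω) (al K) X else Finset.univ

/-- The local law of the labels of `X`. -/
noncomputable def locL (K : Code n A β) (T : ℕ) (X : Finset (A → ZMod 2)) :
    (((A → ZMod 2) → Pt n) → ℝ) →ₗ[ℝ] ℝ :=
  (Fintype.card (Fin T → A × A) : ℝ)⁻¹ • ∑ ω : Fin T → A × A, avgL (solX K ω X)

/-- The local law, mixed with the uniform law. -/
noncomputable def locK (K : Code n A β) (κ : ℝ) (T : ℕ) (X : Finset (A → ZMod 2)) :
    (((A → ZMod 2) → Pt n) → ℝ) →ₗ[ℝ] ℝ :=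
  κ • avgL Finset.univ + (1 - κ) • locL K T X

/-- The labelings with `c x = c x' + d`. -/
noncomputable def eqs (x x' : A → ZMod 2) (d : Pt n) : Finset ((A → ZMod 2) → Pt n) := by
  classical
  exact Finset.univ.filter (fun c => c x = c x' + d)

/-- The probability of the alignment `d`. -/
noncomputable def kd (K : Code n A β) (κ : ℝ) (j : ℕ) (x x' : A → ZMod 2) (d : Pt n) : ℝ :=
  (1 - κ) * ker j (rho (x + x' + K.cd d) ^ 2)

/-- The law of the labels of `x` and `x'` with the exact kernel. -/
noncomputable def pairK (K : Code n A β) (κ : ℝ) (j : ℕ) (x x' : A → ZMod 2) :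
    (((A → ZMod 2) → Pt n) → ℝ) →ₗ[ℝ] ℝ := by
  classical
  exact if x = x' then avgL Finset.univ else
    (∑ d : Pt n, kd K κ j x x' d • avgL (eqs x x' d)) +
      (1 - ∑ d : Pt n, kd K κ j x x' d) • avgL Finset.univ

end code

/-- The bound for the sum of the kernel over the labels that are not close. -/
noncomputable def sig (n j : ℕ) (β : ℝ) : ℝ :=
  2 / β * (25 / 32) ^ (4 * j) + 2 ^ n * (2 * β) ^ j

/-- The distance between the exact law of a pair and the local law. -/
noncomputable def err (n j : ℕ) (β : ℝ) : ℝ :=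
  4 * (16 / 27) ^ j + 4 * (113 / 128) ^ (4 * j) + 2 * sig n j β

/-- The noise game on the cosets of the code: for every point `x`, every label `d` and every noise
`r` it has an edge from `x` to `x + cd d + nz 1 r` with the translation by `d` as constraint. -/
def outer {n : ℕ} {A : Type} [Fintype A] {β : ℝ} (K : Code n A β) (q : ℕ) :
    Game (A → ZMod 2) (A → ZMod 2) (Pt n) ((A → ZMod 2) × Pt n × (A → Fin q)) where
  src e := e.1
  dst e := e.1 + K.cd e.2.1 + nz 1 e.2.2
  perm e := Equiv.addRight e.2.1

end Pool.Agent.Lib.P325rm
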