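import Pool.Agent.Lib.P325rm.BaseQ
import Pool.Agent.Lib.P325pr.MainQ

/-!
P325rm: convex programs of quasi-polynomial size on top of the standard semidefinite relaxation do
not refute unique games. Join of the base family (P325rm, P325rc) and the passage (P325pr).
-/

open scoped BigOperators

namespace Pool.Agent.Lib.P325rm

open Pool.Agent.Lib.P325x (Game)
open Pool.Agent.Lib.P325av (Certifies relabel)
open Pool.Agent.Lib.P325pr (StandardSDP)

theorem base : Pool.Agent.Lib.P325pr.BaseQ := by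
  intro ε δ hε hδ
  obtain ⟨s, a, C, h⟩ := baseQ ε δ hε hδ
  refine ⟨s, a, C, fun r => ?_⟩
  obtain ⟨n, ι, i1, src, dst, b, E, h1, h2, h3, h4, h5, h6⟩ := h r
  exact ⟨n, ι, i1, src, dst, b, E, h1, h3, h4, h5, h6, h2⟩

theorem finQ (ε δ : ℝ) (hε : 0 < ε) (hδ : 0 < δ) :
    ∃ (m : ℕ) (c : ℝ), 0 < c ∧ ∃ N0 : ℕ, ∀ N ≥ N0,
      ∃ (ι : Type) (_ : Fintype ι) (src dst : ι → Fin N) (b : ι → (Fin m → ZMod 2)), Nonempty ι ∧
      (Game.mk src dst (fun e => Equiv.addRight (b e))).value ≤ δ ∧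
      ∀ (Y : Type) [AddCommGroup Y] [Module ℝ Y] (R D : ℕ)
        (A : Fin R → Y →ₗ[ℝ] (Fin D → ℝ)) (K : Fin R → Set (Fin D → ℝ))
        (pt : (Fin N ⊕ Fin N → (Fin m → ZMod 2)) → Y),
        (R : ℝ) ≤ Real.exp (Real.log N ^ (1 + c)) → (D : ℝ) ≤ Real.log N ^ c →
        (∀ j, Convex ℝ (K j)) → (∀ z j, A j (pt z) ∈ K j) →
        (Nat.card {g : Equiv.Perm (Fin N) × Equiv.Perm (Fin N) //
          Certifies ({y | ∀ j, A j y ∈ K j} ∩ StandardSDP pt) pt (1 - ε)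
            (relabel (Game.mk src dst (fun e => Equiv.addRight (b e))) g)} : ℝ) ≤
          (N.factorial : ℝ) ^ 2 / Real.exp (Real.log N ^ (1 + c)) :=
  Pool.Agent.Lib.P325pr.mainQ base ε δ hε hδ

end Pool.Agent.Lib.P325rm
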