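import Pool.Agent.Lib.P325rm.Defs
import Pool.Agent.Lib.P325sdp.Rho

/-!
Module Rho (1.5h; adapt the finished file P325sdp/Rho.lean: replace Cu n by A → ZMod 2, aff d 0 by K.cd d, 2 ^ n by
the number of elements of A). Correlations of functions on a finite set.
PROOF. M = |A| > 0. abs_rho_le, rho_zero, cd_zero (cd 0 = cd 0 + cd 0 = 0 in characteristic 2) direct. rho_add: for +-1
numbers 1 - uv <= (1 - u) + (1 - v), as in P325sdp.rho_add. rho_unique: rho_add for x + cd d, x + cd d' (sum cd (d + d'))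
gives |rho (cd (d + d'))| >= 1/2 > β, so d + d' = 0. al_spec, al_symm, al_self, al_add as in P325sdp.
sum_sq (new): S = ∑_{d ∈ D} ρ_d^2, ρ_d = rho (f + cd d) = M⁻¹ ∑_a sg (f a) sg (cd d a). S = M⁻¹ ∑_a sg (f a) ∑_d ρ_d sg (cd d a),
by Cauchy-Schwarz S^2 <= M⁻¹ ∑_a (∑_d ρ_d sg (cd d a))^2 = ∑_{d, d'} ρ_d ρ_d' rho (cd (d + d')) <= S + β (∑_d |ρ_d|)^2 <=
S + β |D| S. So S <= 1 + β |D| (trivial if S = 0).
-/

open scoped BigOperators

namespace Pool.Agent.Lib.P325rm

open Pool.Agent.Lib.P325x (Pt sg)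

variable {n : ℕ} {A : Type} [Fintype A] {β : ℝ}

namespace RhoAux

open Pool.Agent.Lib.P325x

theorem card_pos' [Nonempty A] : (0 : ℝ) < (Fintype.card A : ℝ) := by
  exact_mod_cast Fintype.card_pos

theorem sum_one : ∑ _a : A, (1 : ℝ) = (Fintype.card A : ℝ) := by
  simp

theorem abs_sg (t : ZMod 2) : |sg t| = 1 := by
  rcases zmod_two_cases t with h | h <;> rw [h]
  · rw [sg_zero, abs_one]
  · rw [sg_one, abs_neg, abs_one]

theorem sg_cases (t : ZMod 2) : sg t = 1 ∨ sg t = -1 := by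
  rcases zmod_two_cases t with h | h <;> rw [h]
  · exact Or.inl sg_zero
  · exact Or.inr sg_one

theorem abs_sum_le (f : A → ZMod 2) : |∑ a, sg (f a)| ≤ (Fintype.card A : ℝ) := by
  rw [← sum_one (A := A)]
  refine (Finset.abs_sum_le_sum_abs _ _).trans (Finset.sum_le_sum fun a _ => ?_)
  rw [abs_sg]

theorem sign_exists (r : ℝ) : ∃ s : ℝ, (s = 1 ∨ s = -1) ∧ s * r = |r| := by
  rcases le_total 0 r with h | h
  · exact ⟨1, Or.inl rfl, by rw [abs_of_nonneg h, one_mul]⟩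
  · exact ⟨-1, Or.inr rfl, by rw [abs_of_nonpos h, neg_one_mul]⟩

theorem pm_ineq (u v : ℝ) (hu : u = 1 ∨ u = -1) (hv : v = 1 ∨ v = -1) :
    u + v - 1 ≤ u * v := by
  rcases hu with rfl | rfl <;> rcases hv with rfl | rfl <;> norm_num

theorem pm_mul (u v : ℝ) (hu : u = 1 ∨ u = -1) (hv : v = 1 ∨ v = -1) :
    u * v = 1 ∨ u * v = -1 := by
  rcases hu with rfl | rfl <;> rcases hv with rfl | rfl <;> norm_num

theorem sum_add_ge (f g : A → ZMod 2) :
    |∑ a, sg (f a)| + |∑ a, sg (g a)| - (Fintype.card A : ℝ) ≤ |∑ a, sg ((f + g) a)| := by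
  obtain ⟨s, hs, hs1⟩ := sign_exists (∑ a, sg (f a))
  obtain ⟨t, ht, ht1⟩ := sign_exists (∑ a, sg (g a))
  have h1 : |∑ a, sg (f a)| + |∑ a, sg (g a)| - (Fintype.card A : ℝ) ≤
      (s * t) * ∑ a, sg ((f + g) a) := by
    rw [← hs1, ← ht1, ← sum_one (A := A), Finset.mul_sum, Finset.mul_sum, Finset.mul_sum,
      ← Finset.sum_add_distrib, ← Finset.sum_sub_distrib]
    refine Finset.sum_le_sum fun a _ => ?_
    have h2 := pm_ineq _ _ (pm_mul s _ hs (sg_cases (f a))) (pm_mul t _ ht (sg_cases (g a)))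
    rw [Pi.add_apply, sg_add]
    calc _ ≤ _ := h2
      _ = _ := by ring
  refine h1.trans ((le_abs_self _).trans ?_)
  have h3 : |s * t| = 1 := by
    rcases pm_mul s t hs ht with h | h <;> rw [h]
    · exact abs_one
    · rw [abs_neg, abs_one]
  rw [abs_mul, h3, one_mul]

theorem abs_rho [Nonempty A] (f : A → ZMod 2) :
    |rho f| = |∑ a, sg (f a)| / (Fintype.card A : ℝ) := by
  rw [rho, abs_div, abs_of_pos (card_pos' (A := A))]

theorem pt_self (d : Pt n) : d + d = 0 := funext fun i => CharTwo.add_self_eq_zero (d i)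

theorem fun_self (x : A → ZMod 2) : x + x = 0 := funext fun i => CharTwo.add_self_eq_zero (x i)

end RhoAux

open RhoAux


theorem abs_rho_le [Nonempty A] (f : A → ZMod 2) : |rho f| ≤ 1 := by
  rw [abs_rho, div_le_one (card_pos' (A := A))]
  exact abs_sum_le f

theorem rho_zero [Nonempty A] : rho (0 : A → ZMod 2) = 1 := by
  have h := (card_pos' (A := A)).ne'
  have h1 : ∑ a : A, sg ((0 : A → ZMod 2) a) = (Fintype.card A : ℝ) := by
    rw [← sum_one (A := A)]
    refine Finset.sum_congr rfl fun a _ => ?_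
    rw [Pi.zero_apply, Pool.Agent.Lib.P325x.sg_zero]
  rw [rho, h1, div_self h]

theorem rho_sq_le [Nonempty A] (f : A → ZMod 2) : rho f ^ 2 ≤ 1 := by
  have h := abs_rho_le f
  rw [← sq_abs]
  exact pow_le_one₀ (abs_nonneg _) h

theorem fun_add_self (x : A → ZMod 2) : x + x = 0 := by
  exact fun_self x

theorem cd_zero (K : Code n A β) : K.cd 0 = 0 := by
  have h := K.add 0 0
  rw [add_zero, fun_add_self] at h
  exact h

theorem rho_add [Nonempty A] (f g : A → ZMod 2) : |rho f| + |rho g| - 1 ≤ |rho (f + g)| := by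
  rw [abs_rho, abs_rho, abs_rho, ← div_self (card_pos' (A := A)).ne', ← add_div, ← sub_div]
  exact div_le_div_of_nonneg_right (sum_add_ge f g) (card_pos' (A := A)).le

theorem rho_unique [Nonempty A] (K : Code n A β) (hβ : β < 1 / 2) (x : A → ZMod 2) (d d' : Pt n)
    (h : 3 / 4 ≤ |rho (x + K.cd d)|) (h' : 3 / 4 ≤ |rho (x + K.cd d')|) : d = d' := by
  by_contra hne
  have h1 := rho_add (x + K.cd d) (x + K.cd d')
  have h2 : x + K.cd d + (x + K.cd d') = K.cd (d + d') := by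
    calc x + K.cd d + (x + K.cd d') = (x + x) + (K.cd d + K.cd d') := by abel
      _ = K.cd (d + d') := by rw [fun_self, zero_add, ← K.add]
  have h3 : d + d' ≠ 0 := by
    intro h3
    apply hne
    calc d = d + (d' + d') := by rw [pt_self, add_zero]
      _ = d' := by rw [← add_assoc, h3, zero_add]
  have h4 := K.bias _ h3
  rw [h2] at h1
  linarith

theorem al_spec [Nonempty A] (K : Code n A β) (hβ : β < 1 / 2) (x x' : A → ZMod 2) (d : Pt n)
    (h : 3 / 4 ≤ |rho (x + x' + K.cd d)|) : al K x x' = d := by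
  have h1 : ∃ d : Pt n, 3 / 4 ≤ |rho (x + x' + K.cd d)| := ⟨d, h⟩
  have h2 : al K x x' = h1.choose := by
    rw [al, dif_pos h1]
  rw [h2]
  exact rho_unique K hβ (x + x') _ _ h1.choose_spec h

theorem al_symm (K : Code n A β) (x x' : A → ZMod 2) : al K x' x = al K x x' := by
  rw [al, al, add_comm x' x]

theorem al_self [Nonempty A] (K : Code n A β) (hβ : β < 1 / 2) (x : A → ZMod 2) : al K x x = 0 := by
  apply al_spec K hβ
  have h1 : x + x + K.cd 0 = 0 := by rw [fun_self, zero_add, cd_zero]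
  rw [h1, rho_zero, abs_one]
  norm_num

theorem al_add [Nonempty A] (K : Code n A β) (hβ : β < 1 / 2) (x x' x'' : A → ZMod 2)
    (h : 7 / 8 ≤ |rho (x + x' + K.cd (al K x x'))|)
    (h' : 7 / 8 ≤ |rho (x' + x'' + K.cd (al K x' x''))|) :
    3 / 4 ≤ |rho (x + x'' + K.cd (al K x x' + al K x' x''))| ∧
      al K x x'' = al K x x' + al K x' x'' := by
  have h1 := rho_add (x + x' + K.cd (al K x x')) (x' + x'' + K.cd (al K x' x''))
  have h2 : x + x' + K.cd (al K x x') + (x' + x'' + K.cd (al K x' x'')) =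
      x + x'' + K.cd (al K x x' + al K x' x'') := by
    calc x + x' + K.cd (al K x x') + (x' + x'' + K.cd (al K x' x''))
        = x + x'' + (x' + x') + (K.cd (al K x x') + K.cd (al K x' x'')) := by abel
      _ = _ := by rw [fun_self, add_zero, ← K.add]
  rw [h2] at h1
  have h3 : 3 / 4 ≤ |rho (x + x'' + K.cd (al K x x' + al K x' x''))| := by linarith
  exact ⟨h3, al_spec K hβ _ _ _ h3⟩

theorem sum_sq [Nonempty A] (K : Code n A β) (hβ : 0 ≤ β) (f : A → ZMod 2) (D : Finset (Pt n)) :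
    ∑ d ∈ D, rho (f + K.cd d) ^ 2 ≤ 1 + β * D.card := by
  classical
  have hM := card_pos' (A := A)
  have hM0 := hM.ne'
  obtain ⟨M, hMd⟩ : ∃ M : ℝ, M = (Fintype.card A : ℝ) := ⟨_, rfl⟩
  obtain ⟨ρ, hρ⟩ : ∃ ρ : Pt n → ℝ, ρ = fun d => rho (f + K.cd d) := ⟨_, rfl⟩
  obtain ⟨g, hg⟩ : ∃ g : A → ℝ, g = fun a => ∑ d ∈ D, ρ d * sg (K.cd d a) := ⟨_, rfl⟩
  obtain ⟨S, hS⟩ : ∃ S : ℝ, S = ∑ d ∈ D, ρ d ^ 2 := ⟨_, rfl⟩
  have hgoal : ∑ d ∈ D, rho (f + K.cd d) ^ 2 = S := by
    rw [hS, hρ]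
  rw [hgoal]
  rw [← hMd] at hM hM0
  have e1 : ∀ d, ∑ a, sg (f a) * sg (K.cd d a) = M * ρ d := by
    intro d
    have h1 : ρ d = (∑ a, sg (f a) * sg (K.cd d a)) / M := by
      rw [hρ, hMd]
      change rho (f + K.cd d) = _
      rw [rho]
      congr 1
      refine Finset.sum_congr rfl fun a _ => ?_
      rw [Pi.add_apply, Pool.Agent.Lib.P325x.sg_add]
    rw [h1]
    field_simp
  have e2 : M * S = ∑ a, sg (f a) * g a := by
    have h1 : ∀ a, sg (f a) * g a = ∑ d ∈ D, ρ d * (sg (f a) * sg (K.cd d a)) := by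
      intro a
      rw [hg]
      change sg (f a) * (∑ d ∈ D, ρ d * sg (K.cd d a)) = _
      rw [Finset.mul_sum]
      exact Finset.sum_congr rfl fun d _ => by ring
    rw [Finset.sum_congr rfl fun a _ => h1 a, Finset.sum_comm, hS, Finset.mul_sum]
    refine Finset.sum_congr rfl fun d _ => ?_
    rw [← Finset.mul_sum, e1 d]
    ring
  have e3 : (∑ a, sg (f a) * g a) ^ 2 ≤ (∑ a, sg (f a) ^ 2) * ∑ a, g a ^ 2 :=
    Finset.sum_mul_sq_le_sq_mul_sq _ _ _
  have e4 : ∑ a, sg (f a) ^ 2 = M := by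
    rw [hMd, ← sum_one (A := A)]
    refine Finset.sum_congr rfl fun a _ => ?_
    rw [← sq_abs, abs_sg, one_pow]
  have e5 : ∑ a, g a ^ 2 = M * ∑ d ∈ D, ∑ d' ∈ D, ρ d * ρ d' * rho (K.cd (d + d')) := by
    have h1 : ∀ a, g a ^ 2 =
        ∑ d ∈ D, ∑ d' ∈ D, ρ d * ρ d' * (sg (K.cd d a) * sg (K.cd d' a)) := by
      intro a
      rw [hg]
      change (∑ d ∈ D, ρ d * sg (K.cd d a)) ^ 2 = _
      rw [sq, Finset.sum_mul_sum]
      exact Finset.sum_congr rfl fun d _ => Finset.sum_congr rfl fun d' _ => by ring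
    rw [Finset.sum_congr rfl fun a _ => h1 a, Finset.sum_comm, Finset.mul_sum]
    refine Finset.sum_congr rfl fun d _ => ?_
    rw [Finset.sum_comm, Finset.mul_sum]
    refine Finset.sum_congr rfl fun d' _ => ?_
    rw [← Finset.mul_sum]
    have h2 : ∑ a, sg (K.cd d a) * sg (K.cd d' a) = M * rho (K.cd (d + d')) := by
      have h3 : rho (K.cd (d + d')) = (∑ a, sg (K.cd d a) * sg (K.cd d' a)) / M := by
        rw [rho, hMd, K.add]
        congr 1
        refine Finset.sum_congr rfl fun a _ => ?_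
        rw [Pi.add_apply, Pool.Agent.Lib.P325x.sg_add]
      rw [h3]
      field_simp
    rw [h2]
    ring
  have e6 : ∀ d ∈ D, ∀ d' ∈ D, ρ d * ρ d' * rho (K.cd (d + d')) ≤
      (if d = d' then ρ d ^ 2 else 0) + β * (|ρ d| * |ρ d'|) := by
    intro d _ d' _
    by_cases h : d = d'
    · subst h
      rw [if_pos rfl, pt_self, cd_zero, rho_zero, mul_one]
      have h1 : 0 ≤ β * (|ρ d| * |ρ d|) := by positivity
      nlinarith
    · rw [if_neg h, zero_add]
      have h3 : d + d' ≠ 0 := by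
        intro h3
        apply h
        calc d = d + (d' + d') := by rw [pt_self, add_zero]
          _ = d' := by rw [← add_assoc, h3, zero_add]
      have h4 := K.bias _ h3
      have h5 : ρ d * ρ d' * rho (K.cd (d + d')) ≤ |ρ d * ρ d'| * |rho (K.cd (d + d'))| := by
        rw [← abs_mul]
        exact le_abs_self _
      rw [abs_mul] at h5
      calc ρ d * ρ d' * rho (K.cd (d + d')) ≤ |ρ d| * |ρ d'| * |rho (K.cd (d + d'))| := h5
        _ ≤ |ρ d| * |ρ d'| * β := mul_le_mul_of_nonneg_left h4 (by positivity)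
        _ = β * (|ρ d| * |ρ d'|) := by ring
  have e7 : ∑ d ∈ D, ∑ d' ∈ D, ρ d * ρ d' * rho (K.cd (d + d')) ≤
      S + β * (∑ d ∈ D, |ρ d|) ^ 2 := by
    have h1 : ∑ d ∈ D, ∑ d' ∈ D, ρ d * ρ d' * rho (K.cd (d + d')) ≤
        ∑ d ∈ D, ∑ d' ∈ D, ((if d = d' then ρ d ^ 2 else 0) + β * (|ρ d| * |ρ d'|)) :=
      Finset.sum_le_sum fun d hd => Finset.sum_le_sum fun d' hd' => e6 d hd d' hd'
    refine h1.trans (le_of_eq ?_)
    have h2 : ∀ d ∈ D, ∑ d' ∈ D, ((if d = d' then ρ d ^ 2 else 0) + β * (|ρ d| * |ρ d'|)) =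
        ρ d ^ 2 + ∑ d' ∈ D, β * (|ρ d| * |ρ d'|) := by
      intro d hd
      rw [Finset.sum_add_distrib, Finset.sum_ite_eq, if_pos hd]
    rw [Finset.sum_congr rfl h2, Finset.sum_add_distrib, ← hS]
    congr 1
    rw [sq, Finset.sum_mul_sum, Finset.mul_sum]
    refine Finset.sum_congr rfl fun d _ => ?_
    rw [Finset.mul_sum]
  have e8 : (∑ d ∈ D, |ρ d|) ^ 2 ≤ D.card * S := by
    have h1 := sq_sum_le_card_mul_sum_sq (s := D) (f := fun d => |ρ d|)
    have h2 : ∑ d ∈ D, |ρ d| ^ 2 = S := by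
      rw [hS]
      exact Finset.sum_congr rfl fun d _ => sq_abs _
    rw [h2] at h1
    exact h1
  have hS0 : 0 ≤ S := by
    rw [hS]
    exact Finset.sum_nonneg fun d _ => sq_nonneg _
  have e9 : (M * S) ^ 2 ≤ M * (M * (S + β * (D.card * S))) := by
    rw [e2]
    refine e3.trans ?_
    rw [e4, e5]
    have h1 : S + β * (∑ d ∈ D, |ρ d|) ^ 2 ≤ S + β * (D.card * S) := by
      have := mul_le_mul_of_nonneg_left e8 hβ
      linarith
    exact mul_le_mul_of_nonneg_left (mul_le_mul_of_nonneg_left (e7.trans h1) hM.le) hM.le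
  have e10 : S ^ 2 ≤ S * (1 + β * D.card) := by
    have h1 : M ^ 2 * S ^ 2 ≤ M ^ 2 * (S * (1 + β * D.card)) := by
      calc M ^ 2 * S ^ 2 = (M * S) ^ 2 := by ring
        _ ≤ _ := e9
        _ = _ := by ring
    exact le_of_mul_le_mul_left h1 (by positivity)
  rcases hS0.eq_or_lt with h | h
  · rw [← h]
    positivity
  · have h1 : S * S ≤ S * (1 + β * D.card) := by rw [← sq]; exact e10
    exact le_of_mul_le_mul_left h1 h

end Pool.Agent.Lib.P325rm
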