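import Pool.Agent.Lib.P325rm.Defs
import Pool.Agent.Lib.P325sdp.SigP

/-!
Module Sig (0.5h; adapt P325sdp/SigP.lean, the same proof with A in place of Pt n). The number of ω on which f agrees.
PROOF. The number of pairs (a, b) with f a = f b is ∑_{a,b} (1 + sg (f a) sg (f b))/2 = (1 + rho f ^ 2)/2 |A|^2, and the
tuples are functions Fin T → pairs.
-/

open scoped BigOperators

namespace Pool.Agent.Lib.P325rm

open Pool.Agent.Lib.P325x (Pt sg nz Game)

namespace SigAux

theorem card_pairs {A : Type} [Fintype A] [Nonempty A] [DecidableEq A] (f : A → ZMod 2) :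
    (Nat.card {p : A × A // f p.1 = f p.2} : ℝ) =
      (1 + rho f ^ 2) / 2 * ((Fintype.card A : ℝ) * (Fintype.card A : ℝ)) := by
  classical
  rw [Nat.card_eq_fintype_card, Fintype.card_subtype, Finset.card_filter]
  push_cast
  have h1 : ∀ p : A × A, (if f p.1 = f p.2 then (1 : ℝ) else 0) =
      (1 + sg (f p.1) * sg (f p.2)) / 2 := fun p => P325sdp.SigPAux.ind_eq _ _
  rw [Finset.sum_congr rfl fun p _ => h1 p, Fintype.sum_prod_type]
  have h2 : ∑ a : A, ∑ b : A, (1 + sg (f a) * sg (f b)) / 2 =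
      ((Fintype.card A : ℝ) * (Fintype.card A : ℝ) + (∑ a, sg (f a)) * (∑ a, sg (f a))) / 2 := by
    have h3 : (∑ a : A, ∑ b : A, (1 : ℝ)) = (Fintype.card A : ℝ) * (Fintype.card A : ℝ) := by
      simp
    have h4 : ∑ a : A, ∑ b : A, sg (f a) * sg (f b) = (∑ a, sg (f a)) * (∑ a, sg (f a)) := by
      rw [Finset.sum_mul_sum]
    rw [← h3, ← h4, ← Finset.sum_add_distrib, Finset.sum_div]
    refine Finset.sum_congr rfl fun a _ => ?_
    rw [← Finset.sum_add_distrib, Finset.sum_div]
  rw [h2]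
  unfold rho
  have hK : (Fintype.card A : ℝ) ≠ 0 := by exact_mod_cast Fintype.card_ne_zero
  field_simp

end SigAux

theorem sig_prob {A : Type} [Fintype A] [Nonempty A] [DecidableEq A] (T : ℕ) (f : A → ZMod 2) :
    (Nat.card {ω : Fin T → A × A // agr ω f} : ℝ) =
      ((1 + rho f ^ 2) / 2) ^ T * (Fintype.card (Fin T → A × A) : ℝ) := by
  classical
  have h1 : Nat.card {ω : Fin T → A × A // agr ω f} =
      (Nat.card {p : A × A // f p.1 = f p.2}) ^ T := by
    unfold agr
    rw [Nat.card_congr (Equiv.subtypePiEquivPi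
      (p := fun (_ : Fin T) (q : A × A) => f q.1 = f q.2)), Nat.card_fun]
    simp
  rw [h1]
  push_cast
  rw [SigAux.card_pairs, mul_pow]
  congr 1
  simp

end Pool.Agent.Lib.P325rm
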