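import Pool.Agent.Lib.P325sdp.UnifSol
import Pool.Agent.Lib.P325rm.Rho
import Pool.Agent.Lib.P325rm.Sig

/-!
Module Loc (1.5h; adapt P325sdp/LocC.lean, the same proofs with K.cd d in place of aff d 0; black boxes unif_sol, Rho, Sig).
The local laws are approximately consistent.
PROOF. See the header of P325sdp/LocC.lean. locK = κ uniform + (1 - κ) locL: positivity is clear for 0 <= κ <= 1, the
uniform parts cancel in lock_cons. loc_single: for X = {x} every ω is Good (al x x = 0, rho 0 = 1) and the only equation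
is c x = c x + 0, so solX = univ.
-/

open scoped BigOperators

namespace Pool.Agent.Lib.P325rm

open Pool.Agent.Lib.P325x (Pt)
open Pool.Agent.Lib.P325sdp (IsPos avgL)

variable {n : ℕ} {A : Type} [Fintype A] [DecidableEq A] [Nonempty A] {β : ℝ}

namespace LocAux

open Pool.Agent.Lib.P325sdp (sol)

theorem avgL_pos {Z : Type} (s : Finset Z) (hs : s.Nonempty) : IsPos (avgL s) := by
  refine ⟨?_, ?_⟩
  · rw [Pool.Agent.Lib.P325sdp.UnifSolAux.avgL_apply, Finset.sum_const, nsmul_eq_mul, mul_one]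
    have h : (0 : ℝ) < (s.card : ℝ) := by exact_mod_cast Finset.card_pos.2 hs
    exact inv_mul_cancel₀ h.ne'
  · intro f hf
    rw [Pool.Agent.Lib.P325sdp.UnifSolAux.avgL_apply]
    exact mul_nonneg (inv_nonneg.2 (Nat.cast_nonneg _)) (Finset.sum_nonneg fun c _ => hf c)

theorem abs_le_of_pos {Z : Type} {L : (Z → ℝ) →ₗ[ℝ] ℝ} (hL : IsPos L) (F : Z → ℝ) (M : ℝ)
    (h : ∀ z, |F z| ≤ M) : |L F| ≤ M := by
  have h0 : L (fun _ => M) = M := by
    have h1 : (fun _ : Z => M) = M • (fun _ : Z => (1 : ℝ)) := by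
      funext z
      simp
    rw [h1, map_smul, hL.one, smul_eq_mul, mul_one]
  have h2 : 0 ≤ L ((fun _ => M) - F) := by
    apply hL.nonneg
    intro z
    rw [Pi.sub_apply]
    have := (abs_le.1 (h z)).2
    linarith
  have h3 : 0 ≤ L ((fun _ => M) + F) := by
    apply hL.nonneg
    intro z
    rw [Pi.add_apply]
    have := (abs_le.1 (h z)).1
    linarith
  rw [map_sub, h0] at h2
  rw [map_add, h0] at h3
  exact abs_le.2 ⟨by linarith, by linarith⟩

theorem agr_zero {T : ℕ} (ω : Fin T → A × A) : agr ω (0 : A → ZMod 2) := fun _ => rfl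

theorem agr_add {T : ℕ} {ω : Fin T → A × A} {f g : A → ZMod 2} (hf : agr ω f)
    (hg : agr ω g) : agr ω (f + g) := by
  intro j
  rw [Pi.add_apply, Pi.add_apply, hf j, hg j]

theorem rel_zero (K : Code n A β) (hβ : β < 1 / 2) (x : A → ZMod 2) :
    x + x + K.cd (al K x x) = 0 := by
  rw [al_self K hβ, cd_zero, fun_add_self, add_zero]

theorem rel_self (K : Code n A β) (hβ : β < 1 / 2) {T : ℕ} (ω : Fin T → A × A)
    (x : A → ZMod 2) : Rel K ω x x := by
  have h := rel_zero K hβ x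
  refine ⟨?_, ?_⟩
  · rw [h, rho_zero]
    norm_num
  · rw [h]
    exact agr_zero ω

theorem rel_symm (K : Code n A β) {T : ℕ} {ω : Fin T → A × A} {x x' : A → ZMod 2}
    (h : Rel K ω x x') : Rel K ω x' x := by
  unfold Rel at h ⊢
  rw [al_symm K x x', add_comm x' x]
  exact h

theorem rel_trans (K : Code n A β) (hβ : β < 1 / 2) {T : ℕ} {ω : Fin T → A × A}
    {X : Finset (A → ZMod 2)} (hG : Good K ω X) {x x' x'' : A → ZMod 2} (hx : x ∈ X)
    (hx' : x' ∈ X) (hx'' : x'' ∈ X) (h : Rel K ω x x') (h' : Rel K ω x' x'') :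
    Rel K ω x x'' ∧ al K x x'' = al K x x' + al K x' x'' := by
  obtain ⟨h1, h2⟩ := al_add K hβ x x' x'' (hG x hx x' hx' h) (hG x' hx' x'' hx'' h')
  refine ⟨⟨?_, ?_⟩, h2⟩
  · rw [h2]
    exact h1
  · have h3 : x + x'' + K.cd (al K x x'') =
        (x + x' + K.cd (al K x x')) + (x' + x'' + K.cd (al K x' x'')) := by
      rw [h2, K.add]
      calc x + x'' + (K.cd (al K x x') + K.cd (al K x' x''))
          = (x + x'' + (K.cd (al K x x') + K.cd (al K x' x''))) + (x' + x') := by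
            rw [fun_add_self, add_zero]
        _ = _ := by abel
    rw [h3]
    exact agr_add h.2 h'.2

theorem good_mono (K : Code n A β) {T : ℕ} {ω : Fin T → A × A}
    {X X' : Finset (A → ZMod 2)} (hX : X' ⊆ X) (h : Good K ω X) : Good K ω X' :=
  fun x hx x' hx' hR => h x (hX hx) x' (hX hx') hR

theorem solX_good (K : Code n A β) {T : ℕ} {ω : Fin T → A × A} {X : Finset (A → ZMod 2)}
    (h : Good K ω X) : solX K ω X = sol (Rel K ω) (al K) X := by
  unfold solX
  exact if_pos h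

theorem solX_bad (K : Code n A β) {T : ℕ} {ω : Fin T → A × A} {X : Finset (A → ZMod 2)}
    (h : ¬ Good K ω X) (c : (A → ZMod 2) → Pt n) : c ∈ solX K ω X := by
  classical
  unfold solX
  rw [if_neg h]
  exact Finset.mem_univ c

theorem locL_apply (K : Code n A β) (T : ℕ) (X : Finset (A → ZMod 2))
    (F : ((A → ZMod 2) → Pt n) → ℝ) :
    locL K T X F = (Fintype.card (Fin T → A × A) : ℝ)⁻¹ *
      ∑ ω : Fin T → A × A, avgL (solX K ω X) F := by
  unfold locL
  rw [LinearMap.smul_apply, LinearMap.sum_apply, smul_eq_mul]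

theorem card_pos_real (A : Type) [Fintype A] [DecidableEq A] [Nonempty A] (T : ℕ) :
    (0 : ℝ) < (Fintype.card (Fin T → A × A) : ℝ) := by
  exact_mod_cast Fintype.card_pos

open Classical in
/-- the indicator of the bad event for `x` and `x'` -/
noncomputable def bad (K : Code n A β) {T : ℕ} (x x' : A → ZMod 2) (ω : Fin T → A × A) : ℝ :=
  if Rel K ω x x' ∧ |rho (x + x' + K.cd (al K x x'))| < 7 / 8 then 1 else 0

theorem bad_nonneg (K : Code n A β) {T : ℕ} (x x' : A → ZMod 2) (ω : Fin T → A × A) :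
    0 ≤ bad K x x' ω := by
  unfold bad
  split_ifs
  · exact zero_le_one
  · exact le_rfl

theorem sum_bad (K : Code n A β) (T : ℕ) (x x' : A → ZMod 2) :
    ∑ ω : Fin T → A × A, bad K x x' ω ≤
      (113 / 128) ^ T * (Fintype.card (Fin T → A × A) : ℝ) := by
  classical
  by_cases h : |rho (x + x' + K.cd (al K x x'))| < 7 / 8
  · have h1 : ∀ ω : Fin T → A × A, bad K x x' ω ≤
        if agr ω (x + x' + K.cd (al K x x')) then 1 else 0 := by
      intro ω
      unfold bad
      by_cases h2 : Rel K ω x x' ∧ |rho (x + x' + K.cd (al K x x'))| < 7 / 8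
      · rw [if_pos h2, if_pos h2.1.2]
      · rw [if_neg h2]
        split_ifs
        · exact zero_le_one
        · exact le_rfl
    have h2 : ∑ ω : Fin T → A × A,
        (if agr ω (x + x' + K.cd (al K x x')) then (1 : ℝ) else 0) =
        (Nat.card {ω : Fin T → A × A // agr ω (x + x' + K.cd (al K x x'))} : ℝ) := by
      rw [Finset.sum_boole, Nat.card_eq_fintype_card, Fintype.card_subtype]
    refine (Finset.sum_le_sum fun ω _ => h1 ω).trans ?_
    rw [h2, sig_prob]
    refine mul_le_mul_of_nonneg_right ?_ (card_pos_real A T).le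
    refine pow_le_pow_left₀ (by positivity) ?_ T
    have h3 : rho (x + x' + K.cd (al K x x')) ^ 2 ≤ (7 / 8) ^ 2 := by
      rw [← sq_abs]
      exact pow_le_pow_left₀ (abs_nonneg _) h.le 2
    linarith
  · have h1 : ∀ ω : Fin T → A × A, bad K x x' ω = 0 := by
      intro ω
      unfold bad
      exact if_neg fun h2 => h h2.2
    rw [Finset.sum_eq_zero fun ω _ => h1 ω]
    have := card_pos_real A T
    positivity

theorem one_le_bad (K : Code n A β) {T : ℕ} {ω : Fin T → A × A} {X : Finset (A → ZMod 2)}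
    (h : ¬ Good K ω X) : 1 ≤ ∑ x ∈ X, ∑ x' ∈ X, bad K x x' ω := by
  unfold Good at h
  push Not at h
  obtain ⟨x, hx, x', hx', hR, h1⟩ := h
  have h2 : bad K x x' ω = 1 := by
    unfold bad
    exact if_pos ⟨hR, h1⟩
  calc (1 : ℝ) = bad K x x' ω := h2.symm
    _ ≤ ∑ x' ∈ X, bad K x x' ω :=
      Finset.single_le_sum (f := fun x' => bad K x x' ω) (fun i _ => bad_nonneg K x i ω) hx'
    _ ≤ _ := Finset.single_le_sum (f := fun x => ∑ x' ∈ X, bad K x x' ω)
      (fun i _ => Finset.sum_nonneg fun j _ => bad_nonneg K i j ω) hx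

theorem good_equiv (K : Code n A β) (hβ : β < 1 / 2) {T : ℕ} (ω : Fin T → A × A)
    (X : Finset (A → ZMod 2)) (h : Good K ω X) :
    (∀ x ∈ X, Rel K ω x x) ∧ (∀ x ∈ X, ∀ x' ∈ X, Rel K ω x x' → Rel K ω x' x) ∧
      (∀ x ∈ X, ∀ x' ∈ X, ∀ x'' ∈ X, Rel K ω x x' → Rel K ω x' x'' → Rel K ω x x'') ∧
      ∀ x ∈ X, ∀ x' ∈ X, ∀ x'' ∈ X, Rel K ω x x' → Rel K ω x' x'' →
        al K x x'' = al K x x' + al K x' x'' := by
  refine ⟨fun x _ => rel_self K hβ ω x, fun x _ x' _ hR => rel_symm K hR, ?_, ?_⟩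
  · intro x hx x' hx' x'' hx'' h1 h2
    exact (rel_trans K hβ h hx hx' hx'' h1 h2).1
  · intro x hx x' hx' x'' hx'' h1 h2
    exact (rel_trans K hβ h hx hx' hx'' h1 h2).2

theorem solX_single (K : Code n A β) (hβ : β < 1 / 2) {T : ℕ} (ω : Fin T → A × A)
    (x : A → ZMod 2) : solX K ω {x} = Finset.univ := by
  have hG : Good K ω {x} := by
    intro y hy y' hy' _
    rw [Finset.mem_singleton] at hy hy'
    rw [hy, hy', rel_zero K hβ, rho_zero]
    norm_num
  rw [solX_good K hG]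
  ext c
  rw [Pool.Agent.Lib.P325sdp.UnifSolAux.mem_sol]
  refine ⟨fun _ => Finset.mem_univ _, fun _ => ?_⟩
  intro y hy y' hy' _
  rw [Finset.mem_singleton] at hy hy'
  rw [hy, hy', al_self K hβ, add_zero]

theorem locK_apply (K : Code n A β) (κ : ℝ) (T : ℕ) (X : Finset (A → ZMod 2))
    (F : ((A → ZMod 2) → Pt n) → ℝ) :
    locK K κ T X F = κ * avgL Finset.univ F + (1 - κ) * locL K T X F := by
  unfold locK
  rw [LinearMap.add_apply, LinearMap.smul_apply, LinearMap.smul_apply, smul_eq_mul, smul_eq_mul]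

end LocAux

open LocAux

theorem solX_nonempty (K : Code n A β) (hβ : β < 1 / 2) {T : ℕ} (ω : Fin T → A × A)
    (X : Finset (A → ZMod 2)) : (solX K ω X).Nonempty := by
  by_cases h : Good K ω X
  · rw [solX_good K h]
    obtain ⟨h1, h2, h3, h4⟩ := good_equiv K hβ ω X h
    exact (Pool.Agent.Lib.P325sdp.unif_sol (Rel K ω) (al K) X X (Finset.Subset.refl X)
      h1 h2 h3 h4).1
  · exact ⟨0, solX_bad K h 0⟩

theorem loc_pos (K : Code n A β) (hβ : β < 1 / 2) (T : ℕ) (X : Finset (A → ZMod 2)) :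
    IsPos (locL K T X) := by
  have hc := card_pos_real A T
  refine ⟨?_, ?_⟩
  · rw [locL_apply,
      Finset.sum_congr rfl fun ω _ => (avgL_pos (solX K ω X) (solX_nonempty K hβ ω X)).one,
      Finset.sum_const, nsmul_eq_mul, mul_one, Finset.card_univ]
    exact inv_mul_cancel₀ hc.ne'
  · intro f hf
    rw [locL_apply]
    exact mul_nonneg (inv_nonneg.2 hc.le) (Finset.sum_nonneg fun ω _ =>
      (avgL_pos (solX K ω X) (solX_nonempty K hβ ω X)).nonneg f hf)

theorem loc_cons (K : Code n A β) (hβ : β < 1 / 2) (T : ℕ) (X X' : Finset (A → ZMod 2))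
    (hX : X' ⊆ X) (F : ((A → ZMod 2) → Pt n) → ℝ) (hF : DependsOn F (X' : Set (A → ZMod 2)))
    (h1 : ∀ c, |F c| ≤ 1) :
    |locL K T X F - locL K T X' F| ≤ 2 * (X.card : ℝ) ^ 2 * (113 / 128) ^ T := by
  have hc := card_pos_real A T
  have hω : ∀ ω : Fin T → A × A, |avgL (solX K ω X) F - avgL (solX K ω X') F| ≤
      2 * ∑ x ∈ X, ∑ x' ∈ X, bad K x x' ω := by
    intro ω
    by_cases h : Good K ω X
    · obtain ⟨h2, h3, h4, h5⟩ := good_equiv K hβ ω X h
      rw [solX_good K h, solX_good K (good_mono K hX h),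
        (Pool.Agent.Lib.P325sdp.unif_sol (Rel K ω) (al K) X X' hX h2 h3 h4 h5).2 F hF,
        sub_self, abs_zero]
      exact mul_nonneg zero_le_two (Finset.sum_nonneg fun x _ =>
        Finset.sum_nonneg fun x' _ => bad_nonneg K x x' ω)
    · have h2 := one_le_bad K h
      have h3 := abs_le.1 (abs_le_of_pos (avgL_pos (solX K ω X) (solX_nonempty K hβ ω X)) F 1 h1)
      have h4 := abs_le.1
        (abs_le_of_pos (avgL_pos (solX K ω X') (solX_nonempty K hβ ω X')) F 1 h1)
      refine abs_le.2 ⟨by linarith, by linarith⟩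
  rw [locL_apply, locL_apply, ← mul_sub, ← Finset.sum_sub_distrib, abs_mul,
    abs_of_pos (inv_pos.2 hc), inv_mul_le_iff₀ hc]
  calc |∑ ω : Fin T → A × A, (avgL (solX K ω X) F - avgL (solX K ω X') F)|
      ≤ ∑ ω : Fin T → A × A, |avgL (solX K ω X) F - avgL (solX K ω X') F| :=
        Finset.abs_sum_le_sum_abs _ _
    _ ≤ ∑ ω : Fin T → A × A, 2 * ∑ x ∈ X, ∑ x' ∈ X, bad K x x' ω :=
        Finset.sum_le_sum fun ω _ => hω ω
    _ = 2 * ∑ x ∈ X, ∑ x' ∈ X, ∑ ω : Fin T → A × A, bad K x x' ω := by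
        rw [← Finset.mul_sum, Finset.sum_comm]
        congr 1
        exact Finset.sum_congr rfl fun x _ => Finset.sum_comm
    _ ≤ 2 * ∑ x ∈ X, ∑ x' ∈ X, (113 / 128) ^ T * (Fintype.card (Fin T → A × A) : ℝ) := by
        refine mul_le_mul_of_nonneg_left ?_ zero_le_two
        exact Finset.sum_le_sum fun x _ => Finset.sum_le_sum fun x' _ => sum_bad K T x x'
    _ = _ := by
        rw [Finset.sum_const, Finset.sum_const, nsmul_eq_mul, nsmul_eq_mul]
        ring

theorem loc_single (K : Code n A β) (hβ : β < 1 / 2) (T : ℕ) (x : A → ZMod 2) :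
    locL K T {x} = avgL Finset.univ := by
  have hc := card_pos_real A T
  refine LinearMap.ext fun F => ?_
  rw [locL_apply, Finset.sum_congr rfl fun ω _ => by rw [solX_single K hβ ω x],
    Finset.sum_const, nsmul_eq_mul, Finset.card_univ, ← mul_assoc, inv_mul_cancel₀ hc.ne',
    one_mul]

theorem locK_pos (K : Code n A β) (hβ : β < 1 / 2) (κ : ℝ) (h0 : 0 ≤ κ) (h1 : κ ≤ 1) (T : ℕ)
    (X : Finset (A → ZMod 2)) : IsPos (locK K κ T X) := by
  have hL := loc_pos K hβ T X
  have hU : IsPos (avgL (Finset.univ : Finset ((A → ZMod 2) → Pt n))) :=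
    avgL_pos _ ⟨0, Finset.mem_univ _⟩
  refine ⟨?_, ?_⟩
  · rw [locK_apply, hL.one, hU.one]
    ring
  · intro f hf
    rw [locK_apply]
    exact add_nonneg (mul_nonneg h0 (hU.nonneg f hf))
      (mul_nonneg (by linarith) (hL.nonneg f hf))

theorem locK_cons (K : Code n A β) (hβ : β < 1 / 2) (κ : ℝ) (h0 : 0 ≤ κ) (h1 : κ ≤ 1) (T : ℕ)
    (X X' : Finset (A → ZMod 2))
    (hX : X' ⊆ X) (F : ((A → ZMod 2) → Pt n) → ℝ) (hF : DependsOn F (X' : Set (A → ZMod 2)))
    (h1 : ∀ c, |F c| ≤ 1) :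
    |locK K κ T X F - locK K κ T X' F| ≤ 2 * (X.card : ℝ) ^ 2 * (113 / 128) ^ T := by
  have h2 := loc_cons K hβ T X X' hX F hF h1
  have h3 : locK K κ T X F - locK K κ T X' F = (1 - κ) * (locL K T X F - locL K T X' F) := by
    rw [locK_apply, locK_apply]
    ring
  rw [h3, abs_mul, abs_of_nonneg (by linarith : (0 : ℝ) ≤ 1 - κ)]
  exact (mul_le_of_le_one_left (abs_nonneg _) (by linarith)).trans h2

theorem locK_single (K : Code n A β) (hβ : β < 1 / 2) (κ : ℝ) (T : ℕ) (x : A → ZMod 2) :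
    locK K κ T {x} = avgL Finset.univ := by
  refine LinearMap.ext fun F => ?_
  rw [locK_apply, loc_single K hβ]
  ring

end Pool.Agent.Lib.P325rm
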