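import Pool.Agent.Lib.P325rm.Rho

/-!
Module MeanR (0.6h; adapt mean_cor_sq in the finished file P325x/KV.lean; black box mean_W_nz). The mean correlation of
the noise. PROOF. rho (nz 1 r)^2 = |A|⁻² ∑_{a, b} sg (nz 1 r a) sg (nz 1 r b). The mean of a term over r is 1 if a = b and
u = (1 - 2/q)^2 if a ≠ b (mean_W_nz for the set {a, b}), and u <= 1, so the mean is >= u >= 1 - 4/q.
-/

open scoped BigOperators

namespace Pool.Agent.Lib.P325rm

open Pool.Agent.Lib.P325x (mean nz)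

theorem mean_rho_sq {A : Type} [Fintype A] [DecidableEq A] [Nonempty A] {q : ℕ} (hq : 2 ≤ q) :
    1 - 4 / (q : ℝ) ≤ mean (fun r : A → Fin q => rho (nz 1 r) ^ 2) := by
  classical
  have hq0 : 0 < q := by omega
  have : NeZero q := ⟨hq0.ne'⟩
  have : Nonempty (A → Fin q) := ⟨fun _ => 0⟩
  have hqr : (2 : ℝ) ≤ q := by exact_mod_cast hq
  have hM : (0 : ℝ) < (Fintype.card A : ℝ) := by exact_mod_cast Fintype.card_pos
  set ρ : ℝ := 1 - 2 * ((1 : ℕ) : ℝ) / q with hρ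
  have hρ0 : 0 ≤ ρ := by
    rw [hρ, Nat.cast_one, mul_one, sub_nonneg, div_le_one (by linarith)]
    exact hqr
  have hρ1 : ρ ≤ 1 := by
    rw [hρ]
    have : (0 : ℝ) ≤ 2 * ((1 : ℕ) : ℝ) / q := by positivity
    linarith
  have hρsq : ρ ^ 2 ≤ 1 := pow_le_one₀ hρ0 hρ1
  have h1 : ∀ r : A → Fin q, rho (nz 1 r) ^ 2 =
      ((Fintype.card A : ℝ) ^ 2)⁻¹ *
        ∑ a : A, ∑ b : A, P325x.sg (nz 1 r a) * P325x.sg (nz 1 r b) := by
    intro r
    rw [rho, div_pow, sq (∑ a, P325x.sg (nz 1 r a)), Finset.sum_mul_sum]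
    ring
  have h2 : ∀ a b : A, ρ ^ 2 ≤
      mean (fun r : A → Fin q => P325x.sg (nz 1 r a) * P325x.sg (nz 1 r b)) := by
    intro a b
    by_cases h : a = b
    · subst h
      rw [P325x.mean_congr fun r => P325x.sg_mul_self _, P325x.mean_const]
      exact hρsq
    · have h3 := P325x.mean_W_nz (A := A) hq0 (show 1 ≤ q by omega) {a, b}
      rw [Finset.card_pair h] at h3
      refine le_of_eq ?_
      rw [hρ, ← h3]
      refine P325x.mean_congr fun r => ?_
      rw [P325x.W, Finset.prod_pair h]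
  rw [P325x.mean_congr h1, P325x.mean_smul, P325x.mean_sum]
  have h4 : (Fintype.card A : ℝ) ^ 2 * ρ ^ 2 ≤
      ∑ a : A, mean (fun r : A → Fin q => ∑ b : A, P325x.sg (nz 1 r a) * P325x.sg (nz 1 r b)) := by
    calc (Fintype.card A : ℝ) ^ 2 * ρ ^ 2 = ∑ _a : A, ∑ _b : A, ρ ^ 2 := by
          simp only [Finset.sum_const, Finset.card_univ, nsmul_eq_mul]
          ring
      _ ≤ _ := by
          refine Finset.sum_le_sum fun a _ => ?_
          rw [P325x.mean_sum]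
          exact Finset.sum_le_sum fun b _ => h2 a b
  have h5 : ρ ^ 2 ≤ ((Fintype.card A : ℝ) ^ 2)⁻¹ *
      ∑ a : A, mean (fun r : A → Fin q => ∑ b : A, P325x.sg (nz 1 r a) * P325x.sg (nz 1 r b)) := by
    rw [← div_eq_inv_mul, le_div_iff₀ (by positivity)]
    linarith
  have h6 : 1 - 4 / (q : ℝ) ≤ ρ ^ 2 := by
    have h7 : (0 : ℝ) < 1 / q := by positivity
    have h8 : ρ = 1 - 2 * (1 / (q : ℝ)) := by rw [hρ, Nat.cast_one]; ring
    rw [h8]
    have h9 : (4 : ℝ) / q = 4 * (1 / q) := by ring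
    rw [h9]
    nlinarith [sq_nonneg (1 / (q : ℝ))]
  exact h6.trans h5

end Pool.Agent.Lib.P325rm
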